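import Pool.Agent.Helper62.RE.Mods3

set_option autoImplicit false

/-!
# AUT: the automorphisms `(x, y) ↦ (u² x, u³ y)` are homomorphisms
-/

namespace Pool.Agent.Helper62.RE.AUT

open WeierstrassCurve WeierstrassCurve.Affine
open scoped Classical

lemma eqn_iff (a b x y : Qb) : (curve a b).toAffine.Equation x y ↔ y ^ 2 = x ^ 3 + a * x + b := by
  rw [WeierstrassCurve.Affine.equation_iff]
  simp [curve]

lemma ns_iff (a b x y : Qb) : (curve a b).toAffine.Nonsingular x y ↔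
    y ^ 2 = x ^ 3 + a * x + b ∧ (3 * x ^ 2 + a ≠ 0 ∨ 2 * y ≠ 0) := by
  rw [WeierstrassCurve.Affine.nonsingular_iff, eqn_iff]
  simp only [curve]
  constructor
  · rintro ⟨h, h2⟩
    refine ⟨h, ?_⟩
    rcases h2 with h2 | h2
    · left
      intro h3
      apply h2
      linear_combination -h3
    · right
      intro h3
      apply h2
      linear_combination h3
  · rintro ⟨h, h2⟩
    refine ⟨h, ?_⟩
    rcases h2 with h2 | h2
    · left
      intro h3
      apply h2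
      linear_combination -h3
    · right
      intro h3
      apply h2
      linear_combination h3

lemma ns_map {a b u : Qb} (hu : u ≠ 0) (ha : u ^ 4 * a = a) (hb : u ^ 6 * b = b) {x y : Qb}
    (h : (curve a b).toAffine.Nonsingular x y) :
    (curve a b).toAffine.Nonsingular (u ^ 2 * x) (u ^ 3 * y) := by
  rw [ns_iff] at h ⊢
  obtain ⟨h1, h2⟩ := h
  refine ⟨?_, ?_⟩
  · linear_combination u ^ 6 * h1 + hb + u ^ 2 * x * ha
  · rcases h2 with h2 | h2
    · left
      have : 3 * (u ^ 2 * x) ^ 2 + a = u ^ 4 * (3 * x ^ 2 + a) := by linear_combination -ha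
      rw [this]
      exact mul_ne_zero (pow_ne_zero _ hu) h2
    · right
      have : 2 * (u ^ 3 * y) = u ^ 3 * (2 * y) := by ring
      rw [this]
      exact mul_ne_zero (pow_ne_zero _ hu) h2

/-- the map -/
noncomputable def f {a b u : Qb} (hu : u ≠ 0) (ha : u ^ 4 * a = a) (hb : u ^ 6 * b = b) :
    EPt a b → EPt a b
  | .zero => .zero
  | .some x y h => .some (u ^ 2 * x) (u ^ 3 * y) (ns_map hu ha hb h)

lemma negY_eq (a b x y : Qb) : (curve a b).toAffine.negY x y = -y := by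
  simp [WeierstrassCurve.Affine.negY, curve]

lemma some_congr {a b x y x' y' : Qb} {h : (curve a b).toAffine.Nonsingular x y}
    {h' : (curve a b).toAffine.Nonsingular x' y'} (hx : x = x') (hy : y = y') :
    (WeierstrassCurve.Affine.Point.some x y h : EPt a b) = .some x' y' h' := by
  subst hx; subst hy; rfl

lemma slope_map {a b u : Qb} (hu : u ≠ 0) (ha : u ^ 4 * a = a) {x₁ x₂ y₁ y₂ : Qb}
    (hxy : ¬ (x₁ = x₂ ∧ y₁ = (curve a b).toAffine.negY x₂ y₂)) :
    (curve a b).toAffine.slope (u ^ 2 * x₁) (u ^ 2 * x₂) (u ^ 3 * y₁) (u ^ 3 * y₂)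
      = u * (curve a b).toAffine.slope x₁ x₂ y₁ y₂ := by
  by_cases hx : x₁ = x₂
  · have hy : y₁ ≠ (curve a b).toAffine.negY x₂ y₂ := fun h => hxy ⟨hx, h⟩
    have hy' : u ^ 3 * y₁ ≠ (curve a b).toAffine.negY (u ^ 2 * x₂) (u ^ 3 * y₂) := by
      rw [negY_eq] at hy ⊢
      intro h
      apply hy
      have h3 : u ^ 3 * y₁ = u ^ 3 * (-y₂) := by rw [h]; ring
      exact mul_left_cancel₀ (pow_ne_zero _ hu) h3
    rw [WeierstrassCurve.Affine.slope_of_Y_ne (by rw [hx]) hy', WeierstrassCurve.Affine.slope_of_Y_ne hx hy]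
    rw [negY_eq, negY_eq]
    simp only [curve]
    have e1 : 3 * (u ^ 2 * x₁) ^ 2 + 2 * 0 * (u ^ 2 * x₁) + a - 0 * (u ^ 3 * y₁)
        = u ^ 4 * (3 * x₁ ^ 2 + 2 * 0 * x₁ + a - 0 * y₁) := by linear_combination -ha
    have e2 : u ^ 3 * y₁ - -(u ^ 3 * y₁) = u ^ 3 * (y₁ - -y₁) := by ring
    rw [e1, e2, show u ^ 4 = u ^ 3 * u by ring, mul_assoc, mul_div_mul_left _ _ (pow_ne_zero _ hu), mul_div_assoc]
  · have hx' : u ^ 2 * x₁ ≠ u ^ 2 * x₂ := fun h => hx (mul_left_cancel₀ (pow_ne_zero _ hu) h)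
    rw [WeierstrassCurve.Affine.slope_of_X_ne hx', WeierstrassCurve.Affine.slope_of_X_ne hx]
    have e1 : u ^ 3 * y₁ - u ^ 3 * y₂ = u ^ 2 * (u * (y₁ - y₂)) := by ring
    have e2 : u ^ 2 * x₁ - u ^ 2 * x₂ = u ^ 2 * (x₁ - x₂) := by ring
    rw [e1, e2, mul_div_mul_left _ _ (pow_ne_zero _ hu), mul_div_assoc]

lemma f_add {a b u : Qb} (hu : u ≠ 0) (ha : u ^ 4 * a = a) (hb : u ^ 6 * b = b) (P Q : EPt a b) :
    f hu ha hb (P + Q) = f hu ha hb P + f hu ha hb Q := by
  rcases P with _ | ⟨x₁, y₁, h₁⟩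
  · change f hu ha hb (0 + Q) = 0 + f hu ha hb Q
    rw [zero_add, zero_add]
  rcases Q with _ | ⟨x₂, y₂, h₂⟩
  · change f hu ha hb (_ + 0) = f hu ha hb _ + 0
    rw [add_zero, add_zero]
  by_cases hxy : x₁ = x₂ ∧ y₁ = (curve a b).toAffine.negY x₂ y₂
  · rw [WeierstrassCurve.Affine.Point.add_of_Y_eq hxy.1 hxy.2]
    change (0 : EPt a b) = WeierstrassCurve.Affine.Point.some _ _ _ + WeierstrassCurve.Affine.Point.some _ _ _
    rw [WeierstrassCurve.Affine.Point.add_of_Y_eq]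
    · rw [hxy.1]
    · rw [hxy.2, negY_eq, negY_eq]
      ring
  · rw [WeierstrassCurve.Affine.Point.add_some hxy]
    change (WeierstrassCurve.Affine.Point.some _ _ _ : EPt a b)
      = WeierstrassCurve.Affine.Point.some _ _ _ + WeierstrassCurve.Affine.Point.some _ _ _
    have hxy' : ¬ (u ^ 2 * x₁ = u ^ 2 * x₂ ∧
        u ^ 3 * y₁ = (curve a b).toAffine.negY (u ^ 2 * x₂) (u ^ 3 * y₂)) := by
      rintro ⟨e1, e2⟩
      apply hxy
      refine ⟨mul_left_cancel₀ (pow_ne_zero _ hu) e1, ?_⟩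
      rw [negY_eq] at e2 ⊢
      exact mul_left_cancel₀ (pow_ne_zero 3 hu) (by rw [e2]; ring)
    rw [WeierstrassCurve.Affine.Point.add_some hxy']
    have hs := slope_map (b := b) hu ha hxy
    apply some_congr
    · rw [hs]
      simp only [WeierstrassCurve.Affine.addX, curve]
      ring
    · rw [hs]
      simp only [WeierstrassCurve.Affine.addY, WeierstrassCurve.Affine.negAddY,
        WeierstrassCurve.Affine.addX, WeierstrassCurve.Affine.negY, curve]
      ring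

theorem main : S_AUT := by
  intro a b u hu ha hb
  exact ⟨⟨⟨f hu ha hb, rfl⟩, f_add hu ha hb⟩, fun x y h => ⟨ns_map hu ha hb h, rfl⟩⟩

end Pool.Agent.Helper62.RE.AUT
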