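import Mathlib

set_option autoImplicit false

/-!
# Rémond's generalised Lehmer problem for powers of elliptic curves: definitions and module statements
-/

namespace Pool.Agent.Helper62.RE

open Filter Topology
open scoped TensorProduct Classical

/-- the field of algebraic numbers -/
abbrev Qb := AlgebraicClosure ℚ

/-- the curve `y² = x³ + a x + b` -/
def curve {F : Type} [Field F] (a b : F) : WeierstrassCurve F :=
  { a₁ := 0, a₂ := 0, a₃ := 0, a₄ := a, a₆ := b }

/-- the group `E(ℚ̄)` of the points of `y² = x³ + a x + b` with algebraic coordinates -/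
abbrev EPt (a b : Qb) : Type := (curve a b).toAffine.Point

/-- half of the absolute logarithmic Weil height of the first coordinate -/
noncomputable def naive {a b : Qb} : EPt a b → ℝ
  | .zero => 0
  | .some x _ _ => NumberField.absLogHeight₁ x / 2

/-- the Néron-Tate height -/
noncomputable def ht {a b : Qb} (P : EPt a b) : ℝ :=
  limUnder atTop fun k : ℕ => naive ((2 ^ k : ℕ) • P) / 4 ^ k

/-- the coordinates of a point -/
def coords {a b : Qb} : EPt a b → Set Qb
  | .zero => ∅
  | .some x y _ => {x, y}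

/-- the abelian group `M` has finite rank -/
def FinRk (M : Type) [AddCommGroup M] : Prop := FiniteDimensional ℚ (ℚ ⊗[ℤ] M)

/-- the rank -/
noncomputable def rk (M : Type) [AddCommGroup M] : ℕ := Module.finrank ℚ (ℚ ⊗[ℤ] M)

/-- `A` is finitely generated modulo torsion -/
def FGModTorsion {M : Type} [AddCommGroup M] (A : AddSubgroup M) : Prop :=
  ∃ F : Set M, F.Finite ∧ F ⊆ A ∧ ∀ x ∈ A, ∃ y ∈ AddSubgroup.closure F, ∃ m : ℕ, 0 < m ∧
    m • (x - y) = 0

/-- the group generated by the coordinates of the elements of `Γ` -/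
def coordGroup {M : Type} [AddCommGroup M] {n : ℕ} (Γ : AddSubgroup (Fin n → M)) : AddSubgroup M :=
  AddSubgroup.closure {y | ∃ g ∈ Γ, ∃ i, y = g i}

/-! ## Statements of the modules -/

/-- HT: the Néron-Tate height exists, is nonnegative and satisfies the parallelogram law. Transfer from
number fields: `Pool.Agent.TH942.neron` of the library (module Pool.Graph.R_seed8.TH942.Ner; `SPt`,
`sht`) for the number fields `L` generated by `a`, `b` and the coordinates of `P`, `Q`. -/
def S_HT : Prop := ∀ a b : Qb, 4 * a ^ 3 + 27 * b ^ 2 ≠ 0 →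
  (∀ P : EPt a b, Tendsto (fun k : ℕ => naive ((2 ^ k : ℕ) • P) / 4 ^ k) atTop (𝓝 (ht P))) ∧
  (∀ P : EPt a b, 0 ≤ ht P) ∧
  ∀ P Q : EPt a b, ht (P + Q) + ht (P - Q) = 2 * (ht P + ht Q)

/-- DBL: every point is twice a point, and of at most four points. -/
def S_DBL : Prop := ∀ a b : Qb, 4 * a ^ 3 + 27 * b ^ 2 ≠ 0 →
  (∀ S : EPt a b, ∃ R : EPt a b, 2 • R = S) ∧
  ∀ S : EPt a b, {R : EPt a b | 2 • R = S}.Finite ∧ {R : EPt a b | 2 • R = S}.ncard ≤ 4

/-- INF: `E(ℚ̄)` has infinite rank. -/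
def S_INF : Prop := ∀ a b : Qb, 4 * a ^ 3 + 27 * b ^ 2 ≠ 0 →
  ∀ F : Set (EPt a b), F.Finite → ∃ R : EPt a b, ∀ m : ℕ, 0 < m → m • R ∉ AddSubgroup.closure F

/-- DEG: the degree of points `R j` with `2 ^ k R j = S j` over any field `L`. (Count the embeddings over
`L` of the field generated by the coordinates of the `R j`: such an embedding is determined by the
images of the `R j`, which are among the points `R'` with `2 ^ k R' = S'`, `S'` a conjugate of `S j`; by
DBL there are at most `4 ^ k` for each `S'`. The number of conjugates of the `S j` over `ℚ(a, b)` is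
finite.) -/
def S_DEG : Prop := ∀ a b : Qb, 4 * a ^ 3 + 27 * b ^ 2 ≠ 0 →
  ∀ (r : ℕ) (S : Fin r → EPt a b), ∃ C : ℕ, ∀ (L : IntermediateField ℚ Qb), a ∈ L → b ∈ L →
    ∀ (k : ℕ) (R : Fin r → EPt a b), (∀ j, (2 ^ k : ℕ) • R j = S j) →
      FiniteDimensional L (IntermediateField.adjoin L (⋃ j, coords (R j))) ∧
      Module.finrank L (IntermediateField.adjoin L (⋃ j, coords (R j))) ≤ C * 4 ^ (k * r)

/-- RK: a group of rank less than `n`, whose coordinate group has nontorsion elements `z` with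
arbitrarily small values `h z`. `h` is an arbitrary function. Proof: let `V = ℚ ⊗ H`, `H` the
coordinate group, and `W_ε` the span of the `z ∈ H` with `h z < ε`. As `V` is finite dimensional, `W_ε`
is the same subspace `W ≠ 0` for all small `ε`. Let `f : V → ℚ` be linear and not zero on `W`. The map
`v ↦ (γ ↦ f (∑ v_i γ_i))` from `ℚ^n` to the dual of `ℚ ⊗ Γ` is not injective, so there is an integral
`v ≠ 0` in the kernel. If all `z` with `h z < ε` had a multiple of the form `∑ v_i γ_i`, then `f` would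
vanish on `W_ε = W`. (Compare E8helper9.RM.Exist, `exists_chi_of_rank`, of the library, store
h62_RM_Exist.lean.) -/
def S_RK : Prop := ∀ (M : Type) [AddCommGroup M] (n : ℕ) (Γ : AddSubgroup (Fin n → M)) (h : M → ℝ),
  FinRk Γ → rk Γ < n →
  (∀ ε : ℝ, 0 < ε → ∃ z ∈ coordGroup Γ, (∀ m : ℕ, 0 < m → m • z ≠ 0) ∧ h z < ε) →
  ∃ v : Fin n → ℤ, v ≠ 0 ∧ ∀ ε : ℝ, 0 < ε → ∃ z ∈ coordGroup Γ, h z < ε ∧
    ∀ m : ℕ, 0 < m → ∀ γ ∈ Γ, m • z ≠ ∑ i, v i • γ i

/-- SM: a group of finite rank which is not finitely generated modulo torsion has nontorsion elements of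
arbitrarily small height. Here `κ = 1` for the multiplicative group and `κ = 2` for elliptic curves.
Proof: let `y_1, …, y_r ∈ H` be such that every `y ∈ H` has a multiple `m y = ∑ a_i y_i`. Subtracting a
combination of the `y_i` we may assume `0 ≤ a_i < m`. Divide `[0, 1)^r` into `N^r` boxes. If two such
`y`, `y'` have `(a_i / m)`, `(a'_i / m')` in the same box, then `h (y - y') ≤ C / N ^ κ`. So if nontorsion
elements have height at least `ε`, then, for large `N`, one element for each box and the `y_i` generate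
`H` modulo torsion. -/
def S_SM : Prop := ∀ (M : Type) [AddCommGroup M] (H : AddSubgroup M) (h : M → ℝ) (κ : ℕ), 0 < κ →
  (∀ x, 0 ≤ h x) → (∀ x y, h (x + y) ≤ 2 * (h x + h y)) →
  (∀ (m : ℤ) (x : M), h (m • x) = |(m : ℝ)| ^ κ * h x) →
  (∃ F : Set M, F.Finite ∧ F ⊆ H ∧ ∀ y ∈ H, ∃ m : ℕ, 0 < m ∧ m • y ∈ AddSubgroup.closure F) →
  ¬ FGModTorsion H →
  ∀ ε : ℝ, 0 < ε → ∃ z ∈ H, (∀ m : ℕ, 0 < m → m • z ≠ 0) ∧ h z < ε

/-- FG: if the coordinate group is finitely generated modulo torsion then so is `Γ`; and if `Γ` has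
finite rank, then finitely many elements of the coordinate group generate it up to multiples. -/
def S_FG : Prop := ∀ (M : Type) [AddCommGroup M] (n : ℕ) (Γ : AddSubgroup (Fin n → M)),
  (FGModTorsion (coordGroup Γ) → FGModTorsion Γ) ∧
  (FinRk Γ → ∃ F : Set M, F.Finite ∧ F ⊆ coordGroup Γ ∧ ∀ y ∈ coordGroup Γ, ∃ m : ℕ, 0 < m ∧
    m • y ∈ AddSubgroup.closure F)

/-- SAT: a group which contains the halves of its elements and a nontorsion element is not finitely
generated modulo torsion. -/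
def S_SAT : Prop := ∀ (M : Type) [AddCommGroup M] (A : AddSubgroup M),
  (∀ x ∈ A, ∃ y ∈ A, 2 • y = x) → (∃ x ∈ A, ∀ m : ℕ, 0 < m → m • x ≠ 0) → ¬ FGModTorsion A

/-- IND: independent points modulo a group of finite rank, over a ring `O` of endomorphisms. -/
def S_IND : Prop := ∀ (M : Type) [AddCommGroup M] (O : Subring (AddMonoid.End M)),
  (∀ x ∈ O, ∀ y ∈ O, x * y = y * x) →
  (∀ x ∈ O, x ≠ 0 → ∃ y ∈ O, ∃ N : ℕ, 0 < N ∧ y * x = (N : AddMonoid.End M)) →
  (∃ B : Set (AddMonoid.End M), B.Finite ∧ ∀ x ∈ O, x ∈ AddSubgroup.closure B) →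
  (∀ F : Set M, F.Finite → ∃ R : M, ∀ m : ℕ, 0 < m → m • R ∉ AddSubgroup.closure F) →
  ∀ (F : Set M), F.Finite → ∀ r : ℕ, ∃ S : Fin r → M, ∀ w : Fin r → AddMonoid.End M, (∀ j, w j ∈ O) →
    ∀ y : M, (∃ m : ℕ, 0 < m ∧ m • y ∈
      AddSubgroup.closure {z | ∃ x ∈ O, ∃ f ∈ F, z = x f}) → ∑ j, w j (S j) = y → w = 0

end Pool.Agent.Helper62.RE
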