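import Mathlib
import Pool.Agent.Helper62.RE.Base

set_option autoImplicit false

/-!
# Finite generation modulo torsion and finite rank of the coordinate group
-/

namespace Pool.Agent.Helper62.RE.FG

open Pool.Agent.Helper62.RE
open scoped TensorProduct

lemma torsion_iff {M : Type} [AddCommGroup M] (x : M) :
    (Submodule.torsion ℤ M).mkQ x = 0 ↔ ∃ m : ℕ, 0 < m ∧ m • x = 0 := by
  have h1 : (Submodule.torsion ℤ M).mkQ x = 0 ↔ x ∈ Submodule.torsion ℤ M :=
    Submodule.Quotient.mk_eq_zero _
  rw [h1, Submodule.mem_torsion_iff]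
  constructor
  · rintro ⟨a, ha⟩
    have ha0 : (a : ℤ) ≠ 0 := nonZeroDivisors.coe_ne_zero a
    refine ⟨(a : ℤ).natAbs, Int.natAbs_pos.2 ha0, ?_⟩
    have ha' : (a : ℤ) • x = 0 := ha
    rcases Int.natAbs_eq (a : ℤ) with h | h
    · rw [h] at ha'
      simpa using ha'
    · rw [h] at ha'
      simpa using ha'
  · rintro ⟨m, hm, hmx⟩
    refine ⟨⟨(m : ℤ), mem_nonZeroDivisors_of_ne_zero (by exact_mod_cast hm.ne')⟩, ?_⟩
    show (m : ℤ) • x = 0
    simpa using hmx

/-- an element which vanishes in the rational tensor product is torsion -/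
lemma tmul_eq_zero {M : Type} [AddCommGroup M] {x : M} (h : (1 : ℚ) ⊗ₜ[ℤ] x = 0) :
    ∃ m : ℕ, 0 < m ∧ m • x = 0 := by
  have hloc : IsLocalizedModule (nonZeroDivisors ℤ) (TensorProduct.mk ℤ ℚ M 1) := inferInstance
  have h1 : TensorProduct.mk ℤ ℚ M 1 x = 0 := h
  rw [IsLocalizedModule.eq_zero_iff (nonZeroDivisors ℤ)] at h1
  obtain ⟨c, hc⟩ := h1
  apply (torsion_iff x).1
  apply (Submodule.Quotient.mk_eq_zero _).2
  exact (Submodule.mem_torsion_iff x).2 ⟨c, hc⟩

/-- finitely many elements of a group of finite rank generate it up to multiples -/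
lemma exists_finite {G : Type} [AddCommGroup G] (h : FinRk G) :
    ∃ F : Set G, F.Finite ∧ ∀ y : G, ∃ m : ℕ, 0 < m ∧ m • y ∈ AddSubgroup.closure F := by
  classical
  have hfd : FiniteDimensional ℚ (ℚ ⊗[ℤ] G) := h
  have hspan : Submodule.span ℚ (Set.range fun g : G => (1 : ℚ) ⊗ₜ[ℤ] g) = ⊤ := by
    rw [eq_top_iff]
    rintro w -
    induction w using TensorProduct.induction_on with
    | zero => exact Submodule.zero_mem _
    | tmul q x =>
      have : q ⊗ₜ[ℤ] x = q • ((1 : ℚ) ⊗ₜ[ℤ] x) := by
        rw [TensorProduct.smul_tmul', smul_eq_mul, mul_one]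
      rw [this]
      exact Submodule.smul_mem _ _ (Submodule.subset_span ⟨x, rfl⟩)
    | add a b ha hb => exact Submodule.add_mem _ ha hb
  obtain ⟨T, hT, hTspan⟩ := (Submodule.fg_span_iff_fg_span_finset_subset
    (Set.range fun g : G => (1 : ℚ) ⊗ₜ[ℤ] g)).1 (by rw [hspan]; exact Module.finite_def.1 hfd)
  rw [hspan] at hTspan
  choose! u hu using fun t (ht : t ∈ (T : Set (ℚ ⊗[ℤ] G))) => hT ht
  refine ⟨u '' (T : Set (ℚ ⊗[ℤ] G)), T.finite_toSet.image u, fun y => ?_⟩
  -- the elements with a multiple in the closure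
  set C := AddSubgroup.closure (u '' (T : Set (ℚ ⊗[ℤ] G))) with hC
  have key : ∀ w ∈ Submodule.span ℚ (T : Set (ℚ ⊗[ℤ] G)), ∃ m : ℕ, 0 < m ∧ ∃ c ∈ C,
      (m : ℚ) • w = (1 : ℚ) ⊗ₜ[ℤ] c := by
    intro w hw
    induction hw using Submodule.span_induction with
    | mem t ht =>
      exact ⟨1, one_pos, u t, AddSubgroup.subset_closure ⟨t, ht, rfl⟩, by
        rw [Nat.cast_one, one_smul]; exact (hu t ht).symm⟩
    | zero => exact ⟨1, one_pos, 0, C.zero_mem, by rw [smul_zero, TensorProduct.tmul_zero]⟩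
    | add a b _ _ ha hb =>
      obtain ⟨m, hm, c, hc, hmc⟩ := ha
      obtain ⟨m', hm', c', hc', hmc'⟩ := hb
      refine ⟨m * m', Nat.mul_pos hm hm', m' • c + m • c',
        C.add_mem (C.nsmul_mem hc _) (C.nsmul_mem hc' _), ?_⟩
      rw [TensorProduct.tmul_add, smul_add]
      congr 1
      · rw [Nat.cast_mul, mul_comm, mul_smul, hmc, TensorProduct.tmul_smul, Nat.cast_smul_eq_nsmul]
      · rw [Nat.cast_mul, mul_smul, hmc', TensorProduct.tmul_smul, Nat.cast_smul_eq_nsmul]
    | smul q a _ ha =>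
      obtain ⟨m, hm, c, hc, hmc⟩ := ha
      refine ⟨q.den * m, Nat.mul_pos q.pos hm, q.num • c, C.zsmul_mem hc _, ?_⟩
      rw [TensorProduct.tmul_smul, ← hmc, ← Int.cast_smul_eq_zsmul ℚ, smul_smul, smul_smul]
      congr 1
      push_cast
      have := Rat.mul_den_eq_num q
      calc (q.den : ℚ) * m * q = (q * q.den) * m := by ring
        _ = q.num * m := by rw [this]
  obtain ⟨m, hm, c, hc, hmc⟩ := key ((1 : ℚ) ⊗ₜ[ℤ] y) (by rw [← hTspan]; trivial)
  have h0 : (1 : ℚ) ⊗ₜ[ℤ] (m • y - c) = 0 := by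
    rw [TensorProduct.tmul_sub, TensorProduct.tmul_smul, ← hmc, Nat.cast_smul_eq_nsmul, sub_self]
  obtain ⟨k, hk, hk0⟩ := tmul_eq_zero h0
  refine ⟨k * m, Nat.mul_pos hk hm, ?_⟩
  rw [smul_sub, sub_eq_zero] at hk0
  rw [mul_smul, hk0]
  exact C.nsmul_mem hc _

theorem main : S_FG := by
  classical
  intro M _ n Γ
  refine ⟨?_, ?_⟩
  · -- finite generation modulo torsion
    rintro ⟨F, hfin, hFA, hF⟩
    let N := M ⧸ Submodule.torsion ℤ M
    let π : M →ₗ[ℤ] N := (Submodule.torsion ℤ M).mkQ
    let B : Submodule ℤ N := Submodule.span ℤ (π '' F)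
    have hBA : ∀ x ∈ coordGroup Γ, π x ∈ B := by
      intro x hx
      obtain ⟨y, hy, m, hm, hmy⟩ := hF x hx
      have h1 : π x = π y := by
        have := (torsion_iff (x - y)).2 ⟨m, hm, hmy⟩
        rw [map_sub, sub_eq_zero] at this
        exact this
      rw [h1]
      have h2 : y ∈ Submodule.span ℤ F := by
        rw [← Submodule.mem_toAddSubgroup, Submodule.span_int_eq_addSubgroupClosure]
        exact hy
      have h3 : π y ∈ Submodule.map π (Submodule.span ℤ F) := Submodule.mem_map_of_mem h2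
      rwa [Submodule.map_span] at h3
    have hBfin : Module.Finite ℤ B := Module.Finite.span_of_finite ℤ (hfin.image π)
    -- the map of `Γ` to the power of `B`
    let Φ : Γ →+ (Fin n → B) :=
      { toFun := fun g i => ⟨π ((g : Fin n → M) i),
          hBA _ (AddSubgroup.subset_closure ⟨g, g.2, i, rfl⟩)⟩
        map_zero' := by
          funext i
          apply Subtype.ext
          show π ((0 : Fin n → M) i) = 0
          rw [Pi.zero_apply, map_zero]
        map_add' := fun a b => by
          funext i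
          apply Subtype.ext
          show π (((a : Fin n → M) + (b : Fin n → M)) i) = π ((a : Fin n → M) i) +
            π ((b : Fin n → M) i)
          rw [Pi.add_apply, map_add] }
    let R : Submodule ℤ (Fin n → B) := LinearMap.range Φ.toIntLinearMap
    have hRfg : R.FG := IsNoetherian.noetherian R
    obtain ⟨S, hS⟩ := hRfg
    have hSR : ∀ s ∈ S, ∃ g : Γ, Φ g = s := by
      intro s hs
      have : s ∈ R := by
        rw [← hS]
        exact Submodule.subset_span hs
      exact this
    choose! u hu using hSR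
    refine ⟨(fun s => ((u s : Γ) : Fin n → M)) '' (S : Set (Fin n → B)),
      S.finite_toSet.image _, ?_, ?_⟩
    · rintro _ ⟨s, _, rfl⟩
      exact (u s).2
    · intro x hx
      have hxR : Φ ⟨x, hx⟩ ∈ Submodule.span ℤ (S : Set (Fin n → B)) := by
        rw [hS]
        exact ⟨⟨x, hx⟩, rfl⟩
      have key : ∀ w ∈ Submodule.span ℤ (S : Set (Fin n → B)), ∃ y : Γ, Φ y = w ∧
          (y : Fin n → M) ∈ AddSubgroup.closure
            ((fun s => ((u s : Γ) : Fin n → M)) '' (S : Set (Fin n → B))) := by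
        intro w hw
        induction hw using Submodule.span_induction with
        | mem t ht =>
          exact ⟨u t, hu t ht, AddSubgroup.subset_closure ⟨t, ht, rfl⟩⟩
        | zero => exact ⟨0, map_zero _, AddSubgroup.zero_mem _⟩
        | add a b _ _ ha hb =>
          obtain ⟨y, hy, hyc⟩ := ha
          obtain ⟨y', hy', hyc'⟩ := hb
          exact ⟨y + y', by rw [map_add, hy, hy'], AddSubgroup.add_mem _ hyc hyc'⟩
        | smul q a _ ha =>
          obtain ⟨y, hy, hyc⟩ := ha
          exact ⟨q • y, by rw [map_zsmul, hy], AddSubgroup.zsmul_mem _ hyc _⟩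
      obtain ⟨y, hy, hyc⟩ := key _ hxR
      refine ⟨(y : Fin n → M), hyc, ?_⟩
      have hi : ∀ i, ∃ m : ℕ, 0 < m ∧ m • (x i - (y : Fin n → M) i) = 0 := by
        intro i
        apply (torsion_iff _).1
        rw [map_sub, sub_eq_zero]
        have := congrArg Subtype.val (congrFun hy i)
        exact this.symm
      choose m hm hm0 using hi
      refine ⟨∏ i, m i, Finset.prod_pos fun i _ => hm i, ?_⟩
      funext i
      show (∏ j, m j) • (x i - (y : Fin n → M) i) = 0
      rw [← Finset.prod_erase_mul _ _ (Finset.mem_univ i), mul_smul, hm0 i, smul_zero]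
  · -- finite rank
    intro hfr
    obtain ⟨F, hF, hFm⟩ := exists_finite hfr
    refine ⟨⋃ i : Fin n, (fun g : Γ => (g : Fin n → M) i) '' F,
      Set.finite_iUnion fun i => hF.image _, ?_, ?_⟩
    · intro z hz
      obtain ⟨i, g, _, rfl⟩ := Set.mem_iUnion.1 hz
      exact AddSubgroup.subset_closure ⟨g, g.2, i, rfl⟩
    · set C := AddSubgroup.closure (⋃ i : Fin n, (fun g : Γ => (g : Fin n → M) i) '' F) with hC
      intro y hy
      unfold coordGroup at hy
      induction hy using AddSubgroup.closure_induction with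
      | mem z hz =>
        obtain ⟨g, hg, i, rfl⟩ := hz
        obtain ⟨m, hm, hmg⟩ := hFm ⟨g, hg⟩
        refine ⟨m, hm, ?_⟩
        have h1 : ∀ w ∈ AddSubgroup.closure F, (w : Fin n → M) i ∈ C := by
          intro w hw
          induction hw using AddSubgroup.closure_induction with
          | mem w hw => exact AddSubgroup.subset_closure (Set.mem_iUnion.2 ⟨i, w, hw, rfl⟩)
          | zero => exact C.zero_mem
          | add a b _ _ ha hb => exact C.add_mem ha hb
          | neg a _ ha => exact C.neg_mem ha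
        exact h1 _ hmg
      | zero => exact ⟨1, one_pos, by rw [smul_zero]; exact C.zero_mem⟩
      | add a b _ _ ha hb =>
        obtain ⟨m, hm, hma⟩ := ha
        obtain ⟨k, hk, hkb⟩ := hb
        refine ⟨m * k, Nat.mul_pos hm hk, ?_⟩
        rw [smul_add]
        refine C.add_mem ?_ ?_
        · rw [mul_comm, mul_smul]
          exact C.nsmul_mem hma _
        · rw [mul_smul]
          exact C.nsmul_mem hkb _
      | neg a _ ha =>
        obtain ⟨m, hm, hma⟩ := ha
        exact ⟨m, hm, by rw [smul_neg]; exact C.neg_mem hma⟩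

end Pool.Agent.Helper62.RE.FG
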