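import Pool.Agent.Helper62.RE.Mods4
import Pool.Agent.Helper62.RE.FG

set_option autoImplicit false

/-!
# Module FG2 (helper23, after FG of helper77): finite generation modulo torsion and finite rank of the `O`-span
-/

namespace Pool.Agent.Helper62.RE.FG2

open Pool.Agent.Helper62.RE
open Pool.Agent.Helper62.RE.FG (torsion_iff exists_finite)
open scoped TensorProduct

lemma part1 {M : Type} [AddCommGroup M] {n : ℕ} (Γ : AddSubgroup (Fin n → M)) (H : AddSubgroup M)
    (hH : ∀ g ∈ Γ, ∀ i, g i ∈ H) : FGModTorsion H → FGModTorsion Γ := by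
  classical
  rintro ⟨F, hfin, hFA, hF⟩
  let N := M ⧸ Submodule.torsion ℤ M
  let π : M →ₗ[ℤ] N := (Submodule.torsion ℤ M).mkQ
  let B : Submodule ℤ N := Submodule.span ℤ (π '' F)
  have hBA : ∀ x ∈ H, π x ∈ B := by
    intro x hx
    obtain ⟨y, hy, m, hm, hmy⟩ := hF x hx
    have h1 : π x = π y := by
      have := (torsion_iff (x - y)).2 ⟨m, hm, hmy⟩
      rw [map_sub, sub_eq_zero] at this
      exact this
    rw [h1]
    have h2 : y ∈ Submodule.span ℤ F := by
      rw [← Submodule.mem_toAddSubgroup, Submodule.span_int_eq_addSubgroupClosure]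
      exact hy
    have h3 : π y ∈ Submodule.map π (Submodule.span ℤ F) := Submodule.mem_map_of_mem h2
    rwa [Submodule.map_span] at h3
  have hBfin : Module.Finite ℤ B := Module.Finite.span_of_finite ℤ (hfin.image π)
  -- the map of `Γ` to the power of `B`
  let Φ : Γ →+ (Fin n → B) :=
    { toFun := fun g i => ⟨π ((g : Fin n → M) i),
        hBA _ (hH g g.2 i)⟩
      map_zero' := by
        funext i
        apply Subtype.ext
        show π ((0 : Fin n → M) i) = 0
        rw [Pi.zero_apply, map_zero]
      map_add' := fun a b => by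
        funext i
        apply Subtype.ext
        show π (((a : Fin n → M) + (b : Fin n → M)) i) = π ((a : Fin n → M) i) +
          π ((b : Fin n → M) i)
        rw [Pi.add_apply, map_add] }
  let R : Submodule ℤ (Fin n → B) := LinearMap.range Φ.toIntLinearMap
  have hRfg : R.FG := IsNoetherian.noetherian R
  obtain ⟨S, hS⟩ := hRfg
  have hSR : ∀ s ∈ S, ∃ g : Γ, Φ g = s := by
    intro s hs
    have : s ∈ R := by
      rw [← hS]
      exact Submodule.subset_span hs
    exact this
  choose! u hu using hSR
  refine ⟨(fun s => ((u s : Γ) : Fin n → M)) '' (S : Set (Fin n → B)),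
    S.finite_toSet.image _, ?_, ?_⟩
  · rintro _ ⟨s, _, rfl⟩
    exact (u s).2
  · intro x hx
    have hxR : Φ ⟨x, hx⟩ ∈ Submodule.span ℤ (S : Set (Fin n → B)) := by
      rw [hS]
      exact ⟨⟨x, hx⟩, rfl⟩
    have key : ∀ w ∈ Submodule.span ℤ (S : Set (Fin n → B)), ∃ y : Γ, Φ y = w ∧
        (y : Fin n → M) ∈ AddSubgroup.closure
          ((fun s => ((u s : Γ) : Fin n → M)) '' (S : Set (Fin n → B))) := by
      intro w hw
      induction hw using Submodule.span_induction with
      | mem t ht =>
        exact ⟨u t, hu t ht, AddSubgroup.subset_closure ⟨t, ht, rfl⟩⟩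
      | zero => exact ⟨0, map_zero _, AddSubgroup.zero_mem _⟩
      | add a b _ _ ha hb =>
        obtain ⟨y, hy, hyc⟩ := ha
        obtain ⟨y', hy', hyc'⟩ := hb
        exact ⟨y + y', by rw [map_add, hy, hy'], AddSubgroup.add_mem _ hyc hyc'⟩
      | smul q a _ ha =>
        obtain ⟨y, hy, hyc⟩ := ha
        exact ⟨q • y, by rw [map_zsmul, hy], AddSubgroup.zsmul_mem _ hyc _⟩
    obtain ⟨y, hy, hyc⟩ := key _ hxR
    refine ⟨(y : Fin n → M), hyc, ?_⟩
    have hi : ∀ i, ∃ m : ℕ, 0 < m ∧ m • (x i - (y : Fin n → M) i) = 0 := by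
      intro i
      apply (torsion_iff _).1
      rw [map_sub, sub_eq_zero]
      have := congrArg Subtype.val (congrFun hy i)
      exact this.symm
    choose m hm hm0 using hi
    refine ⟨∏ i, m i, Finset.prod_pos fun i _ => hm i, ?_⟩
    funext i
    show (∏ j, m j) • (x i - (y : Fin n → M) i) = 0
    rw [← Finset.prod_erase_mul _ _ (Finset.mem_univ i), mul_smul, hm0 i, smul_zero]

/-- a finite set of generators inside the ring -/
lemma gens {M : Type} [AddCommGroup M] (O : Subring (AddMonoid.End M))
    (h : ∃ B : Set (AddMonoid.End M), B.Finite ∧ ∀ x ∈ O, x ∈ AddSubgroup.closure B) :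
    ∃ B : Set (AddMonoid.End M), B.Finite ∧ B ⊆ O ∧ ∀ x ∈ O, x ∈ AddSubgroup.closure B := by
  obtain ⟨B, hB, hBO⟩ := h
  let O' : Submodule ℤ (AddMonoid.End M) := AddSubgroup.toIntSubmodule O.toAddSubgroup
  have hle : O' ≤ Submodule.span ℤ B := by
    intro x hx
    rw [← Submodule.mem_toAddSubgroup, Submodule.span_int_eq_addSubgroupClosure]
    exact hBO x hx
  have h1 : Module.Finite ℤ (Submodule.span ℤ B) := Module.Finite.span_of_finite ℤ hB
  have h2 : IsNoetherian ℤ (Submodule.span ℤ B) := isNoetherian_of_isNoetherianRing_of_finite ℤ _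
  have h3 : IsNoetherian ℤ O' := isNoetherian_of_le hle
  have h4 : O'.FG := Module.Finite.iff_fg.1 inferInstance
  obtain ⟨S, hS⟩ := h4
  refine ⟨S, S.finite_toSet, ?_, ?_⟩
  · intro x hx
    have : x ∈ O' := by
      rw [← hS]
      exact Submodule.subset_span hx
    exact this
  · intro x hx
    have h5 : x ∈ O' := hx
    rw [← hS, ← Submodule.mem_toAddSubgroup, Submodule.span_int_eq_addSubgroupClosure] at h5
    exact h5

theorem main : S_FG2 := by
  classical
  intro M _ O n Γ hO
  refine ⟨?_, ?_⟩
  · refine part1 Γ (oSpan O Γ) ?_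
    intro g hg i
    exact AddSubgroup.subset_closure ⟨1, O.one_mem, g, hg, i, rfl⟩
  · -- finite rank
    intro hfr
    obtain ⟨B, hB, hBO, hBg⟩ := gens O hO
    obtain ⟨F, hF, hFm⟩ := exists_finite hfr
    refine ⟨⋃ i : Fin n, (fun p : AddMonoid.End M × Γ => p.1 ((p.2 : Fin n → M) i)) '' (B ×ˢ F),
      Set.finite_iUnion fun i => (hB.prod hF).image _, ?_, ?_⟩
    · intro z hz
      obtain ⟨i, ⟨x, g⟩, hxg, rfl⟩ := Set.mem_iUnion.1 hz
      exact AddSubgroup.subset_closure ⟨x, hBO hxg.1, g, g.2, i, rfl⟩
    · set C := AddSubgroup.closure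
        (⋃ i : Fin n, (fun p : AddMonoid.End M × Γ => p.1 ((p.2 : Fin n → M) i)) '' (B ×ˢ F)) with hC
      have hx : ∀ x ∈ O, ∀ g ∈ F, ∀ i, x ((g : Fin n → M) i) ∈ C := by
        intro x hx g hg i
        have hx' := hBg x hx
        clear hx
        induction hx' using AddSubgroup.closure_induction with
        | mem w hw => exact AddSubgroup.subset_closure (Set.mem_iUnion.2 ⟨i, (w, g), ⟨hw, hg⟩, rfl⟩)
        | zero => exact C.zero_mem
        | add a b _ _ ha hb => exact C.add_mem ha hb
        | neg a _ ha => exact C.neg_mem ha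
      intro y hy
      unfold oSpan at hy
      induction hy using AddSubgroup.closure_induction with
      | mem z hz =>
        obtain ⟨x, hxO, g, hg, i, rfl⟩ := hz
        obtain ⟨m, hm, hmg⟩ := hFm ⟨g, hg⟩
        refine ⟨m, hm, ?_⟩
        have h1 : ∀ w ∈ AddSubgroup.closure F, x ((w : Fin n → M) i) ∈ C := by
          intro w hw
          induction hw using AddSubgroup.closure_induction with
          | mem w hw => exact hx x hxO w hw i
          | zero =>
            have : x (((0 : Γ) : Fin n → M) i) = 0 := map_zero x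
            rw [this]
            exact C.zero_mem
          | add a b _ _ ha hb =>
            have : x (((a + b : Γ) : Fin n → M) i) = x ((a : Fin n → M) i) + x ((b : Fin n → M) i) := map_add x _ _
            rw [this]
            exact C.add_mem ha hb
          | neg a _ ha =>
            have : x (((-a : Γ) : Fin n → M) i) = -x ((a : Fin n → M) i) := map_neg x _
            rw [this]
            exact C.neg_mem ha
        have h2 := h1 _ hmg
        have h3 : x (((m • (⟨g, hg⟩ : Γ) : Γ) : Fin n → M) i) = m • x (g i) := map_nsmul x m (g i)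
        rw [h3] at h2
        exact h2
      | zero => exact ⟨1, one_pos, by rw [smul_zero]; exact C.zero_mem⟩
      | add a b _ _ ha hb =>
        obtain ⟨m, hm, hma⟩ := ha
        obtain ⟨k, hk, hkb⟩ := hb
        refine ⟨m * k, Nat.mul_pos hm hk, ?_⟩
        rw [smul_add]
        refine C.add_mem ?_ ?_
        · rw [mul_comm, mul_smul]
          exact C.nsmul_mem hma _
        · rw [mul_smul]
          exact C.nsmul_mem hkb _
      | neg a _ ha =>
        obtain ⟨m, hm, hma⟩ := ha
        exact ⟨m, hm, by rw [smul_neg]; exact C.neg_mem hma⟩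

end Pool.Agent.Helper62.RE.FG2
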