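import Pool.Agent.Helper62.RE.Lit

set_option autoImplicit false

/-!
# A proper closed subgroup of `E` is finite
-/

namespace Pool.Agent.Helper62.RE.FIN

open Polynomial
open scoped Classical

variable {a b : Qb}

/-- the polynomial `f (x, y, 1)` in the affine coordinates -/
noncomputable def dehom (f : MvPolynomial (Fin 1 × Fin 3) Qb) : Polynomial (Polynomial Qb) :=
  MvPolynomial.eval₂ ((C : Qb[X] →+* Polynomial (Polynomial Qb)).comp (C : Qb →+* Qb[X]))
    (fun p => (![C X, X, 1] : Fin 3 → Polynomial (Polynomial Qb)) p.2) f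

theorem evalEval_dehom (f : MvPolynomial (Fin 1 × Fin 3) Qb) (x y : Qb) :
    (dehom f).evalEval x y =
      MvPolynomial.eval (fun p : Fin 1 × Fin 3 => (![x, y, 1] : Fin 3 → Qb) p.2) f := by
  show evalEvalRingHom x y (dehom f) = _
  unfold dehom
  rw [MvPolynomial.hom_eval₂]
  have h1 : ((evalEvalRingHom x y).comp
      ((C : Qb[X] →+* Polynomial (Polynomial Qb)).comp (C : Qb →+* Qb[X]))) = RingHom.id Qb := by
    ext t
    simp
  have h2 : (fun p : Fin 1 × Fin 3 => evalEvalRingHom x y
      ((![C X, X, 1] : Fin 3 → Polynomial (Polynomial Qb)) p.2)) =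
      fun p : Fin 1 × Fin 3 => (![x, y, 1] : Fin 3 → Qb) p.2 := by
    funext p
    obtain ⟨i, j⟩ := p
    fin_cases j <;> simp
  show MvPolynomial.eval₂ _ (fun p : Fin 1 × Fin 3 => evalEvalRingHom x y
      ((![C X, X, 1] : Fin 3 → Polynomial (Polynomial Qb)) p.2)) f = _
  rw [h1, h2]
  rfl

theorem value_some (f : MvPolynomial (Fin 1 × Fin 3) Qb) (P : Fin 1 → EPt a b) (x y : Qb)
    (h : (curve a b).toAffine.Nonsingular x y) (hP : P 0 = .some x y h) :
    value f P = (dehom f).evalEval x y := by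
  rw [evalEval_dehom]
  unfold value
  have h1 : (fun p : Fin 1 × Fin 3 => homog (P p.1) p.2) =
      fun p : Fin 1 × Fin 3 => (![x, y, 1] : Fin 3 → Qb) p.2 := by
    funext p
    have : p.1 = 0 := Subsingleton.elim _ _
    rw [this, hP]
    rfl
  rw [h1]

theorem curve_eq {x y : Qb} (h : (curve a b).toAffine.Nonsingular x y) :
    y ^ 2 = x ^ 3 + a * x + b := by
  have h1 := (WeierstrassCurve.Affine.equation_iff _ _).1 h.1
  simp only [curve, WeierstrassCurve.toAffine] at h1
  linear_combination h1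

/-- On the curve, a polynomial in the affine coordinates is `p (x) + q (x) y`. -/
theorem reduce (F : Polynomial (Polynomial Qb)) : ∃ p q : Qb[X], ∀ x y : Qb,
    (curve a b).toAffine.Nonsingular x y → F.evalEval x y = p.eval x + q.eval x * y := by
  obtain ⟨p, q, hpq⟩ := WeierstrassCurve.Affine.CoordinateRing.exists_smul_basis_eq
    (WeierstrassCurve.Affine.CoordinateRing.mk (curve a b).toAffine F)
  refine ⟨p, q, fun x y h => ?_⟩
  rw [WeierstrassCurve.Affine.CoordinateRing.smul, WeierstrassCurve.Affine.CoordinateRing.smul,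
    mul_one, ← map_mul, ← map_add] at hpq
  obtain ⟨R, hR⟩ := AdjoinRoot.mk_eq_mk.1 hpq
  have h0 : ((curve a b).toAffine.polynomial).evalEval x y = 0 := h.1
  have h1 := congrArg (fun G => evalEval x y G) hR
  simp only [evalEval_sub, evalEval_add, evalEval_mul, h0, zero_mul, evalEval_C] at h1
  rw [evalEval_X] at h1
  linear_combination -h1

theorem cubic_natDegree : (X ^ 3 + C a * X + C b : Qb[X]).natDegree = 3 := by
  compute_degree!

theorem ne_zero_of {p q : Qb[X]} (h : ¬ (p = 0 ∧ q = 0)) :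
    p ^ 2 - q ^ 2 * (X ^ 3 + C a * X + C b) ≠ 0 := by
  intro h0
  have h1 : p ^ 2 = q ^ 2 * (X ^ 3 + C a * X + C b) := sub_eq_zero.1 h0
  have hg : (X ^ 3 + C a * X + C b : Qb[X]) ≠ 0 := by
    intro h2
    have := cubic_natDegree (a := a) (b := b)
    rw [h2] at this
    simp at this
  by_cases hq : q = 0
  · apply h
    refine ⟨?_, hq⟩
    rw [hq] at h1
    simpa using h1
  · have h2 := congrArg natDegree h1
    rw [natDegree_pow, natDegree_mul (pow_ne_zero 2 hq) hg, natDegree_pow, cubic_natDegree] at h2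
    omega

/-- the affine points with `x`-coordinate among the zeros of `D` -/
theorem finite_points {D : Qb[X]} (hD : D ≠ 0) :
    {P : EPt a b | ∃ x y h, P = .some x y h ∧ D.eval x = 0}.Finite := by
  classical
  have h1 : {p : Qb × Qb | D.eval p.1 = 0 ∧ p.2 ^ 2 = p.1 ^ 3 + a * p.1 + b}.Finite := by
    have h2 : {x : Qb | D.eval x = 0}.Finite := by
      refine (D.roots.toFinset.finite_toSet).subset fun x hx => ?_
      simp only [Finset.mem_coe, Multiset.mem_toFinset, mem_roots hD]
      exact hx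
    have h3 : ∀ x : Qb, {y : Qb | y ^ 2 = x ^ 3 + a * x + b}.Finite := by
      intro x
      have hne : (X ^ 2 - C (x ^ 3 + a * x + b) : Qb[X]) ≠ 0 := X_pow_sub_C_ne_zero two_pos _
      refine ((X ^ 2 - C (x ^ 3 + a * x + b) : Qb[X]).roots.toFinset.finite_toSet).subset
        fun y hy => ?_
      simp only [Finset.mem_coe, Multiset.mem_toFinset, mem_roots hne, IsRoot.def, eval_sub,
        eval_pow, eval_X, eval_C]
      exact sub_eq_zero.2 hy
    refine (h2.biUnion fun x _ => (h3 x).image fun y => (x, y)).subset ?_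
    rintro ⟨x, y⟩ ⟨hx, hy⟩
    simp only [Set.mem_iUnion, Set.mem_image]
    exact ⟨x, hx, y, hy, rfl⟩
  refine (h1.image fun p : Qb × Qb =>
    if h : (curve a b).toAffine.Nonsingular p.1 p.2 then (.some p.1 p.2 h : EPt a b)
    else .zero).subset ?_
  rintro P ⟨x, y, h, rfl, hx⟩
  refine ⟨(x, y), ⟨hx, curve_eq h⟩, ?_⟩
  exact dif_pos h

/-- FIN: a proper closed subgroup of `E` is finite. -/
theorem main : S_FIN := by
  intro a b hab B hB hne
  obtain ⟨S, hS, hBS⟩ := hB
  have hex : ∃ P₀ : Fin 1 → EPt a b, P₀ ∉ (B : Set (Fin 1 → EPt a b)) := by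
    by_contra hcon
    push Not at hcon
    exact hne (Set.eq_univ_of_forall hcon)
  obtain ⟨P₀, hP₀⟩ := hex
  have hf : ∃ f ∈ S, value f P₀ ≠ 0 := by
    by_contra hcon
    push Not at hcon
    apply hP₀
    rw [hBS]
    exact hcon
  obtain ⟨f, hfS, hf0⟩ := hf
  have hfB : ∀ P ∈ B, value f P = 0 := by
    intro P hP
    have hP' : P ∈ (B : Set (Fin 1 → EPt a b)) := hP
    rw [hBS] at hP'
    exact hP' f hfS
  obtain ⟨p, q, hpq⟩ := reduce (a := a) (b := b) (dehom f)
  have hpq0 : ¬ (p = 0 ∧ q = 0) := by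
    rintro ⟨rfl, rfl⟩
    rcases hP : P₀ 0 with _ | ⟨x, y, h⟩
    · apply hP₀
      have : P₀ = 0 := by
        funext i
        rw [Subsingleton.elim i 0, hP]
        rfl
      rw [this]
      exact B.zero_mem
    · apply hf0
      rw [value_some f P₀ x y h hP, hpq x y h]
      simp
  have hD := ne_zero_of (a := a) (b := b) hpq0
  have hfin := finite_points (a := a) (b := b) hD
  refine ((hfin.union (Set.finite_singleton (0 : EPt a b))).image
    fun P => (fun _ => P : Fin 1 → EPt a b)).subset ?_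
  intro P hP
  refine ⟨P 0, ?_, ?_⟩
  · rcases hP0 : P 0 with _ | ⟨x, y, h⟩
    · right
      rfl
    · left
      refine ⟨x, y, h, rfl, ?_⟩
      have h1 := hfB P hP
      rw [value_some f P x y h hP0, hpq x y h] at h1
      have h2 := curve_eq h
      simp only [eval_sub, eval_pow, eval_mul, eval_add, eval_X, eval_C]
      linear_combination (p.eval x - q.eval x * y) * h1 + (q.eval x) ^ 2 * h2
  · funext i
    rw [Subsingleton.elim i 0]

end Pool.Agent.Helper62.RE.FIN
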