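import Pool.Agent.Helper62.RE.Mods3

/-!
# Module OMR: the automorphism of order three of `y² = x³ + b`
-/

set_option autoImplicit false

namespace Pool.Agent.Helper62.RE.OMR

open Pool.Agent.Helper62.RE WeierstrassCurve

open scoped Classical

/-- three points on a horizontal line add up to zero -/
theorem sum3 {b : Qb} (x₁ x₂ x₃ y : Qb) (h₁ : (curve (0 : Qb) b).toAffine.Nonsingular x₁ y)
    (h₂ : (curve (0 : Qb) b).toAffine.Nonsingular x₂ y)
    (h₃ : (curve (0 : Qb) b).toAffine.Nonsingular x₃ y) (hx : x₃ = -x₁ - x₂)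
    (hne : x₁ ≠ x₂ ∨ (x₁ = 0 ∧ x₂ = 0 ∧ y ≠ 0)) :
    (.some x₁ y h₁ : EPt 0 b) + .some x₂ y h₂ + .some x₃ y h₃ = 0 := by
  have hs : (curve (0 : Qb) b).toAffine.slope x₁ x₂ y y = 0 := by
    rcases hne with h | ⟨h1, h2, h3⟩
    · rw [Affine.slope_of_X_ne h, sub_self, zero_div]
    · subst h1 h2
      have hy : y ≠ (curve (0 : Qb) b).toAffine.negY 0 y := by
        intro h
        simp only [Affine.negY, curve, zero_mul, sub_zero] at h
        apply h3
        have : 2 * y = 0 := by linear_combination h
        simpa using this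
      rw [Affine.slope_of_Y_ne rfl hy]
      simp [curve]
  have hxy : ¬(x₁ = x₂ ∧ y = (curve (0 : Qb) b).toAffine.negY x₂ y) := by
    rintro ⟨h, h'⟩
    rcases hne with h0 | ⟨h1, h2, h3⟩
    · exact h0 h
    · simp only [Affine.negY, curve, zero_mul, sub_zero] at h'
      apply h3
      have : 2 * y = 0 := by linear_combination h'
      simpa using this
  rw [Affine.Point.add_some hxy]
  refine Affine.Point.add_of_Y_eq ?_ ?_
  · rw [hs, hx]
    simp only [Affine.addX, curve]
    ring
  · rw [hs]
    simp only [Affine.addY, Affine.negAddY, Affine.addX, Affine.negY, curve]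
    ring

theorem main : S_OMR := by
  intro b ω hb hω ρ hρ
  ext P
  change ρ (ρ P) + ρ P + P = 0
  rcases P with _ | ⟨x, y, h⟩
  · have h0 : ρ (Affine.Point.zero : EPt 0 b) = 0 := map_zero ρ
    rw [h0, map_zero]
    rfl
  · obtain ⟨h1, e1⟩ := hρ x y h
    obtain ⟨h2, e2⟩ := hρ (ω * x) y h1
    rw [e1, e2]
    refine sum3 _ _ _ _ h2 h1 h ?_ ?_
    · linear_combination x * hω
    · have hω0 : ω ≠ 0 := by
        rintro rfl
        norm_num at hω
      have hω1 : ω ≠ 1 := by
        rintro rfl
        norm_num at hω
      by_cases hx : x = 0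
      · right
        subst hx
        refine ⟨by ring, by ring, ?_⟩
        rintro rfl
        have h3 := h.1
        rw [Affine.equation_iff] at h3
        simp only [curve] at h3
        apply hb
        linear_combination -h3
      · left
        intro h4
        have h5 : (ω * x) * (ω - 1) = 0 := by linear_combination h4
        rcases mul_eq_zero.1 h5 with h6 | h6
        · rcases mul_eq_zero.1 h6 with h7 | h7
          · exact hω0 h7
          · exact hx h7
        · exact hω1 (sub_eq_zero.1 h6)

end Pool.Agent.Helper62.RE.OMR
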