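import Pool.Agent.Helper62.RE.Mods3

set_option autoImplicit false

/-!
# RNG: the ring generated by an endomorphism of norm one
-/

namespace Pool.Agent.Helper62.RE.RNG

section ring

variable {R : Type} [Ring R]

lemma mul_form (ρ : R) (t : ℤ) (hρ : ρ * ρ = (t : R) * ρ - 1) (m n m' n' : ℤ) :
    ((m : R) + (n : R) * ρ) * ((m' : R) + (n' : R) * ρ)
      = ((m * m' - n * n' : ℤ) : R) + ((m * n' + n * m' + n * n' * t : ℤ) : R) * ρ := by
  have c1 : ρ * (m' : R) = (m' : R) * ρ := (Int.cast_commute m' ρ).eq.symm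
  have c2 : ρ * ((n' : R) * ρ) = (n' : R) * (ρ * ρ) := by
    rw [← mul_assoc, (Int.cast_commute n' ρ).eq.symm, mul_assoc]
  calc ((m : R) + (n : R) * ρ) * ((m' : R) + (n' : R) * ρ)
      = (m : R) * (m' : R) + (m : R) * (n' : R) * ρ + (n : R) * (ρ * (m' : R))
        + (n : R) * (ρ * ((n' : R) * ρ)) := by noncomm_ring
    _ = (m : R) * (m' : R) + (m : R) * (n' : R) * ρ + (n : R) * ((m' : R) * ρ)
        + (n : R) * ((n' : R) * ((t : R) * ρ - 1)) := by rw [c1, c2, hρ]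
    _ = _ := by push_cast; noncomm_ring

lemma form_of_mem (ρ : R) (t : ℤ) (hρ : ρ * ρ = (t : R) * ρ - 1) (x : R)
    (hx : x ∈ Subring.closure {ρ}) : ∃ m n : ℤ, x = (m : R) + (n : R) * ρ := by
  induction hx using Subring.closure_induction with
  | mem y hy =>
    rw [Set.mem_singleton_iff] at hy
    exact ⟨0, 1, by rw [hy]; simp⟩
  | zero => exact ⟨0, 0, by simp⟩
  | one => exact ⟨1, 0, by simp⟩
  | add a b _ _ ha hb =>
    obtain ⟨m, n, rfl⟩ := ha
    obtain ⟨m', n', rfl⟩ := hb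
    exact ⟨m + m', n + n', by push_cast; noncomm_ring⟩
  | neg a _ ha =>
    obtain ⟨m, n, rfl⟩ := ha
    exact ⟨-m, -n, by push_cast; noncomm_ring⟩
  | mul a b _ _ ha hb =>
    obtain ⟨m, n, rfl⟩ := ha
    obtain ⟨m', n', rfl⟩ := hb
    exact ⟨_, _, mul_form ρ t hρ m n m' n'⟩

lemma mem_form (ρ : R) (m n : ℤ) : (m : R) + (n : R) * ρ ∈ Subring.closure {ρ} :=
  add_mem (intCast_mem _ m) (mul_mem (intCast_mem _ n) (Subring.subset_closure (Set.mem_singleton _)))

end ring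

lemma pos_norm (m n t : ℤ) (ht : t ^ 2 < 4) (h : ¬ (m = 0 ∧ n = 0)) : 0 < m ^ 2 + m * n * t + n ^ 2 := by
  have h4 : 0 < 4 * (m ^ 2 + m * n * t + n ^ 2) := by
    have e : 4 * (m ^ 2 + m * n * t + n ^ 2) = (2 * m + n * t) ^ 2 + (4 - t ^ 2) * n ^ 2 := by ring
    rw [e]
    rcases eq_or_ne n 0 with hn | hn
    · subst hn
      have hm : m ≠ 0 := fun hm => h ⟨hm, rfl⟩
      have : 0 < (2 * m + 0 * t) ^ 2 := by
        have : (2 * m + 0 * t) ^ 2 = 4 * m ^ 2 := by ring
        rw [this]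
        have := pow_pos (abs_pos.mpr hm) 2
        rw [sq_abs] at this
        linarith
      linarith [sq_nonneg (2 * m + 0 * t), mul_nonneg (by linarith : 0 ≤ 4 - t ^ 2) (sq_nonneg (0 : ℤ))]
    · have hn2 : 0 < n ^ 2 := by
        have := pow_pos (abs_pos.mpr hn) 2
        rwa [sq_abs] at this
      have : 0 < (4 - t ^ 2) * n ^ 2 := mul_pos (by linarith) hn2
      linarith [sq_nonneg (2 * m + n * t)]
  linarith

theorem main : S_RNG := by
  intro M _
  refine ⟨?_, ?_, ?_, ?_⟩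
  · intro ρ t ht hρ0
    have hρ : ρ * ρ = (t : AddMonoid.End M) * ρ - 1 := by
      rw [hρ0]
      congr 1
    refine ⟨?_, ?_, ?_⟩
    · intro x hx y hy
      obtain ⟨m, n, rfl⟩ := form_of_mem ρ t hρ x hx
      obtain ⟨m', n', rfl⟩ := form_of_mem ρ t hρ y hy
      rw [mul_form ρ t hρ, mul_form ρ t hρ]
      congr 2
      · ring_nf
      · congr 1
        ring_nf
    · intro x hx hx0
      obtain ⟨m, n, rfl⟩ := form_of_mem ρ t hρ x hx
      have hmn : ¬ (m = 0 ∧ n = 0) := by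
        rintro ⟨rfl, rfl⟩
        exact hx0 (by simp)
      have hN := pos_norm m n t ht hmn
      refine ⟨((m + n * t : ℤ) : AddMonoid.End M) + ((-n : ℤ) : AddMonoid.End M) * ρ, mem_form ρ _ _,
        (m ^ 2 + m * n * t + n ^ 2).toNat, by omega, ?_⟩
      have hc : (((m ^ 2 + m * n * t + n ^ 2).toNat : ℕ) : AddMonoid.End M)
          = ((m ^ 2 + m * n * t + n ^ 2 : ℤ) : AddMonoid.End M) := by
        rw [← Int.cast_natCast (R := AddMonoid.End M), Int.toNat_of_nonneg hN.le]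
      rw [hc, mul_form ρ t hρ]
      have e1 : (m + n * t) * m - -n * n = m ^ 2 + m * n * t + n ^ 2 := by ring
      have e2 : (m + n * t) * n + -n * m + -n * n * t = 0 := by ring
      rw [e1, e2, Int.cast_zero, zero_mul, add_zero]
    · refine ⟨{1, ρ}, by simp, ?_⟩
      intro x hx
      obtain ⟨m, n, rfl⟩ := form_of_mem ρ t hρ x hx
      rw [← zsmul_eq_mul, ← zsmul_one]
      exact add_mem (zsmul_mem (AddSubgroup.subset_closure (by simp)) m)
        (zsmul_mem (AddSubgroup.subset_closure (by simp)) n)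
  · rintro _ ⟨a, rfl⟩ _ ⟨b, rfl⟩
    rw [← map_mul, ← map_mul, mul_comm]
  · rintro _ ⟨a, rfl⟩ hx
    have ha : a ≠ 0 := by
      rintro rfl
      exact hx (map_zero _)
    refine ⟨Int.castRingHom (AddMonoid.End M) a.sign, ⟨a.sign, rfl⟩, a.natAbs, by omega, ?_⟩
    rw [← map_mul, Int.sign_mul_self_eq_natAbs]
    simp
  · refine ⟨{1}, by simp, ?_⟩
    rintro _ ⟨a, rfl⟩
    have : Int.castRingHom (AddMonoid.End M) a = a • (1 : AddMonoid.End M) := by simp
    rw [this]
    exact zsmul_mem (AddSubgroup.subset_closure (by simp)) a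

end Pool.Agent.Helper62.RE.RNG
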