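import Pool.Agent.Helper62.RE.Core
import Pool.Agent.Helper62.RE.AUT
import Pool.Agent.Helper62.RE.RNG
import Pool.Agent.Helper62.RE.OMR

set_option autoImplicit false

/-!
# Examples of rings of endomorphisms
-/

namespace Pool.Agent.Helper62.RE

open scoped Classical

/-- the ring of integers -/
theorem isEndRing_int (a b : Qb) :
    IsEndRing (Int.castRingHom (AddMonoid.End (EPt a b))).range :=
  (RNG.main (EPt a b)).2

/-- the Gaussian integers -/
theorem isEndRing_gauss (a : Qb) :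
    ∃ ρ : AddMonoid.End (EPt a 0), (∃ i : Qb, i ^ 2 = -1 ∧
      ∀ x y h, ∃ h', ρ (.some x y h) = .some (-x) (i * y) h') ∧ IsEndRing (Subring.closure {ρ}) := by
  obtain ⟨u, hu⟩ := IsAlgClosed.exists_pow_nat_eq (-1 : Qb) (n := 2) two_pos
  have hu0 : u ≠ 0 := by
    rintro rfl
    norm_num at hu
  obtain ⟨ρ, hρ⟩ := AUT.main a 0 u hu0 (by linear_combination (u ^ 2 - 1) * a * hu)
    (by ring)
  refine ⟨ρ, ⟨u ^ 3, by linear_combination (u ^ 4 - u ^ 2 + 1) * hu, fun x y h => ?_⟩,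
    (RNG.main (EPt a 0)).1 ρ 0 (by norm_num) ?_⟩
  · obtain ⟨h', e⟩ := hρ x y h
    have e1 : u ^ 2 * x = -x := by linear_combination x * hu
    rw [← e1]
    exact ⟨h', e⟩
  · rw [zero_smul, zero_sub]
    ext P
    show ρ (ρ P) = -P
    rcases P with _ | ⟨x, y, h⟩
    · have h0 : ρ (WeierstrassCurve.Affine.Point.zero : EPt a 0) = 0 := map_zero ρ
      rw [h0, map_zero]
      rfl
    · obtain ⟨h1, e1⟩ := hρ x y h
      obtain ⟨h2, e2⟩ := hρ _ _ h1
      rw [e1, e2, WeierstrassCurve.Affine.Point.neg_some]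
      simp only [WeierstrassCurve.Affine.Point.some.injEq]
      refine ⟨by linear_combination (u ^ 2 - 1) * x * hu, ?_⟩
      simp only [WeierstrassCurve.Affine.negY, curve]
      linear_combination (u ^ 4 - u ^ 2 + 1) * y * hu

/-- the Eisenstein integers -/
theorem isEndRing_eisenstein (b : Qb) (hb : b ≠ 0) :
    ∃ ρ : AddMonoid.End (EPt 0 b), (∃ ω : Qb, ω ^ 2 + ω + 1 = 0 ∧
      ∀ x y h, ∃ h', ρ (.some x y h) = .some (ω * x) y h') ∧ IsEndRing (Subring.closure {ρ}) := by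
  obtain ⟨s, hs⟩ := IsAlgClosed.exists_pow_nat_eq (-3 : Qb) (n := 2) two_pos
  obtain ⟨ω, hω⟩ : ∃ ω : Qb, ω ^ 2 + ω + 1 = 0 := by
    refine ⟨(s - 1) / 2, ?_⟩
    field_simp
    linear_combination hs
  have h3 : ω ^ 3 = 1 := by linear_combination (ω - 1) * hω
  have hω0 : ω ≠ 0 := by
    rintro rfl
    norm_num at h3
  obtain ⟨ρ, hρ⟩ := AUT.main 0 b (ω ^ 2) (pow_ne_zero _ hω0) (by ring)
    (by linear_combination (ω ^ 9 + ω ^ 6 + ω ^ 3 + 1) * b * h3)
  have hρ' : ∀ x y h, ∃ h', ρ (.some x y h) = .some (ω * x) y h' := by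
    intro x y h
    obtain ⟨h', e⟩ := hρ x y h
    have e1 : (ω ^ 2) ^ 2 * x = ω * x := by linear_combination ω * x * h3
    have e2 : (ω ^ 2) ^ 3 * y = y := by linear_combination (ω ^ 3 + 1) * y * h3
    have key : ∀ x' y' (h' : (curve 0 b).toAffine.Nonsingular x' y'), x' = ω * x → y' = y →
        ∃ h'', (WeierstrassCurve.Affine.Point.some x' y' h' : EPt 0 b) = .some (ω * x) y h'' := by
      intro x' y' h9 hx hy
      subst hx
      subst hy
      exact ⟨h9, rfl⟩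
    rw [e]
    exact key _ _ h' e1 e2
  have h4 := OMR.main b ω hb hω ρ hρ'
  refine ⟨ρ, ⟨ω, hω, hρ'⟩, (RNG.main (EPt 0 b)).1 ρ (-1) (by norm_num) ?_⟩
  rw [neg_smul, one_smul]
  have h5 : ρ * ρ = -(ρ + 1) := by
    rw [eq_neg_iff_add_eq_zero, ← add_assoc]
    exact h4
  rw [h5]
  abel

end Pool.Agent.Helper62.RE
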