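import Pool.Agent.Helper62.RE.Mods4

set_option autoImplicit false

/-!
# The degree of points `R j` with `2 ^ k R j = S j` over a field and a number field
-/

namespace Pool.Agent.Helper62.RE.DEG2

open IntermediateField

/-- A number field `K₁` inside `ℚ̄` generates over `L` a field of degree at most `[K₁ : ℚ]`. -/
theorem deg_adjoin (K₁ L : IntermediateField ℚ Qb) (h : FiniteDimensional ℚ K₁) :
    FiniteDimensional L (adjoin L (K₁ : Set Qb)) ∧
      Module.finrank L (adjoin L (K₁ : Set Qb)) ≤ Module.finrank ℚ K₁ := by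
  obtain ⟨α, hK⟩ : ∃ α : K₁, K₁ = adjoin ℚ {(α : Qb)} := by
    obtain ⟨α, hα⟩ := @Field.exists_primitive_element ℚ K₁ _ _ K₁.algebra' h
      (@Algebra.IsAlgebraic.isSeparable_of_perfectField ℚ K₁ _ _ K₁.algebra'
        (@Algebra.IsAlgebraic.of_finite ℚ K₁ _ _ _ K₁.algebra' h) _)
    refine ⟨α, ?_⟩
    have h1 := congrArg (fun M => @IntermediateField.lift ℚ Qb _ _ _ K₁ M) hα
    simp only [lift_top, lift_adjoin_simple] at h1
    exact h1.symm
  have hint : IsIntegral ℚ (α : Qb) :=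
    ((AlgebraicClosure.isAlgebraic ℚ).isAlgebraic (α : Qb)).isIntegral
  have hintL : IsIntegral L (α : Qb) := hint.tower_top
  have heq : adjoin L (K₁ : Set Qb) = adjoin L {(α : Qb)} := by
    apply le_antisymm
    · rw [adjoin_le_iff]
      have h2 : K₁ ≤ (adjoin L {(α : Qb)}).restrictScalars ℚ := by
        refine hK.le.trans ?_
        rw [adjoin_simple_le_iff]
        exact mem_adjoin_simple_self L (α : Qb)
      exact h2
    · rw [adjoin_simple_le_iff]
      exact subset_adjoin L _ α.2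
  have hf : Module.finrank ℚ K₁ = (minpoly ℚ (α : Qb)).natDegree := by
    rw [← adjoin.finrank hint, ← hK]
  rw [heq, hf, adjoin.finrank hintL]
  refine ⟨adjoin.finiteDimensional hintL, ?_⟩
  have hdvd : minpoly L (α : Qb) ∣ (minpoly ℚ (α : Qb)).map (algebraMap ℚ L) :=
    minpoly.dvd_map_of_isScalarTower ℚ L (α : Qb)
  have hne : (minpoly ℚ (α : Qb)).map (algebraMap ℚ L) ≠ 0 :=
    Polynomial.map_ne_zero (minpoly.ne_zero hint)
  calc (minpoly L (α : Qb)).natDegree
      ≤ ((minpoly ℚ (α : Qb)).map (algebraMap ℚ L)).natDegree :=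
        Polynomial.natDegree_le_of_dvd hdvd hne
    _ = (minpoly ℚ (α : Qb)).natDegree := Polynomial.natDegree_map _

/-- DEG2 from DEG. -/
theorem main : S_DEG → S_DEG2 := by
  intro hDEG a b hab K₁ hK₁ r S
  obtain ⟨C, hC⟩ := hDEG a b hab r S
  refine ⟨C * Module.finrank ℚ K₁, fun L ha hb k R hR => ?_⟩
  obtain ⟨hfin, hle⟩ := hC L ha hb k R hR
  obtain ⟨hfin1, hle1⟩ := deg_adjoin K₁ L hK₁
  have hU : adjoin L ((K₁ : Set Qb) ∪ ⋃ j, coords (R j)) =
      adjoin L (K₁ : Set Qb) ⊔ adjoin L (⋃ j, coords (R j)) := adjoin_union _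
  rw [hU]
  refine ⟨IntermediateField.finiteDimensional_sup _ _, ?_⟩
  calc Module.finrank L ↥(adjoin L (K₁ : Set Qb) ⊔ adjoin L (⋃ j, coords (R j)))
      ≤ Module.finrank L (adjoin L (K₁ : Set Qb)) *
          Module.finrank L (adjoin L (⋃ j, coords (R j))) := finrank_sup_le _ _
    _ ≤ Module.finrank ℚ K₁ * (C * 4 ^ (k * r)) := Nat.mul_le_mul hle1 hle
    _ = C * Module.finrank ℚ K₁ * 4 ^ (k * r) := by ring

end Pool.Agent.Helper62.RE.DEG2
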