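import Mathlib
import Pool.Agent.Helper62.RE.Base

/-!
# RE, module INF: `E(ℚ̄)` has infinite rank (helper52)

Let `K` be the number field generated by `a`, `b` and the coordinates of the points of `F`, `v` a prime of `K`
over `2`, and `x ∈ K` an element with large odd `v`-adic absolute value. Then `f x` is not a square in `K`, the
point `R = (x, √(f x))` has infinite order, as the first coordinates of the points `2 ^ k R` have increasing
`v`-adic absolute values, and an automorphism over `K` maps `R` to `- R`.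
-/

set_option autoImplicit false

namespace Pool.Agent.Helper62.RE.INF

open scoped Classical
open WeierstrassCurve WeierstrassCurve.Affine IsDedekindDomain

/-- the Galois action on the points -/
theorem galAct (K : IntermediateField ℚ Qb) (a b : K) (σ : Qb ≃ₐ[K] Qb) :
    ∃ Φ : EPt (a : Qb) (b : Qb) →+ EPt (a : Qb) (b : Qb), ∀ (x y : Qb)
      (h : (curve (a : Qb) (b : Qb)).toAffine.Nonsingular x y),
      ∃ h' : (curve (a : Qb) (b : Qb)).toAffine.Nonsingular (σ x) (σ y),
        Φ (.some x y h) = .some (σ x) (σ y) h' := by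
  have hW : (curve a b).map (algebraMap K Qb) = curve (a : Qb) (b : Qb) := by
    ext <;> simp [curve]
  have key : ∀ W : WeierstrassCurve Qb, (curve a b).map (algebraMap K Qb) = W →
      ∃ Φ : W.toAffine.Point →+ W.toAffine.Point, ∀ (x y : Qb) (h : W.toAffine.Nonsingular x y),
      ∃ h' : W.toAffine.Nonsingular (σ x) (σ y), Φ (.some x y h) = .some (σ x) (σ y) h' := by
    rintro _ rfl
    refine ⟨Point.map (W' := (curve a b).toAffine) (S := K) σ.toAlgHom, fun x y h => ?_⟩
    exact ⟨((curve a b).toAffine.baseChange_nonsingular σ.toAlgHom.injective ..).mpr h, rfl⟩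
  exact key _ hW

/-- the first coordinate of the double -/
theorem double (a b x y : Qb) (h : (curve a b).toAffine.Nonsingular x y) (hy : y ≠ 0) :
    ∃ (x' y' : Qb) (h' : (curve a b).toAffine.Nonsingular x' y'),
      (2 • (.some x y h : EPt a b)) = .some x' y' h' ∧
      x' * (4 * (x ^ 3 + a * x + b)) = x ^ 4 - 2 * a * x ^ 2 - 8 * b * x + a ^ 2 := by
  have hE : y ^ 2 = x ^ 3 + a * x + b := by
    have := (curve a b).toAffine.equation_iff x y |>.1 h.1
    simp only [curve] at this
    linear_combination this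
  have hneg : y ≠ (curve a b).toAffine.negY x y := by
    simp only [negY, curve]
    intro h1
    apply hy
    have h2 : (2 : Qb) * y = 0 := by linear_combination h1
    rcases mul_eq_zero.1 h2 with h3 | h3
    · exact absurd h3 (by norm_num)
    · exact h3
  rw [two_nsmul]
  refine ⟨_, _, _, Point.add_self_of_Y_ne hneg, ?_⟩
  rw [slope_of_Y_ne rfl hneg]
  simp only [addX, negY, curve]
  have h4 : (y - (-y - 0 * x - 0)) = 2 * y := by ring
  rw [h4, ← hE]
  field_simp
  linear_combination (x * (- 32)) * hE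

section val

variable {K : Type} [Field K] {Γ : Type} [LinearOrderedCommGroupWithZero Γ] (w : Valuation K Γ)

theorem val_f {a b x : K} (h1 : 1 < w x) (ha : w a < w x) (hb : w b < w x) :
    w (x ^ 3 + a * x + b) = w x ^ 3 := by
  have hx0 : 0 < w x := lt_trans zero_lt_one h1
  have h2 : w x < w x ^ 2 := by
    rw [pow_two]
    exact lt_mul_of_one_lt_left hx0 h1
  have h3 : w x ^ 2 < w x ^ 3 := by
    rw [pow_succ' (w x) 2]
    exact lt_mul_of_one_lt_left (pow_pos hx0 2) h1
  have h4 : w (a * x) < w (x ^ 3) := by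
    rw [map_mul, map_pow]
    refine lt_trans ?_ h3
    rw [pow_two]
    exact mul_lt_mul_of_pos_right ha hx0
  rw [Valuation.map_add_eq_of_lt_left, Valuation.map_add_eq_of_lt_left w h4, map_pow]
  rw [Valuation.map_add_eq_of_lt_left w h4, map_pow]
  exact hb.trans (h2.trans h3)

theorem val_n {a b x : K} (h2' : w 2 ≤ 1) (h1 : 1 < w x) (ha : w a < w x) (hb : w b < w x) :
    w (x ^ 4 - 2 * a * x ^ 2 - 8 * b * x + a ^ 2) = w x ^ 4 := by
  have hx0 : 0 < w x := lt_trans zero_lt_one h1
  have h2 : w x < w x ^ 2 := by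
    rw [pow_two]
    exact lt_mul_of_one_lt_left hx0 h1
  have h3 : w x ^ 2 < w x ^ 3 := by
    rw [pow_succ' (w x) 2]
    exact lt_mul_of_one_lt_left (pow_pos hx0 2) h1
  have h4 : w x ^ 3 < w x ^ 4 := by
    rw [pow_succ' (w x) 3]
    exact lt_mul_of_one_lt_left (pow_pos hx0 3) h1
  have h8 : w (8 : K) ≤ 1 := by
    have : (8 : K) = 2 ^ 3 := by norm_num
    rw [this, map_pow]
    exact pow_le_one₀ zero_le h2'
  have e1 : w (2 * a * x ^ 2) < w (x ^ 4) := by
    rw [map_mul, map_mul, map_pow, map_pow]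
    refine lt_trans ?_ h4
    calc w 2 * w a * w x ^ 2 ≤ 1 * w a * w x ^ 2 := by gcongr
      _ = w a * w x ^ 2 := by rw [one_mul]
      _ < w x * w x ^ 2 := mul_lt_mul_of_pos_right ha (pow_pos hx0 2)
      _ = w x ^ 3 := by rw [pow_succ' (w x) 2]
  have e2 : w (8 * b * x) < w (x ^ 4) := by
    rw [map_mul, map_mul, map_pow]
    refine lt_trans ?_ (h3.trans h4)
    calc w 8 * w b * w x ≤ 1 * w b * w x := by gcongr
      _ = w b * w x := by rw [one_mul]
      _ < w x * w x := mul_lt_mul_of_pos_right hb hx0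
      _ = w x ^ 2 := by rw [pow_two]
  have e3 : w (a ^ 2) < w (x ^ 4) := by
    rw [map_pow, map_pow]
    refine lt_of_le_of_lt ?_ (h3.trans h4)
    exact pow_le_pow_left₀ zero_le ha.le 2
  have e4 : w (x ^ 4 - 2 * a * x ^ 2) = w (x ^ 4) := Valuation.map_sub_eq_of_lt_left w e1
  have e5 : w (x ^ 4 - 2 * a * x ^ 2 - 8 * b * x) = w (x ^ 4) := by
    rw [Valuation.map_sub_eq_of_lt_left w (by rw [e4]; exact e2), e4]
  rw [Valuation.map_add_eq_of_lt_left w (by rw [e5]; exact e3), e5, map_pow]

/-- the value of the first coordinate of the double increases -/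
theorem val_double {a b x x' : K} (h2 : w 2 < 1) (h1 : 1 < w x) (ha : w a < w x) (hb : w b < w x)
    (h : x' * (4 * (x ^ 3 + a * x + b)) = x ^ 4 - 2 * a * x ^ 2 - 8 * b * x + a ^ 2) :
    w x < w x' := by
  have hx0 : 0 < w x := lt_trans zero_lt_one h1
  have h3 := congrArg w h
  rw [val_n w h2.le h1 ha hb, map_mul, map_mul, val_f w h1 ha hb] at h3
  have h4 : w x' * w 4 = w x := by
    have h5 : (w x' * w 4) * w x ^ 3 = w x * w x ^ 3 := by
      rw [mul_assoc, h3, pow_succ' (w x) 3]
    exact mul_right_cancel₀ (pow_pos hx0 3).ne' h5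
  have h6 : w (4 : K) < 1 := by
    have : (4 : K) = 2 ^ 2 := by norm_num
    rw [this, map_pow]
    exact pow_lt_one₀ zero_le h2 (by norm_num)
  by_contra hcon
  push Not at hcon
  have h7 : w x' * w 4 < w x := by
    by_cases h0 : w x' = 0
    · rw [h0, zero_mul]; exact hx0
    · calc w x' * w 4 < w x' * 1 := mul_lt_mul_of_pos_left h6 (zero_lt_iff.2 h0)
        _ = w x' := mul_one _
        _ ≤ w x := hcon
  exact absurd h4 h7.ne

end val

/-- a place over `2` -/
theorem exists_place (K : Type) [Field K] [NumberField K] :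
    ∃ v : HeightOneSpectrum (NumberField.RingOfIntegers K), v.valuation K 2 < 1 := by
  have hp : (Ideal.span {(2 : ℤ)}).IsPrime :=
    (Ideal.span_singleton_prime (by norm_num)).2 (by exact Int.prime_two)
  obtain ⟨⟨P, hP, hP2⟩⟩ := Ideal.nonempty_primesOver (S := NumberField.RingOfIntegers K)
    (Ideal.span {(2 : ℤ)})
  have h2 : (2 : NumberField.RingOfIntegers K) ∈ P := by
    have h3 : (2 : ℤ) ∈ P.under ℤ := by
      rw [← hP2.over]
      exact Ideal.mem_span_singleton_self _
    rw [Ideal.mem_comap] at h3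
    simpa using h3
  have hne : P ≠ ⊥ := by
    rintro rfl
    rw [Ideal.mem_bot] at h2
    exact absurd h2 (by norm_num)
  refine ⟨⟨P, hP, hne⟩, ?_⟩
  have h4 := (HeightOneSpectrum.valuation_lt_one_iff_mem (K := K) (⟨P, hP, hne⟩ :
    HeightOneSpectrum (NumberField.RingOfIntegers K)) 2).2 h2
  have h5 : (algebraMap (NumberField.RingOfIntegers K) K) 2 = 2 := map_ofNat _ 2
  rw [← h5]
  exact h4

/-- the algebraic numbers are algebraic -/
theorem algQ : Algebra.IsAlgebraic ℚ Qb := by
  have h := AlgebraicClosure.isAlgebraic ℚ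
  have e : (DivisionRing.toRatAlgebra : Algebra ℚ Qb) = AlgebraicClosure.instAlgebra ℚ :=
    Subsingleton.elim _ _
  rw [e]
  exact h

open WithZero in
theorem exists_large (g : WithZero (Multiplicative ℤ)) :
    ∃ n : ℕ, ∀ m : ℕ, n ≤ m → g < exp (2 * (m : ℤ) + 1) := by
  by_cases h0 : g = 0
  · exact ⟨0, fun m _ => by rw [h0]; exact exp_pos⟩
  · refine ⟨(log g).natAbs, fun m hm => ?_⟩
    have h1 : g = exp (log g) := (exp_log h0).symm
    rw [h1, exp_lt_exp]
    omega

/-- the value of the first coordinate of a point -/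
noncomputable def xv {a b : Qb} (K : IntermediateField ℚ Qb) {Γ : Type}
    [LinearOrderedCommGroupWithZero Γ] (w : Valuation K Γ) : EPt a b → Γ
  | .zero => 0
  | .some x _ _ => if h : x ∈ K then w ⟨x, h⟩ else 0

theorem xv_double (K : IntermediateField ℚ Qb) {Γ : Type} [LinearOrderedCommGroupWithZero Γ]
    (w : Valuation K Γ) (h2 : w 2 < 1) (a b : K) (P : EPt (a : Qb) (b : Qb)) (h1 : 1 < xv K w P)
    (ha : w a < xv K w P) (hb : w b < xv K w P) : xv K w P < xv K w (2 • P) := by
  cases P with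
  | zero =>
    simp only [xv] at h1
    exact absurd h1 (not_lt.2 zero_le_one)
  | some x y h =>
    by_cases hx : x ∈ K
    · have e1 : xv K w (Point.some x y h : EPt (a : Qb) (b : Qb)) = w ⟨x, hx⟩ := by
        simp only [xv, dif_pos hx]
      rw [e1] at h1 ha hb ⊢
      have hf := val_f w h1 ha hb
      have hx0 : 0 < w ⟨x, hx⟩ := lt_trans zero_lt_one h1
      have hf0 : (⟨x, hx⟩ : K) ^ 3 + a * ⟨x, hx⟩ + b ≠ 0 := by
        intro h0
        rw [h0, map_zero] at hf
        exact (pow_pos hx0 3).ne hf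
      have hf0' : x ^ 3 + (a : Qb) * x + b ≠ 0 := by
        intro h0
        apply hf0
        apply Subtype.ext
        push_cast
        exact h0
      have hy : y ≠ 0 := by
        rintro rfl
        apply hf0'
        have := (curve (a : Qb) (b : Qb)).toAffine.equation_iff x 0 |>.1 h.1
        simp only [curve] at this
        linear_combination - this
      obtain ⟨x', y', h', hd, hx'⟩ := double a b x y h hy
      rw [hd]
      have h4 : (4 : Qb) * (x ^ 3 + (a : Qb) * x + b) ≠ 0 := mul_ne_zero (by norm_num) hf0'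
      have hxe : x' = (((⟨x, hx⟩ : K) ^ 4 - 2 * a * ⟨x, hx⟩ ^ 2 - 8 * b * ⟨x, hx⟩ + a ^ 2) /
          (4 * (⟨x, hx⟩ ^ 3 + a * ⟨x, hx⟩ + b)) : K) := by
        have c2 : ((2 : K) : Qb) = 2 := rfl
        have c4 : ((4 : K) : Qb) = 4 := rfl
        have c8 : ((8 : K) : Qb) = 8 := rfl
        push_cast [c2, c4, c8]
        rw [eq_div_iff h4]
        exact hx'
      have hx'K : x' ∈ K := by
        rw [hxe]
        exact SetLike.coe_mem _
      have e2 : xv K w (Point.some x' y' h' : EPt (a : Qb) (b : Qb)) = w ⟨x', hx'K⟩ := by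
        simp only [xv, dif_pos hx'K]
      rw [e2]
      refine val_double w h2 h1 ha hb ?_
      apply Subtype.ext
      push_cast
      exact hx'
    · simp only [xv, dif_neg hx] at h1
      exact absurd h1 (not_lt.2 zero_le_one)

/-- points with large value have infinite order -/
theorem nontorsion (K : IntermediateField ℚ Qb) {Γ : Type} [LinearOrderedCommGroupWithZero Γ]
    (w : Valuation K Γ) (h2 : w 2 < 1) (a b : K) (P : EPt (a : Qb) (b : Qb)) (h1 : 1 < xv K w P)
    (ha : w a < xv K w P) (hb : w b < xv K w P) (m : ℕ) (hm : 0 < m) : m • P ≠ 0 := by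
  intro h0
  have hk : ∀ k : ℕ, 1 < xv K w ((2 ^ k) • P) ∧ w a < xv K w ((2 ^ k) • P) ∧
      w b < xv K w ((2 ^ k) • P) ∧ xv K w ((2 ^ k) • P) < xv K w ((2 ^ (k + 1)) • P) := by
    intro k
    induction k with
    | zero =>
      rw [pow_zero, one_smul, zero_add, pow_one]
      exact ⟨h1, ha, hb, xv_double K w h2 a b P h1 ha hb⟩
    | succ k ih =>
      obtain ⟨i1, i2, i3, i4⟩ := ih
      refine ⟨i1.trans i4, i2.trans i4, i3.trans i4, ?_⟩
      have h5 := xv_double K w h2 a b ((2 ^ (k + 1)) • P) (i1.trans i4) (i2.trans i4) (i3.trans i4)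
      rw [← mul_smul, ← pow_succ'] at h5
      exact h5
  have hmono : StrictMono fun k : ℕ => xv K w ((2 ^ k) • P) :=
    strictMono_nat_of_lt_succ fun k => (hk k).2.2.2
  have hfin : IsOfFinAddOrder P := isOfFinAddOrder_iff_nsmul_eq_zero.2 ⟨m, hm, h0⟩
  have hfin2 : (AddSubmonoid.multiples P : Set (EPt (a : Qb) (b : Qb))).Finite :=
    finite_multiples.2 hfin
  have hinj : Function.Injective fun k : ℕ => (2 ^ k) • P := by
    intro i j hij
    exact hmono.injective (congrArg (xv K w) hij)
  exact (Set.infinite_of_injective_forall_mem hinj fun k =>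
    (AddSubmonoid.mem_multiples_iff _ _).2 ⟨2 ^ k, rfl⟩) hfin2

open WithZero in
theorem main : S_INF := by
  intro a b _ F hF
  have halg := algQ
  -- the number field
  set S : Set Qb := {a, b} ∪ ⋃ P ∈ F, coords P with hS
  have hcf : ∀ P : EPt a b, (coords P).Finite := by
    intro P
    cases P with
    | zero => exact Set.finite_empty
    | some x y h => exact (Set.finite_singleton y).insert x
  have hSf : S.Finite :=
    ((Set.finite_singleton b).insert a).union (hF.biUnion fun P _ => hcf P)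
  have : Finite S := hSf
  set K : IntermediateField ℚ Qb := IntermediateField.adjoin ℚ S with hK
  have hSK : S ⊆ K := IntermediateField.subset_adjoin ℚ S
  have : FiniteDimensional ℚ K :=
    IntermediateField.finiteDimensional_adjoin fun x _ => (Algebra.IsAlgebraic.isAlgebraic x).isIntegral
  have : NumberField K := ⟨⟩
  have haK : a ∈ K := hSK (Or.inl (Or.inl rfl))
  have hbK : b ∈ K := hSK (Or.inl (Or.inr rfl))
  obtain ⟨v, hv⟩ := exists_place K
  obtain ⟨π, hπ⟩ := v.valuation_exists_uniformizer K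
  set w := v.valuation K with hw
  obtain ⟨n₁, hn₁⟩ := exists_large (w ⟨a, haK⟩)
  obtain ⟨n₂, hn₂⟩ := exists_large (w ⟨b, hbK⟩)
  set n := max n₁ n₂ with hn
  set x : K := π⁻¹ ^ (2 * n + 1) with hx
  have hwx : w x = exp (2 * (n : ℤ) + 1) := by
    rw [hx, map_pow, map_inv₀, hπ, ← exp_neg, neg_neg, ← exp_nsmul]
    congr 1
    simp
  have h1 : 1 < w x := by
    rw [hwx, ← exp_zero, exp_lt_exp]
    omega
  have ha : w ⟨a, haK⟩ < w x := by
    rw [hwx]; exact hn₁ n (le_max_left _ _)
  have hb : w ⟨b, hbK⟩ < w x := by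
    rw [hwx]; exact hn₂ n (le_max_right _ _)
  have hf := val_f w h1 ha hb
  have hx0 : 0 < w x := lt_trans zero_lt_one h1
  -- the second coordinate
  obtain ⟨y, hy⟩ := IsAlgClosed.exists_pow_nat_eq ((x : Qb) ^ 3 + a * x + b) (n := 2) (by norm_num)
  have hyK : y ∉ K := by
    intro hyK
    have h2 : (⟨y, hyK⟩ : K) ^ 2 = x ^ 3 + ⟨a, haK⟩ * x + ⟨b, hbK⟩ := Subtype.ext hy
    have h3 := congrArg w h2
    rw [map_pow, hf, hwx] at h3
    have h4 : w ⟨y, hyK⟩ ≠ 0 := by
      intro h0
      rw [h0, zero_pow (by norm_num)] at h3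
      exact (pow_pos exp_pos 3).ne h3
    have h5 : w ⟨y, hyK⟩ = exp (log (w ⟨y, hyK⟩)) := (exp_log h4).symm
    rw [h5, ← exp_nsmul, ← exp_nsmul, exp_inj] at h3
    simp only [nsmul_eq_mul] at h3
    push_cast at h3
    omega
  have hy0 : y ≠ 0 := by
    rintro rfl
    exact hyK K.zero_mem
  have hNS : (curve a b).toAffine.Nonsingular (x : Qb) y := by
    rw [nonsingular_iff']
    refine ⟨?_, Or.inr ?_⟩
    · rw [equation_iff]
      simp only [curve]
      linear_combination hy
    · simp only [curve]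
      intro h2
      apply hy0
      have h3 : (2 : Qb) * y = 0 := by linear_combination h2
      rcases mul_eq_zero.1 h3 with h4 | h4
      · exact absurd h4 (by norm_num)
      · exact h4
  -- the automorphism
  have : Algebra.IsAlgebraic K Qb := inferInstance
  have : IsAlgClosure K Qb := ⟨inferInstance, inferInstance⟩
  have : IsGalois K Qb := IsAlgClosure.isGalois K Qb
  obtain ⟨σ, hσ⟩ : ∃ σ : Qb ≃ₐ[K] Qb, σ y ≠ y := by
    by_contra hcon
    push Not at hcon
    have h2 := (InfiniteGalois.mem_bot_iff_fixed (k := K) y).2 hcon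
    rw [IntermediateField.mem_bot] at h2
    obtain ⟨z, hz⟩ := h2
    apply hyK
    rw [← hz]
    exact z.2
  have hσK : ∀ z : Qb, z ∈ K → σ z = z := fun z hz => σ.commutes ⟨z, hz⟩
  have hσy : σ y = - y := by
    have h2 : (σ y) ^ 2 = y ^ 2 := by
      rw [← map_pow, hy, map_add, map_add, map_mul, map_pow, hσK _ haK, hσK _ hbK, hσK _ x.2]
    rcases sq_eq_sq_iff_eq_or_eq_neg.1 h2 with h3 | h3
    · exact absurd h3 hσ
    · exact h3
  obtain ⟨Φ, hΦ⟩ := galAct K ⟨a, haK⟩ ⟨b, hbK⟩ σ
  have hfix : ∀ P ∈ AddSubgroup.closure F, Φ P = P := by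
    intro P hP
    induction hP using AddSubgroup.closure_induction with
    | mem P hP =>
      cases P with
      | zero => exact map_zero Φ
      | some x' y' h' =>
        have hx' : x' ∈ K := hSK (Or.inr (Set.mem_biUnion hP (Or.inl rfl)))
        have hy' : y' ∈ K := hSK (Or.inr (Set.mem_biUnion hP (Or.inr rfl)))
        obtain ⟨h'', e⟩ := hΦ x' y' h'
        rw [e]
        simp only [hσK _ hx', hσK _ hy']
    | zero => exact map_zero Φ
    | add P Q _ _ hP hQ => rw [map_add, hP, hQ]
    | neg P _ hP => rw [map_neg, hP]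
  have hR : Φ (Point.some (x : Qb) y hNS : EPt a b) = - (Point.some (x : Qb) y hNS : EPt a b) := by
    obtain ⟨h'', e⟩ := hΦ (x : Qb) y hNS
    rw [e, Point.neg_some]
    simp only [hσK _ x.2, hσy, negY, curve]
    congr 1
    ring
  refine ⟨Point.some (x : Qb) y hNS, fun m hm hmem => ?_⟩
  have h2 := hfix _ hmem
  rw [map_nsmul, hR, neg_nsmul] at h2
  have h3 : (m + m) • (Point.some (x : Qb) y hNS : EPt a b) = 0 := by
    rw [add_nsmul]
    nth_rewrite 1 [← h2]
    exact neg_add_cancel _
  have e1 : xv K w (Point.some (x : Qb) y hNS : EPt a b) = w x := by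
    simp only [xv, dif_pos x.2]
  exact nontorsion K w hv ⟨a, haK⟩ ⟨b, hbK⟩ (Point.some (x : Qb) y hNS) (by rw [e1]; exact h1)
    (by rw [e1]; exact ha) (by rw [e1]; exact hb) (m + m) (by omega) h3

end Pool.Agent.Helper62.RE.INF
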