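import Pool.Agent.Helper62.RE.Base

set_option autoImplicit false

/-!
# Rémond's generalised Lehmer problem for powers of elliptic curves: geometry

`E` is the curve `y² = x³ + a x + b`, embedded in the projective plane; its power `E^n` is embedded in
the product of `n` projective planes. The line bundle is the restriction of `O(1, …, 1)`.
-/

namespace Pool.Agent.Helper62.RE

open scoped TensorProduct Classical

variable {a b : Qb} {n : ℕ}

/-- homogeneous coordinates of a point -/
noncomputable def homog : EPt a b → Fin 3 → Qb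
  | .zero => ![0, 1, 0]
  | .some x y _ => ![x, y, 1]

/-- `f` is multihomogeneous, of degree `d i` in the `i`-th three variables -/
def MultiHomog (f : MvPolynomial (Fin n × Fin 3) Qb) (d : Fin n → ℕ) : Prop :=
  ∀ i, MvPolynomial.IsWeightedHomogeneous (fun p : Fin n × Fin 3 => if p.1 = i then 1 else 0) f (d i)

/-- the value of a polynomial at the homogeneous coordinates of a point of `E^n` -/
noncomputable def value (f : MvPolynomial (Fin n × Fin 3) Qb) (P : Fin n → EPt a b) : Qb :=
  MvPolynomial.eval (fun p => homog (P p.1) p.2) f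

/-- Zariski closed subsets of `E^n`: the sets of common zeros of multihomogeneous polynomials -/
def IsZClosed (Z : Set (Fin n → EPt a b)) : Prop :=
  ∃ S : Set (MvPolynomial (Fin n × Fin 3) Qb), (∀ f ∈ S, ∃ d, MultiHomog f d) ∧
    Z = {P | ∀ f ∈ S, value f P = 0}

/-- Zariski closed subsets defined over `L`: the polynomials may be taken with coefficients in `L` -/
def IsClosedOver (L : IntermediateField ℚ Qb) (Z : Set (Fin n → EPt a b)) : Prop :=
  ∃ S : Set (MvPolynomial (Fin n × Fin 3) Qb), (∀ f ∈ S, ∃ d, MultiHomog f d) ∧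
    (∀ f ∈ S, ∀ u, f.coeff u ∈ L) ∧ Z = {P | ∀ f ∈ S, value f P = 0}

/-- subvarieties of `E^n`: the irreducible Zariski closed subsets -/
def IsSubvariety (V : Set (Fin n → EPt a b)) : Prop :=
  IsZClosed V ∧ V.Nonempty ∧
    ∀ A B : Set (Fin n → EPt a b), IsZClosed A → IsZClosed B → V ⊆ A ∪ B → V ⊆ A ∨ V ⊆ B

/-- the dimension of `Z` is `d`: the largest length of a chain of subvarieties inside `Z` -/
def HasDim (Z : Set (Fin n → EPt a b)) (d : ℕ) : Prop :=
  Order.krullDim {W : Set (Fin n → EPt a b) // IsSubvariety W ∧ W ⊆ Z} = (d : WithBot ℕ∞)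

/-- `Z` is equidimensional of dimension `d`: every irreducible component of `Z` (maximal subvariety
inside `Z`) has dimension `d` -/
def IsEquidim (Z : Set (Fin n → EPt a b)) (d : ℕ) : Prop :=
  ∀ W : Set (Fin n → EPt a b), IsSubvariety W → W ⊆ Z →
    (∀ W' : Set (Fin n → EPt a b), IsSubvariety W' → W' ⊆ Z → W ⊆ W' → W' = W) → HasDim W d

/-- the Hilbert function of `Z`: the dimension of the space of the restrictions to `Z` of the
multihomogeneous polynomials of degree `N` in each triple of variables -/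
noncomputable def hilb (Z : Set (Fin n → EPt a b)) (N : ℕ) : ℕ :=
  Set.finrank Qb {φ : Z → Qb | ∃ f : MvPolynomial (Fin n × Fin 3) Qb, MultiHomog f (fun _ => N) ∧
    ∀ z : Z, φ z = value f z.1}

/-- the degree, with respect to `O(1, …, 1)`, of a closed set `Z` equidimensional of dimension `d`:
the limit of `d! * (Hilbert function at N) / N ^ d` as `N` tends to infinity -/
noncomputable def degree (Z : Set (Fin n → EPt a b)) (d : ℕ) : ℝ :=
  Filter.limsup (fun N : ℕ => (d.factorial : ℝ) * (hilb Z N : ℝ) / (N : ℝ) ^ d) Filter.atTop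

/-- the obstruction index of `V` relative to the field `L` -/
noncomputable def obstruction (L : IntermediateField ℚ Qb) (V : Set (Fin n → EPt a b)) : ℝ :=
  sInf {w : ℝ | ∃ (Z : Set (Fin n → EPt a b)) (d : ℕ), Z ≠ Set.univ ∧ IsClosedOver L Z ∧
    IsEquidim Z d ∧ V ⊆ Z ∧ w = degree Z d ^ (1 / ((n : ℝ) - (d : ℝ)))}

/-- the canonical height on `E^n` attached to `O(1, …, 1)`, which is the exterior product of the line
bundles `O(3 O)` on the factors: three times the sum of the Néron-Tate heights of the coordinates -/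
noncomputable def hG (P : Fin n → EPt a b) : ℝ := 3 * ∑ i, ht (P i)

/-- the essential minimum of `V` -/
noncomputable def essMin (V : Set (Fin n → EPt a b)) : ℝ :=
  sInf {θ : ℝ | ∀ W : Set (Fin n → EPt a b), IsZClosed W → {x | x ∈ V ∧ hG x ≤ θ} ⊆ W → V ⊆ W}

/-- `K(Γ)`, the field generated over `K` by the coordinates of the points of `Γ` -/
noncomputable def coordField (K : IntermediateField ℚ Qb) (Γ : AddSubgroup (Fin n → EPt a b)) :
    IntermediateField ℚ Qb :=
  K ⊔ IntermediateField.adjoin ℚ {c | ∃ g ∈ Γ, ∃ i, c ∈ coords (g i)}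

/-- `V` is `Γ`-transverse: for no `w ≠ 0` in `O^n` is `V` contained in the translate by an element `γ`
of the saturation of `Γ` of the kernel of the homomorphism `x ↦ w_1 x_1 + … + w_n x_n` from `E^n` to
`E`. Here `O` is the endomorphism ring of `E`. (The proper abelian subvarieties of `E^n` are contained
in such kernels, and these kernels are finite unions of translates of proper abelian subvarieties by
torsion points.) -/
def IsTransverse (O : Subring (AddMonoid.End (EPt a b))) (Γ : AddSubgroup (Fin n → EPt a b))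
    (V : Set (Fin n → EPt a b)) : Prop :=
  ∀ w : Fin n → AddMonoid.End (EPt a b), (∀ i, w i ∈ O) → w ≠ 0 →
    ∀ γ : Fin n → EPt a b, (∃ m : ℕ, 0 < m ∧ m • γ ∈ Γ) →
      ¬ V ⊆ {x | ∑ i, w i (x i) = ∑ i, w i (γ i)}

/-- `Γ` is a Lehmer group (over the field `K`, for the endomorphism ring `O`) -/
def IsLehmerGroup (O : Subring (AddMonoid.End (EPt a b))) (K : IntermediateField ℚ Qb)
    (Γ : AddSubgroup (Fin n → EPt a b)) : Prop :=
  ∃ c : ℝ, 0 < c ∧ ∀ V : Set (Fin n → EPt a b), IsSubvariety V → V ≠ Set.univ →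
    IsTransverse O Γ V → c ≤ obstruction (coordField K Γ) V * essMin V

/-! ## Statements of the modules -/

/-- DSC: Galois descent for the nonvanishing of a polynomial. Proof: let `M` be a finite Galois extension
of `L` in `Qb` which contains the coefficients of `g`. For `α ∈ M` the polynomial
`f_α = ∑_{τ ∈ Gal(M/L)} τ(α) τ(g)` has coefficients in `L`, and by the independence of the characters
`τ` there is `α` with `f_α (q) = ∑ τ(α) τ(g)(q) ≠ 0`, as the coefficient `g(q)` of `τ = id` is not
`0`. -/
def S_DSC : Prop := ∀ (ι : Type) [Finite ι] (L : IntermediateField ℚ Qb) (g : MvPolynomial ι Qb)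
  (q : ι → Qb), MvPolynomial.eval q g ≠ 0 →
    ∃ (f : MvPolynomial ι Qb) (s : Finset (Qb ≃ₐ[L] Qb)) (c : (Qb ≃ₐ[L] Qb) → Qb),
      (∀ u, f.coeff u ∈ L) ∧ MvPolynomial.eval q f ≠ 0 ∧
      f = ∑ σ ∈ s, MvPolynomial.C (c σ) *
        MvPolynomial.map ((σ : Qb ≃+* Qb) : Qb →+* Qb) g

/-- ORB: the orbit of a point `P` of `E^n` over `L` is finite, of at most `[L(P) : L]` elements. (In
terms of homogeneous coordinates: `P'` is the conjugate of `P` by `σ` if `homog (P' i) j = σ (homog
(P i) j)` for all `i`, `j`.) -/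
def S_ORB : Prop := ∀ (a b : Qb) (n : ℕ) (L : IntermediateField ℚ Qb), a ∈ L → b ∈ L →
  ∀ P : Fin n → EPt a b, ∃ Z : Set (Fin n → EPt a b), Z.Finite ∧ P ∈ Z ∧
    (Z.ncard ≤ Module.finrank L (IntermediateField.adjoin L (⋃ i, coords (P i)))) ∧
    ∀ σ : Qb ≃ₐ[L] Qb, ∀ Q ∈ Z, ∃ Q' ∈ Z, ∀ i j, homog (Q' i) j = σ (homog (Q i) j)

end Pool.Agent.Helper62.RE
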