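import Pool.Agent.Helper62.RE.DEG
import Pool.Agent.Helper62.RE.EDefs

set_option autoImplicit false

/-!
# Rational points
-/

namespace Pool.Agent.Helper62.RE.Rat

open Pool.Agent.Helper62.RE IntermediateField
open scoped Classical

variable {a b : Qb}

/-- the points with coordinates in `F` -/
def pts (F : IntermediateField ℚ Qb) (a b : Qb) : Set (EPt a b) := {P | coords P ⊆ (F : Set Qb)}

lemma mem_of_fixed (F : IntermediateField ℚ Qb) (x : Qb) (h : ∀ σ : Qb ≃ₐ[F] Qb, σ x = x) :
    x ∈ F := by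
  have : IsAlgClosure ℚ Qb := ⟨inferInstance, AlgebraicClosure.isAlgebraic ℚ⟩
  have : Normal ℚ Qb := IsAlgClosure.normal ℚ Qb
  have : Algebra.IsAlgebraic ℚ Qb := AlgebraicClosure.isAlgebraic ℚ
  have : Normal F Qb := Normal.tower_top_of_normal ℚ F Qb
  have : Algebra.IsAlgebraic F Qb := Algebra.IsAlgebraic.tower_top (K := ℚ) (A := Qb) F
  have : IsGalois F Qb := {}
  have h1 : x ∈ (⊥ : IntermediateField F Qb) := (InfiniteGalois.mem_bot_iff_fixed x).2 h
  rw [IntermediateField.mem_bot] at h1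
  obtain ⟨y, rfl⟩ := h1
  exact y.2

lemma mem_pts_iff {F : IntermediateField ℚ Qb} (P : EPt a b)
    (φ : (Qb ≃ₐ[F] Qb) → EPt a b →+ EPt a b)
    (hφ : ∀ σ, ∀ x y h, ∃ h', φ σ (.some x y h) = .some (σ x) (σ y) h') :
    P ∈ pts F a b ↔ ∀ σ, φ σ P = P := by
  rcases P with _ | ⟨x, y, h⟩
  · constructor
    · intro _ σ
      exact map_zero (φ σ)
    · intro _ c hc
      simp [coords] at hc
  · constructor
    · intro hP σ
      obtain ⟨h', e⟩ := hφ σ x y h
      have hx : σ x = x := σ.commutes (⟨x, hP (by simp [coords])⟩ : F)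
      have hy : σ y = y := σ.commutes (⟨y, hP (by simp [coords])⟩ : F)
      rw [e]
      simp only [WeierstrassCurve.Affine.Point.some.injEq]
      exact ⟨hx, hy⟩
    · intro hP
      have h1 : ∀ σ : Qb ≃ₐ[F] Qb, σ x = x ∧ σ y = y := by
        intro σ
        obtain ⟨h', e⟩ := hφ σ x y h
        have := hP σ
        rw [e] at this
        simpa only [WeierstrassCurve.Affine.Point.some.injEq] using this
      intro c hc
      rcases hc with rfl | hc
      · exact mem_of_fixed F _ fun σ => (h1 σ).1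
      · rw [Set.mem_singleton_iff] at hc
        rw [hc]
        exact mem_of_fixed F _ fun σ => (h1 σ).2

/-- they form a group -/
lemma exists_group (F : IntermediateField ℚ Qb) (ha : a ∈ F) (hb : b ∈ F) :
    ∃ G : AddSubgroup (EPt a b), ∀ P, P ∈ G ↔ coords P ⊆ (F : Set Qb) := by
  choose φ hφ using fun σ : Qb ≃ₐ[F] Qb => DEG.act (a := a) (b := b) ha hb (σ : Qb →ₐ[F] Qb)
  have hm := fun P : EPt a b => mem_pts_iff P φ hφ
  refine ⟨{ carrier := pts F a b, add_mem' := ?_, zero_mem' := ?_, neg_mem' := ?_ },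
    fun P => Iff.rfl⟩
  · intro P Q hP hQ
    rw [hm] at hP hQ ⊢
    intro σ
    rw [map_add, hP σ, hQ σ]
  · rw [hm]
    intro σ
    exact map_zero _
  · intro P hP
    have hP' : P ∈ pts F a b := hP
    have : -P ∈ pts F a b := by
      rw [hm] at hP' ⊢
      intro σ
      rw [map_neg, hP' σ]
    exact this

end Pool.Agent.Helper62.RE.Rat
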