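import Pool.Agent.Helper62.RE.Mods4
import Pool.Agent.Helper62.RE.Rat
import Pool.Agent.Helper62.RE.INF
import Pool.Agent.Helper62.RE.RNG

set_option autoImplicit false

/-! Module DF (helper23): fields of definition and ranks. -/

namespace Pool.Agent.Helper62.RE.DF

open scoped TensorProduct Classical
open Pool.Agent.Helper62.RE

/-- the rank of a free module -/
lemma rk_of_basis {M : Type} [AddCommGroup M] {ι : Type} [Fintype ι] (b : Module.Basis ι ℤ M) :
    rk M = Fintype.card ι := by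
  have : Module.Free ℤ M := Module.Free.of_basis b
  unfold rk
  rw [Module.finrank_baseChange, Module.finrank_eq_card_basis b]

section generic

variable {M : Type} [AddCommGroup M]

lemma natCast_ne (R : M) (hR : ∀ m : ℕ, 0 < m → m • R ≠ 0) (N : ℤ) (hN : 0 < N) :
    (N : AddMonoid.End M) ≠ 0 := by
  intro h0
  have h1 := congrArg (fun f : AddMonoid.End M => f R) h0
  obtain ⟨m, rfl⟩ : ∃ m : ℕ, N = m := ⟨N.toNat, (Int.toNat_of_nonneg hN.le).symm⟩
  have hm : 0 < m := by exact_mod_cast hN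
  refine hR m hm ?_
  have h2 : ((m : ℤ) : AddMonoid.End M) R = m • R := by
    rw [AddMonoid.End.intCast_apply, natCast_zsmul]
  rw [← h2]
  exact h1

lemma rk_int (R : M) (hR : ∀ m : ℕ, 0 < m → m • R ≠ 0) : rk (Int.castRingHom (AddMonoid.End M)).range = 1 := by
  obtain ⟨e, he⟩ : ∃ e : ℤ →+* AddMonoid.End M, e = Int.castRingHom (AddMonoid.End M) := ⟨_, rfl⟩
  have hinj : Function.Injective e := by
    rw [injective_iff_map_eq_zero]
    intro n hn
    rw [he, eq_intCast] at hn
    by_contra hn0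
    rcases lt_or_gt_of_ne hn0 with h1 | h1
    · apply natCast_ne R hR (-n) (by omega)
      rw [Int.cast_neg, hn, neg_zero]
    · exact natCast_ne R hR n h1 hn
  rw [← he]
  have e1 : ℤ ≃+ e.range := (RingEquiv.ofBijective e.rangeRestrict
    ⟨fun x y hxy => hinj (congrArg Subtype.val hxy), e.rangeRestrict_surjective⟩).toAddEquiv
  have b1 : Module.Basis Unit ℤ e.range := (Module.Basis.singleton Unit ℤ).map e1.toIntLinearEquiv
  rw [rk_of_basis b1]
  rfl

lemma rk_two (R : M) (hR : ∀ m : ℕ, 0 < m → m • R ≠ 0) (ρ : AddMonoid.End M) (t : ℤ) (ht : t ^ 2 < 4)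
    (hρ : ρ * ρ = t • ρ - 1) : rk (Subring.closure {ρ}) = 2 := by
  have hρ' : ρ * ρ = (t : AddMonoid.End M) * ρ - 1 := by
    rw [hρ, zsmul_eq_mul]
  obtain ⟨S, hS⟩ : ∃ S : Subring (AddMonoid.End M), S = Subring.closure {ρ} := ⟨_, rfl⟩
  rw [← hS]
  have hρS : ρ ∈ S := by
    rw [hS]
    exact Subring.subset_closure rfl
  let v : Fin 2 → S := ![1, ⟨ρ, hρS⟩]
  have hli : LinearIndependent ℤ v := by
    rw [Fintype.linearIndependent_iff]
    intro g hg
    have e1 : ((g 0 : ℤ) : AddMonoid.End M) + (g 1 : ℤ) * ρ = 0 := by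
      have := congrArg Subtype.val hg
      rw [Fin.sum_univ_two] at this
      simpa [v, zsmul_eq_mul] using this
    by_contra hcon
    have hne : ¬ (g 0 = 0 ∧ g 1 = 0) := by
      intro hh
      apply hcon
      intro i
      fin_cases i
      · exact hh.1
      · exact hh.2
    have hpos := RNG.pos_norm (g 0) (g 1) t ht hne
    apply natCast_ne R hR _ hpos
    have e2 := RNG.mul_form ρ t hρ' (g 0) (g 1) (g 0 + g 1 * t) (-(g 1))
    rw [e1, zero_mul, show g 0 * (g 0 + g 1 * t) - g 1 * -g 1 = (g 0) ^ 2 + g 0 * g 1 * t + (g 1) ^ 2 by ring,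
      show g 0 * -g 1 + g 1 * (g 0 + g 1 * t) + g 1 * -g 1 * t = 0 by ring, Int.cast_zero, zero_mul, add_zero] at e2
    exact e2.symm
  have hspan : ⊤ ≤ Submodule.span ℤ (Set.range v) := by
    rintro ⟨x, hx⟩ _
    have hx' : x ∈ Subring.closure {ρ} := by rw [← hS]; exact hx
    obtain ⟨m, n, hmn⟩ := RNG.form_of_mem ρ t hρ' x hx'
    have : (⟨x, hx⟩ : S) = m • v 0 + n • v 1 := by
      apply Subtype.ext
      simp [v, zsmul_eq_mul, hmn]
    rw [this]
    exact Submodule.add_mem _ (Submodule.smul_mem _ _ (Submodule.subset_span ⟨0, rfl⟩))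
      (Submodule.smul_mem _ _ (Submodule.subset_span ⟨1, rfl⟩))
  rw [rk_of_basis (Module.Basis.mk hli hspan)]
  rfl

lemma int_apply (n : ℤ) (P : M) : (Int.castRingHom (AddMonoid.End M)) n P = n • P := by
  rw [eq_intCast, AddMonoid.End.intCast_apply]

lemma closure_stable (ρ : AddMonoid.End M) (G : AddSubgroup M) (h : ∀ P ∈ G, ρ P ∈ G) (x : AddMonoid.End M)
    (hx : x ∈ Subring.closure {ρ}) : ∀ P ∈ G, x P ∈ G := by
  refine Subring.closure_induction (p := fun x _ => ∀ P : M, P ∈ G → x P ∈ G) ?_ ?_ ?_ ?_ ?_ ?_ hx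
  · intro y hy P hP
    rw [Set.mem_singleton_iff] at hy
    subst hy
    exact h P hP
  · intro P _
    exact zero_mem _
  · intro P hP
    exact hP
  · intro y z _ _ hy hz P hP
    exact add_mem (hy P hP) (hz P hP)
  · intro y _ hy P hP
    exact neg_mem (hy P hP)
  · intro y z _ _ hy hz P hP
    exact hy _ (hz P hP)

end generic

/-- a point which is not torsion -/
lemma nontors (a b : Qb) (h : 4 * a ^ 3 + 27 * b ^ 2 ≠ 0) :
    ∃ R : EPt a b, ∀ m : ℕ, 0 < m → m • R ≠ 0 := by
  obtain ⟨R, hR⟩ := INF.main a b h ∅ Set.finite_empty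
  refine ⟨R, fun m hm h0 => hR m hm ?_⟩
  rw [h0]
  exact zero_mem _

theorem main : S_DF := by
  refine ⟨?_, ?_, ?_, ?_⟩
  · intro a b F _ ha hb x hx P hP
    obtain ⟨G, hG⟩ := Rat.exists_group F ha hb
    obtain ⟨n, rfl⟩ := hx
    rw [← hG] at hP ⊢
    rw [int_apply]
    exact zsmul_mem hP n
  · intro a b h
    obtain ⟨R, hR⟩ := nontors a b h
    exact rk_int R hR
  · intro a b u ρ hρ F hF ha hb x hx
    obtain ⟨G, hG⟩ := Rat.exists_group F ha hb
    have hu : u ∈ F := hF (IntermediateField.mem_adjoin_simple_self ℚ u)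
    simp only [← hG]
    refine closure_stable ρ G ?_ x hx
    intro P hP
    rcases P with _ | ⟨X, Y, hXY⟩
    · have : ρ (WeierstrassCurve.Affine.Point.zero) = 0 := map_zero ρ
      rw [this]
      exact zero_mem _
    · obtain ⟨h', e⟩ := hρ X Y hXY
      rw [hG] at hP ⊢
      rw [e]
      intro c hc
      rcases hc with rfl | hc
      · exact mul_mem (pow_mem hu 2) (hP (by simp [coords]))
      · rw [Set.mem_singleton_iff] at hc
        rw [hc]
        exact mul_mem (pow_mem hu 3) (hP (by simp [coords]))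
  · intro a b ρ t h ht hρ
    obtain ⟨R, hR⟩ := nontors a b h
    exact rk_two R hR ρ t ht hρ

end Pool.Agent.Helper62.RE.DF
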