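import Pool.Agent.Helper62.RE.EDefs

set_option autoImplicit false

/-!
# The literal definition of Lehmer groups in `E^n`, and statement of the module FIN
-/

namespace Pool.Agent.Helper62.RE

open scoped Classical

variable {a b : Qb} {n : ℕ}

/-- `Γ`-torsion subvarieties: the sets `γ + B` with `B` a connected (that is, irreducible) algebraic
subgroup of `E^n` and `γ` in the saturation of `Γ`, that is, with a positive multiple in `Γ` -/
def IsTorsionVariety (Γ : AddSubgroup (Fin n → EPt a b)) (T : Set (Fin n → EPt a b)) : Prop :=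
  ∃ B : AddSubgroup (Fin n → EPt a b), IsSubvariety (B : Set (Fin n → EPt a b)) ∧
    ∃ γ : Fin n → EPt a b, (∃ m : ℕ, 0 < m ∧ m • γ ∈ Γ) ∧ T = {x | ∃ y ∈ B, x = γ + y}

/-- `V` is contained in no proper `Γ`-torsion subvariety -/
def IsTransverseVar (Γ : AddSubgroup (Fin n → EPt a b)) (V : Set (Fin n → EPt a b)) : Prop :=
  ∀ T : Set (Fin n → EPt a b), IsTorsionVariety Γ T → T ≠ Set.univ → ¬ V ⊆ T

/-- `Γ` is a Lehmer group over the field `K`: the literal definition of the problem -/
def IsLehmerSubgroup (K : IntermediateField ℚ Qb) (Γ : AddSubgroup (Fin n → EPt a b)) : Prop :=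
  ∃ c : ℝ, 0 < c ∧ ∀ V : Set (Fin n → EPt a b), IsSubvariety V → V ≠ Set.univ →
    IsTransverseVar Γ V → c ≤ obstruction (coordField K Γ) V * essMin V

/-- Every proper closed subgroup of `E^n` is contained in the kernel of a homomorphism
`x ↦ w_1 x_1 + … + w_n x_n` from `E^n` to `E` with `w ≠ 0` in `O^n`. If `O` is the ring of all
endomorphisms of the curve `E` this is a classical fact (Poincaré). -/
def SubgroupsInKernels (O : Subring (AddMonoid.End (EPt a b))) (n : ℕ) : Prop :=
  ∀ B : AddSubgroup (Fin n → EPt a b), IsZClosed (B : Set (Fin n → EPt a b)) →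
    (B : Set (Fin n → EPt a b)) ≠ Set.univ →
    ∃ w : Fin n → AddMonoid.End (EPt a b), (∀ i, w i ∈ O) ∧ w ≠ 0 ∧ ∀ x ∈ B, ∑ i, w i (x i) = 0

/-- if the proper closed subgroups are in kernels, then Lehmer groups in the sense of the problem are
Lehmer groups for the ring `O` -/
theorem lehmer_of_literal {O : Subring (AddMonoid.End (EPt a b))} (hO : SubgroupsInKernels O n)
    {K : IntermediateField ℚ Qb} {Γ : AddSubgroup (Fin n → EPt a b)}
    (h : IsLehmerSubgroup K Γ) : IsLehmerGroup O K Γ := by
  obtain ⟨c, hc, h⟩ := h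
  refine ⟨c, hc, fun V hV hVu hVt => h V hV hVu ?_⟩
  rintro T ⟨B, hB, γ, hγ, rfl⟩ hT hVT
  have hBne : (B : Set (Fin n → EPt a b)) ≠ Set.univ := by
    intro hB'
    apply hT
    ext x
    simp only [Set.mem_ofPred_eq, Set.mem_univ, iff_true]
    refine ⟨x - γ, ?_, by abel⟩
    have : x - γ ∈ (B : Set (Fin n → EPt a b)) := by rw [hB']; trivial
    exact this
  obtain ⟨w, hwO, hw, hwB⟩ := hO B hB.1 hBne
  refine hVt w hwO hw γ hγ fun x hx => ?_
  obtain ⟨y, hy, rfl⟩ := hVT hx
  show ∑ i, w i ((γ + y) i) = ∑ i, w i (γ i)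
  have h1 : ∀ i, w i ((γ + y) i) = w i (γ i) + w i (y i) := fun i => by
    rw [Pi.add_apply, map_add]
  rw [Finset.sum_congr rfl fun i _ => h1 i, Finset.sum_add_distrib, hwB y hy, add_zero]

/-- FIN: a proper closed subgroup of `E` is finite. Proof: let `P₀` be outside of `B`; it is not the point
at infinity, which is in `B`. Some homogeneous polynomial `f` vanishes on `B` and not at `P₀`. On the
affine points `f (x, y, 1) = A(x) + y B(x)` with polynomials `A`, `B` in one variable (reduce with
`y² = x³ + a x + b`), not both zero; so `A² - (x³ + a x + b) B²` is not the zero polynomial (parity of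
degrees; compare `WeierstrassCurve.Affine.CoordinateRing.norm_smul_basis` and `degree_norm_smul_basis`),
and it vanishes at the `x`-coordinates of the affine points of `B`. -/
def S_FIN : Prop := ∀ a b : Qb, 4 * a ^ 3 + 27 * b ^ 2 ≠ 0 →
  ∀ B : AddSubgroup (Fin 1 → EPt a b), IsZClosed (B : Set (Fin 1 → EPt a b)) →
    (B : Set (Fin 1 → EPt a b)) ≠ Set.univ → (B : Set (Fin 1 → EPt a b)).Finite

end Pool.Agent.Helper62.RE
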