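import Pool.Agent.Helper62.RE.Base

set_option autoImplicit false

/-!
# Characters with coefficients in the endomorphism ring: definitions and statements of the modules
-/

namespace Pool.Agent.Helper62.RE

open scoped TensorProduct Classical

/-- the `O`-module generated by the coordinates of the elements of `Γ` -/
def oSpan {M : Type} [AddCommGroup M] {n : ℕ} (O : Subring (AddMonoid.End M))
    (Γ : AddSubgroup (Fin n → M)) : AddSubgroup M :=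
  AddSubgroup.closure {y | ∃ x ∈ O, ∃ g ∈ Γ, ∃ i, y = x (g i)}

/-- the elements of `O` are defined over a number field `K₁`: they map points with coordinates in a field
`F ⊇ K₁` to such points -/
def DefinedOver {a b : Qb} (O : Subring (AddMonoid.End (EPt a b))) (K₁ : IntermediateField ℚ Qb) :
    Prop :=
  ∀ F : IntermediateField ℚ Qb, K₁ ≤ F → a ∈ F → b ∈ F → ∀ x ∈ O, ∀ P : EPt a b,
    coords P ⊆ (F : Set Qb) → coords (x P) ⊆ (F : Set Qb)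

/-- RK2 (as RK, with `ℚ ⊗ O ^ n` instead of `ℚ ^ n`): `V = ℚ ⊗ oSpan`, `W`, `f` as in RK; the map
`ℚ ⊗ O ^ n → (ℚ ⊗ Γ)^*`, `v ↦ (γ ↦ f (∑ v_i γ_i))` is not injective as `rk Γ < n rk O`. -/
def S_RK2 : Prop := ∀ (M : Type) [AddCommGroup M] (O : Subring (AddMonoid.End M)) (n : ℕ)
  (Γ : AddSubgroup (Fin n → M)) (h : M → ℝ),
  (∃ B : Set (AddMonoid.End M), B.Finite ∧ ∀ x ∈ O, x ∈ AddSubgroup.closure B) →
  FinRk Γ → rk Γ < n * rk O →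
  (∀ ε : ℝ, 0 < ε → ∃ z ∈ oSpan O Γ, (∀ m : ℕ, 0 < m → m • z ≠ 0) ∧ h z < ε) →
  ∃ v : Fin n → AddMonoid.End M, (∀ i, v i ∈ O) ∧ v ≠ 0 ∧
    ∀ ε : ℝ, 0 < ε → ∃ z ∈ oSpan O Γ, h z < ε ∧
      ∀ m : ℕ, 0 < m → ∀ γ ∈ Γ, m • z ≠ ∑ i, v i (γ i)

/-- FG2 (as FG). -/
def S_FG2 : Prop := ∀ (M : Type) [AddCommGroup M] (O : Subring (AddMonoid.End M)) (n : ℕ)
  (Γ : AddSubgroup (Fin n → M)),
  (∃ B : Set (AddMonoid.End M), B.Finite ∧ ∀ x ∈ O, x ∈ AddSubgroup.closure B) →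
  (FGModTorsion (oSpan O Γ) → FGModTorsion Γ) ∧
  (FinRk Γ → ∃ F : Set M, F.Finite ∧ F ⊆ oSpan O Γ ∧ ∀ y ∈ oSpan O Γ, ∃ m : ℕ, 0 < m ∧
    m • y ∈ AddSubgroup.closure F)

/-- DEG2 (as DEG, with a number field `K₁` in addition). -/
def S_DEG2 : Prop := ∀ a b : Qb, 4 * a ^ 3 + 27 * b ^ 2 ≠ 0 →
  ∀ K₁ : IntermediateField ℚ Qb, FiniteDimensional ℚ K₁ →
  ∀ (r : ℕ) (S : Fin r → EPt a b), ∃ C : ℕ, ∀ (L : IntermediateField ℚ Qb), a ∈ L → b ∈ L →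
    ∀ (k : ℕ) (R : Fin r → EPt a b), (∀ j, (2 ^ k : ℕ) • R j = S j) →
      FiniteDimensional L (IntermediateField.adjoin L ((K₁ : Set Qb) ∪ ⋃ j, coords (R j))) ∧
      Module.finrank L (IntermediateField.adjoin L ((K₁ : Set Qb) ∪ ⋃ j, coords (R j))) ≤
        C * 4 ^ (k * r)

/-- DF: fields of definition and ranks in the examples. -/
def S_DF : Prop :=
  (∀ a b : Qb, DefinedOver (Int.castRingHom (AddMonoid.End (EPt a b))).range ⊥) ∧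
  (∀ a b : Qb, 4 * a ^ 3 + 27 * b ^ 2 ≠ 0 →
    rk (Int.castRingHom (AddMonoid.End (EPt a b))).range = 1) ∧
  (∀ (a b u : Qb) (ρ : AddMonoid.End (EPt a b)),
    (∀ x y h, ∃ h', ρ (.some x y h) = .some (u ^ 2 * x) (u ^ 3 * y) h') →
    DefinedOver (Subring.closure {ρ}) (IntermediateField.adjoin ℚ {u})) ∧
  (∀ (a b : Qb) (ρ : AddMonoid.End (EPt a b)) (t : ℤ), 4 * a ^ 3 + 27 * b ^ 2 ≠ 0 →
    t ^ 2 < 4 → ρ * ρ = t • ρ - 1 → rk (Subring.closure {ρ}) = 2)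

end Pool.Agent.Helper62.RE
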