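import Mathlib
import Pool.Agent.Helper62.RE.Mods4
import Pool.Agent.Helper62.RE.FG

set_option autoImplicit false

/-!
# Groups of small rank, with coefficients in a ring of endomorphisms (module RK2, helper63)
-/

namespace Pool.Agent.Helper62.RE.RK2

open Pool.Agent.Helper62.RE
open scoped TensorProduct

lemma nsmul_tmul_eq {M : Type} [AddCommGroup M] (m : ℕ) (x : M) :
    (1 : ℚ) ⊗ₜ[ℤ] (m • x) = (m : ℚ) • ((1 : ℚ) ⊗ₜ[ℤ] x) := by
  rw [TensorProduct.tmul_smul, Nat.cast_smul_eq_nsmul]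

/-- a common denominator -/
lemma exists_den {A : Type} [AddCommGroup A] (x : ℚ ⊗[ℤ] A) :
    ∃ N : ℕ, 0 < N ∧ ∃ a : A, (N : ℚ) • x = (1 : ℚ) ⊗ₜ[ℤ] a := by
  induction x using TensorProduct.induction_on with
  | zero => exact ⟨1, one_pos, 0, by simp⟩
  | tmul q a =>
    refine ⟨q.den, q.den_pos, q.num • a, ?_⟩
    rw [TensorProduct.smul_tmul', smul_eq_mul, Rat.den_mul_eq_num, TensorProduct.tmul_smul,
      TensorProduct.smul_tmul', zsmul_eq_mul, mul_one]
  | add x y hx hy =>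
    obtain ⟨N, hN, a, ha⟩ := hx
    obtain ⟨N', hN', b, hb⟩ := hy
    refine ⟨N * N', Nat.mul_pos hN hN', N' • a + N • b, ?_⟩
    rw [TensorProduct.tmul_add, nsmul_tmul_eq, nsmul_tmul_eq, ← ha, ← hb, smul_add, smul_smul,
      smul_smul]
    push_cast
    rw [mul_comm (N' : ℚ) N]

theorem main : S_RK2 := by
  classical
  intro M _ O n Γ h hB hfr hrk hsmall
  obtain ⟨B, hBfin, hBO⟩ := hB
  have hfd : FiniteDimensional ℚ (ℚ ⊗[ℤ] Γ) := hfr
  replace hrk : Module.finrank ℚ (ℚ ⊗[ℤ] Γ) < n * Module.finrank ℚ (ℚ ⊗[ℤ] O) := hrk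
  have hOpos : 0 < Module.finrank ℚ (ℚ ⊗[ℤ] O) := by
    rcases Nat.eq_zero_or_pos (Module.finrank ℚ (ℚ ⊗[ℤ] O)) with h0 | h0
    · rw [h0, mul_zero] at hrk
      omega
    · exact h0
  have hOfd : FiniteDimensional ℚ (ℚ ⊗[ℤ] O) := Module.finite_of_finrank_pos hOpos
  set H := oSpan O Γ with hH
  let V := ℚ ⊗[ℤ] M
  let φ : M → V := fun z => (1 : ℚ) ⊗ₜ[ℤ] z
  have hφm : ∀ (m : ℕ) (z : M), φ (m • z) = (m : ℚ) • φ z := fun m z => nsmul_tmul_eq m z
  have hφadd : ∀ a b, φ (a + b) = φ a + φ b := fun a b => TensorProduct.tmul_add _ _ _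
  have hφzero : φ 0 = 0 := TensorProduct.tmul_zero _ _
  have hφneg : ∀ a, φ (-a) = -φ a := fun a => TensorProduct.tmul_neg _ _
  -- a finite dimensional space which contains the images of the elements of `H`
  let κ : B × Fin n → (Γ →+ M) := fun p =>
    { toFun := fun γ => (p.1 : AddMonoid.End M) ((γ : Fin n → M) p.2)
      map_zero' := by
        show (p.1 : AddMonoid.End M) 0 = 0
        exact map_zero _
      map_add' := fun a b => by
        show (p.1 : AddMonoid.End M) (_ + _) = _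
        exact map_add _ _ _ }
  let V₀ : Submodule ℚ V := ⨆ p : B × Fin n, LinearMap.range
    (LinearMap.baseChange ℚ (κ p).toIntLinearMap)
  have : Finite B := hBfin
  have hV₀fin : FiniteDimensional ℚ V₀ := by
    show FiniteDimensional ℚ (⨆ p : B × Fin n, LinearMap.range
      (LinearMap.baseChange ℚ (κ p).toIntLinearMap) : Submodule ℚ V)
    infer_instance
  have hHV : ∀ z ∈ H, φ z ∈ V₀ := by
    have h1 : ∀ x ∈ AddSubgroup.closure B, ∀ g ∈ Γ, ∀ i, φ (x (g i)) ∈ V₀ := by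
      intro x hx g hg i
      induction hx using AddSubgroup.closure_induction with
      | mem b hb =>
        refine Submodule.mem_iSup_of_mem (⟨b, hb⟩, i) ⟨(1 : ℚ) ⊗ₜ[ℤ] (⟨g, hg⟩ : Γ), ?_⟩
        rw [LinearMap.baseChange_tmul]
        rfl
      | zero =>
        have : φ ((0 : AddMonoid.End M) (g i)) = 0 := hφzero
        rw [this]
        exact V₀.zero_mem
      | add a b _ _ ha hb =>
        have : φ ((a + b : AddMonoid.End M) (g i)) = φ (a (g i)) + φ (b (g i)) := hφadd _ _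
        rw [this]
        exact V₀.add_mem ha hb
      | neg a _ ha =>
        have : φ ((-a : AddMonoid.End M) (g i)) = -φ (a (g i)) := hφneg _
        rw [this]
        exact V₀.neg_mem ha
    intro z hz
    rw [hH, oSpan] at hz
    induction hz using AddSubgroup.closure_induction with
    | mem y hy =>
      obtain ⟨x, hx, g, hg, i, rfl⟩ := hy
      exact h1 x (hBO x hx) g hg i
    | zero => rw [hφzero]; exact V₀.zero_mem
    | add a b _ _ ha hb => rw [hφadd]; exact V₀.add_mem ha hb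
    | neg a _ ha => rw [hφneg]; exact V₀.neg_mem ha
  -- the spans of the small elements
  let W : ℝ → Submodule ℚ V := fun ε => Submodule.span ℚ (φ '' {z | z ∈ H ∧ h z < ε})
  have hWV : ∀ ε, W ε ≤ V₀ := by
    intro ε
    apply Submodule.span_le.2
    rintro _ ⟨z, ⟨hz, _⟩, rfl⟩
    exact hHV z hz
  have hWmono : ∀ ε ε' : ℝ, ε ≤ ε' → W ε ≤ W ε' := by
    intro ε ε' hle
    apply Submodule.span_mono
    rintro _ ⟨z, ⟨hz, hz'⟩, rfl⟩
    exact ⟨z, ⟨hz, hz'.trans_le hle⟩, rfl⟩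
  have hWfin : ∀ ε, FiniteDimensional ℚ (W ε) := fun ε =>
    Submodule.finiteDimensional_of_le (hWV ε)
  -- the least dimension
  have hex : ∃ d : ℕ, ∃ ε : ℝ, 0 < ε ∧ Module.finrank ℚ (W ε) = d := ⟨_, 1, one_pos, rfl⟩
  obtain ⟨ε₀, hε₀, hd⟩ := Nat.find_spec hex
  have hstable : ∀ ε : ℝ, 0 < ε → W ε₀ ≤ W ε := by
    intro ε hε
    have hmin : 0 < min ε ε₀ := lt_min hε hε₀
    have h1 : W (min ε ε₀) ≤ W ε₀ := hWmono _ _ (min_le_right _ _)
    have h2 : Module.finrank ℚ (W ε₀) ≤ Module.finrank ℚ (W (min ε ε₀)) := by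
      rw [hd]
      exact Nat.find_min' hex ⟨_, hmin, rfl⟩
    have h3 : W (min ε ε₀) = W ε₀ := Submodule.eq_of_le_of_finrank_le h1 h2
    rw [← h3]
    exact hWmono _ _ (min_le_left _ _)
  -- a linear form
  obtain ⟨z₀, hz₀H, hz₀t, hz₀s⟩ := hsmall ε₀ hε₀
  have hz₀ : φ z₀ ≠ 0 := by
    intro h0
    obtain ⟨m, hm, hm0⟩ := FG.tmul_eq_zero h0
    exact hz₀t m hm hm0
  obtain ⟨f, hf⟩ : ∃ f : Module.Dual ℚ V, f (φ z₀) ≠ 0 := by
    by_contra hcon
    push Not at hcon
    exact hz₀ ((Module.forall_dual_apply_eq_zero_iff ℚ _).1 hcon)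
  let ψ : M →+ ℚ :=
    { toFun := fun z => f ((1 : ℚ) ⊗ₜ[ℤ] z)
      map_zero' := by rw [TensorProduct.tmul_zero, map_zero]
      map_add' := fun a b => by rw [TensorProduct.tmul_add, map_add] }
  have hψ : ∀ z, ψ z = f (φ z) := fun z => rfl
  -- the pairing of `O ^ n` and `Γ`
  let θ : Fin n → (O →+ (Γ →ₗ[ℤ] ℚ)) := fun i =>
    { toFun := fun x => AddMonoidHom.toIntLinearMap
        { toFun := fun γ => ψ ((x : AddMonoid.End M) ((γ : Fin n → M) i))
          map_zero' := by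
            show ψ ((x : AddMonoid.End M) 0) = 0
            rw [map_zero, map_zero]
          map_add' := fun a b => by
            show ψ ((x : AddMonoid.End M) (_ + _)) = _
            rw [map_add, map_add] }
      map_zero' := by
        ext γ
        show ψ ((0 : AddMonoid.End M) _) = 0
        exact map_zero ψ
      map_add' := fun x y => by
        ext γ
        show ψ (((x : AddMonoid.End M) + (y : AddMonoid.End M)) _) = _
        exact map_add ψ _ _ }
  have hθ : ∀ i (x : O) (γ : Γ), θ i x γ = ψ ((x : AddMonoid.End M) ((γ : Fin n → M) i)) :=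
    fun i x γ => rfl
  let L : (Fin n → ℚ ⊗[ℤ] O) →ₗ[ℚ] (Γ →ₗ[ℤ] ℚ) :=
    LinearMap.lsum ℚ (fun _ : Fin n => ℚ ⊗[ℤ] O) ℚ
      (fun i => LinearMap.liftBaseChange ℚ (θ i).toIntLinearMap)
  have hL : ∀ (v : Fin n → O) (γ : Γ), L (fun i => (1 : ℚ) ⊗ₜ[ℤ] v i) γ =
      ∑ i, ψ ((v i : AddMonoid.End M) ((γ : Fin n → M) i)) := by
    intro v γ
    show (LinearMap.lsum ℚ (fun _ : Fin n => ℚ ⊗[ℤ] O) ℚ
      (fun i => LinearMap.liftBaseChange ℚ (θ i).toIntLinearMap)) (fun i => (1 : ℚ) ⊗ₜ[ℤ] v i) γ = _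
    rw [LinearMap.lsum_apply, LinearMap.sum_apply, LinearMap.sum_apply]
    refine Finset.sum_congr rfl fun i _ => ?_
    rw [LinearMap.comp_apply, LinearMap.proj_apply, LinearMap.liftBaseChange_tmul, one_smul]
    rfl
  have hker : LinearMap.ker L ≠ ⊥ := by
    have e : (Γ →ₗ[ℤ] ℚ) ≃ₗ[ℚ] Module.Dual ℚ (ℚ ⊗[ℤ] Γ) := LinearMap.liftBaseChangeEquiv ℚ
    have h1 : Module.finrank ℚ (Γ →ₗ[ℤ] ℚ) = Module.finrank ℚ (ℚ ⊗[ℤ] Γ) := by
      rw [e.finrank_eq]
      exact Subspace.dual_finrank_eq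
    have : FiniteDimensional ℚ (Γ →ₗ[ℤ] ℚ) := Module.Finite.equiv e.symm
    apply LinearMap.ker_ne_bot_of_finrank_lt
    rw [h1, Module.finrank_pi_fintype]
    simpa using hrk
  obtain ⟨q, hqk, hq0⟩ := (Submodule.ne_bot_iff _).1 hker
  choose N hN a ha using fun i => exists_den (q i)
  let D : ℕ := ∏ i, N i
  have hD : 0 < D := Finset.prod_pos fun i _ => hN i
  let v : Fin n → O := fun i => (∏ j ∈ Finset.univ.erase i, N j) • a i
  have hv : ∀ i, (1 : ℚ) ⊗ₜ[ℤ] v i = (D : ℚ) • q i := by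
    intro i
    show (1 : ℚ) ⊗ₜ[ℤ] ((∏ j ∈ Finset.univ.erase i, N j) • a i) = _
    rw [nsmul_tmul_eq, ← ha, smul_smul]
    congr 1
    rw [mul_comm, ← Nat.cast_mul]
    congr 1
    exact Finset.mul_prod_erase Finset.univ _ (Finset.mem_univ i)
  have hv0 : v ≠ 0 := by
    intro h0
    apply hq0
    funext i
    have h1 := hv i
    rw [h0, Pi.zero_apply, TensorProduct.tmul_zero] at h1
    have hD' : (D : ℚ) ≠ 0 := by exact_mod_cast hD.ne'
    have h3 : q i = (D : ℚ)⁻¹ • ((D : ℚ) • q i) := by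
      rw [smul_smul, inv_mul_cancel₀ hD', one_smul]
    rw [h3, ← h1, smul_zero]
    rfl
  have hvanish : ∀ γ ∈ Γ, ψ (∑ i, (v i : AddMonoid.End M) (γ i)) = 0 := by
    intro γ hγ
    have h1 := hL v ⟨γ, hγ⟩
    have h2 : (fun i => (1 : ℚ) ⊗ₜ[ℤ] v i) = (D : ℚ) • q := funext hv
    rw [h2, map_smul, LinearMap.mem_ker.1 hqk, smul_zero] at h1
    rw [map_sum]
    exact h1.symm
  refine ⟨fun i => (v i : AddMonoid.End M), fun i => (v i).2, ?_, fun ε hε => ?_⟩
  · intro h0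
    apply hv0
    funext i
    exact Subtype.ext (congrFun h0 i)
  by_contra hcon
  push Not at hcon
  -- the form vanishes on the span
  have hzero : ∀ w ∈ W ε, f w = 0 := by
    intro w hw
    induction hw using Submodule.span_induction with
    | mem t ht =>
      obtain ⟨z, ⟨hz, hz'⟩, rfl⟩ := ht
      obtain ⟨m, hm, γ, hγ, hmγ⟩ := hcon z hz hz'
      have h1 : ψ (m • z) = 0 := by rw [hmγ, hvanish γ hγ]
      rw [hψ, hφm, map_smul, smul_eq_mul] at h1
      rcases mul_eq_zero.1 h1 with h | h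
      · exact absurd h (by exact_mod_cast hm.ne')
      · exact h
    | zero => exact map_zero f
    | add a b _ _ ha hb => rw [map_add, ha, hb, add_zero]
    | smul c a _ ha => rw [map_smul, ha, smul_zero]
  apply hf
  exact hzero _ (hstable ε hε (Submodule.subset_span ⟨z₀, ⟨hz₀H, hz₀s⟩, rfl⟩))

end Pool.Agent.Helper62.RE.RK2
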