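import Pool.Agent.Helper62.RE.Fin3
import Pool.Agent.Helper62.RE.RK2
import Pool.Agent.Helper62.RE.DEG2
import Pool.Agent.Helper62.RE.DF
import Pool.Agent.Helper62.RE.CM
import Pool.Agent.Helper62.RE.Lit

set_option autoImplicit false

/-!
# Powers of elliptic curves: the examples and the case `n = 1`
-/

namespace Pool.Agent.Helper62.RE

open scoped TensorProduct Classical

variable {a b : Qb}

theorem endProps_int (a b : Qb) : EndProps (Int.castRingHom (AddMonoid.End (EPt a b))).range :=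
  ⟨isEndRing_int a b, ⊥, inferInstance, DF.main.1 a b⟩

theorem rk_int (hab : 4 * a ^ 3 + 27 * b ^ 2 ≠ 0) :
    rk (Int.castRingHom (AddMonoid.End (EPt a b))).range = 1 := DF.main.2.1 a b hab

lemma findim (u : Qb) : FiniteDimensional ℚ (IntermediateField.adjoin ℚ ({u} : Set Qb)) := by
  have halg : Algebra.IsAlgebraic ℚ Qb := AlgebraicClosure.isAlgebraic ℚ
  exact IntermediateField.adjoin.finiteDimensional (Algebra.IsIntegral.isIntegral u)

/-- the Gaussian integers -/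
theorem endProps_gauss (a : Qb) (ha : a ≠ 0) :
    ∃ ρ : AddMonoid.End (EPt a 0), (∃ i : Qb, i ^ 2 = -1 ∧
      ∀ x y h, ∃ h', ρ (.some x y h) = .some (-x) (i * y) h') ∧
      EndProps (Subring.closure {ρ}) ∧ rk (Subring.closure {ρ}) = 2 := by
  obtain ⟨u, hu⟩ := IsAlgClosed.exists_pow_nat_eq (-1 : Qb) (n := 2) two_pos
  have hu0 : u ≠ 0 := by
    rintro rfl
    norm_num at hu
  obtain ⟨ρ, hρ⟩ := AUT.main a 0 u hu0 (by linear_combination (u ^ 2 - 1) * a * hu)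
    (by ring)
  have hρ2 : ρ * ρ = (0 : ℤ) • ρ - 1 := by
    have e0 : (0 : ℤ) • ρ = 0 := zero_zsmul ρ
    rw [e0]
    ext P
    show ρ (ρ P) = 0 - P
    rw [zero_sub]
    rcases P with _ | ⟨x, y, h⟩
    · have h0 : ρ (WeierstrassCurve.Affine.Point.zero : EPt a 0) = 0 := map_zero ρ
      rw [h0, map_zero]
      rfl
    · obtain ⟨h1, e1⟩ := hρ x y h
      obtain ⟨h2, e2⟩ := hρ _ _ h1
      rw [e1, e2, WeierstrassCurve.Affine.Point.neg_some]
      simp only [WeierstrassCurve.Affine.Point.some.injEq]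
      refine ⟨by linear_combination (u ^ 2 - 1) * x * hu, ?_⟩
      simp only [WeierstrassCurve.Affine.negY, curve]
      linear_combination (u ^ 4 - u ^ 2 + 1) * y * hu
  have hab : 4 * a ^ 3 + 27 * (0 : Qb) ^ 2 ≠ 0 := by
    simpa using ha
  refine ⟨ρ, ⟨u ^ 3, by linear_combination (u ^ 4 - u ^ 2 + 1) * hu, fun x y h => ?_⟩,
    ⟨(RNG.main (EPt a 0)).1 ρ 0 (by norm_num) hρ2, _, findim u, DF.main.2.2.1 a 0 u ρ hρ⟩,
    DF.main.2.2.2 a 0 ρ 0 hab (by norm_num) hρ2⟩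
  obtain ⟨h', e⟩ := hρ x y h
  have e1 : u ^ 2 * x = -x := by linear_combination x * hu
  rw [← e1]
  exact ⟨h', e⟩

/-- the Eisenstein integers -/
theorem endProps_eisenstein (b : Qb) (hb : b ≠ 0) :
    ∃ ρ : AddMonoid.End (EPt 0 b), (∃ ω : Qb, ω ^ 2 + ω + 1 = 0 ∧
      ∀ x y h, ∃ h', ρ (.some x y h) = .some (ω * x) y h') ∧
      EndProps (Subring.closure {ρ}) ∧ rk (Subring.closure {ρ}) = 2 := by
  obtain ⟨s, hs⟩ := IsAlgClosed.exists_pow_nat_eq (-3 : Qb) (n := 2) two_pos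
  obtain ⟨ω, hω⟩ : ∃ ω : Qb, ω ^ 2 + ω + 1 = 0 := by
    refine ⟨(s - 1) / 2, ?_⟩
    field_simp
    linear_combination hs
  have h3 : ω ^ 3 = 1 := by linear_combination (ω - 1) * hω
  have hω0 : ω ≠ 0 := by
    rintro rfl
    norm_num at h3
  obtain ⟨ρ, hρ⟩ := AUT.main 0 b (ω ^ 2) (pow_ne_zero _ hω0) (by ring)
    (by linear_combination (ω ^ 9 + ω ^ 6 + ω ^ 3 + 1) * b * h3)
  have hρ' : ∀ x y h, ∃ h', ρ (.some x y h) = .some (ω * x) y h' := by
    intro x y h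
    obtain ⟨h', e⟩ := hρ x y h
    have e1 : (ω ^ 2) ^ 2 * x = ω * x := by linear_combination ω * x * h3
    have e2 : (ω ^ 2) ^ 3 * y = y := by linear_combination (ω ^ 3 + 1) * y * h3
    have key : ∀ x' y' (h' : (curve 0 b).toAffine.Nonsingular x' y'), x' = ω * x → y' = y →
        ∃ h'', (WeierstrassCurve.Affine.Point.some x' y' h' : EPt 0 b) = .some (ω * x) y h'' := by
      intro x' y' h9 hx hy
      subst hx
      subst hy
      exact ⟨h9, rfl⟩
    rw [e]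
    exact key _ _ h' e1 e2
  have h4 := OMR.main b ω hb hω ρ hρ'
  have hρ2 : ρ * ρ = (-1 : ℤ) • ρ - 1 := by
    have e0 : (-1 : ℤ) • ρ = -ρ := neg_one_zsmul ρ
    rw [e0]
    have h5 : ρ * ρ = -(ρ + 1) := by
      rw [eq_neg_iff_add_eq_zero, ← add_assoc]
      exact h4
    rw [h5]
    abel
  have hab : 4 * (0 : Qb) ^ 3 + 27 * b ^ 2 ≠ 0 := by
    simpa using hb
  exact ⟨ρ, ⟨ω, hω, hρ'⟩, ⟨(RNG.main (EPt 0 b)).1 ρ (-1) (by norm_num) hρ2, _, findim (ω ^ 2),
    DF.main.2.2.1 0 b (ω ^ 2) ρ hρ⟩, DF.main.2.2.2 0 b ρ (-1) hab (by norm_num) hρ2⟩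

/-- the case `n = 1` -/
theorem subgroups_one (hFIN : S_FIN) (hab : 4 * a ^ 3 + 27 * b ^ 2 ≠ 0)
    (O : Subring (AddMonoid.End (EPt a b))) : SubgroupsInKernels O 1 := by
  intro B hB hBne
  have hfin := hFIN a b hab B hB hBne
  have : Finite B := hfin
  have hpos : 0 < Nat.card B := Nat.card_pos
  refine ⟨fun _ => ((Nat.card B : ℕ) : AddMonoid.End (EPt a b)), fun _ => natCast_mem O _, ?_, ?_⟩
  · intro h
    obtain ⟨R, hR⟩ := exists_nontorsion INF.main hab
    have h1 := congrFun h 0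
    have h2 : Nat.card B • R = 0 := congrArg (fun f : AddMonoid.End (EPt a b) => f R) h1
    exact hR _ hpos h2
  · intro x hx
    rw [Fin.sum_univ_one]
    show Nat.card B • (x 0) = 0
    have h1 : Nat.card B • (⟨x, hx⟩ : B) = 0 := by
      have := card_nsmul_eq_zero' (x := (⟨x, hx⟩ : B))
      exact this
    have h2 : Nat.card B • x = 0 := congrArg Subtype.val h1
    exact congrFun h2 0

end Pool.Agent.Helper62.RE
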