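import Pool.Agent.Helper62.RE.Main
import Pool.Agent.Helper62.RE.Fin4
import Pool.Agent.Helper62.RE.FG2
import Pool.Agent.Helper62.RE.FIN

set_option autoImplicit false

/-!
# The theorem on powers of elliptic curves
-/

namespace Pool.Agent.Helper62.RE.Bridge

open Pool.Agent.Helper62.RE
open scoped Classical

variable {a b : Qb} {n : ℕ}

lemma lehmer_iff {O : Subring (AddMonoid.End (EPt a b))} {K : IntermediateField ℚ Qb}
    {Γ : AddSubgroup (Fin n → EPt a b)} : Main.LehmerFor O K Γ ↔ IsLehmerGroup O K Γ := by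
  have h : ∀ V : Set (Fin n → EPt a b), Main.Transverse O Γ V ↔ IsTransverse O Γ V := by
    intro V
    constructor
    · intro h w h1 h2 γ hγ
      exact h w ⟨h1, h2⟩ γ hγ
    · intro h w hw γ hγ
      exact h w hw.1 hw.2 γ hγ
  unfold Main.LehmerFor IsLehmerGroup
  simp only [h]

lemma literal_iff {K : IntermediateField ℚ Qb} {Γ : AddSubgroup (Fin n → EPt a b)} :
    Main.LehmerGroup K Γ ↔ IsLehmerSubgroup K Γ := Iff.rfl

lemma kernels_iff {O : Subring (AddMonoid.End (EPt a b))} :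
    Main.SubgroupsInKernels O n ↔ SubgroupsInKernels O n := by
  constructor
  · intro h B h1 h2
    obtain ⟨w, hw, h3⟩ := h B h1 h2
    exact ⟨w, hw.1, hw.2, h3⟩
  · intro h B h1 h2
    obtain ⟨w, hw1, hw2, h3⟩ := h B h1 h2
    exact ⟨w, ⟨hw1, hw2⟩, h3⟩

lemma endProps_iff {O : Subring (AddMonoid.End (EPt a b))} : Main.EndProps O ↔ EndProps O :=
  Iff.rfl

theorem small (hab : 4 * a ^ 3 + 27 * b ^ 2 ≠ 0) {O : Subring (AddMonoid.End (EPt a b))}
    (hO : EndProps O) (hn : 1 ≤ n) {Γ : AddSubgroup (Fin n → EPt a b)} (hfin : FinRk Γ)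
    {K : IntermediateField ℚ Qb} (ha : a ∈ K) (hb : b ∈ K) (hL : IsLehmerGroup O K Γ) :
    Main.SmallAreValues ht O Γ := by
  rintro v ⟨hvO, hv⟩ B hB
  by_contra hcon
  push Not at hcon
  refine not_lehmer_of_small3 (DEG2.main (DEG.main DBL.main)) FG2.main hab hn hO ha hb hfin v hvO
    hv B hB ?_ hL
  intro ε hε
  obtain ⟨z, hz, hzε, h⟩ := hcon ε hε
  exact ⟨z, hz, hzε, fun m hm γ hγ => (h m hm γ hγ).symm⟩

theorem rank (hab : 4 * a ^ 3 + 27 * b ^ 2 ≠ 0) {O : Subring (AddMonoid.End (EPt a b))}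
    (hO : EndProps O) (hn : 1 ≤ n) {Γ : AddSubgroup (Fin n → EPt a b)} (hfin : FinRk Γ)
    {K : IntermediateField ℚ Qb} (ha : a ∈ K) (hb : b ∈ K) (hng : ¬ FGModTorsion Γ)
    (hrk : rk Γ < n * rk O) : ¬ IsLehmerGroup O K Γ :=
  not_lehmer_of_rank3 RK2.main (DEG2.main (DEG.main DBL.main)) FG2.main hab hn hO ha hb hfin
    hng hrk

theorem torsion (hab : 4 * a ^ 3 + 27 * b ^ 2 ≠ 0) {O : Subring (AddMonoid.End (EPt a b))}
    (hO : EndProps O) (hn : 1 ≤ n) {Γ : AddSubgroup (Fin n → EPt a b)} (hfin : FinRk Γ)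
    {K : IntermediateField ℚ Qb} (ha : a ∈ K) (hb : b ∈ K) (hng : ¬ FGModTorsion Γ)
    (h : Main.TorsionValues O Γ) : ¬ IsLehmerGroup O K Γ := by
  obtain ⟨v, hv, htors⟩ := h
  intro hL
  obtain ⟨B, hB⟩ := hO.exists_gen
  obtain ⟨ε, hε, h⟩ := small hab hO hn hfin ha hb hL v hv B hB
  obtain ⟨z, hz, hzt, hzε⟩ := exists_small3 FG2.main hab hO hfin hng B ε hε
  obtain ⟨m, hm, γ, hγ, hγz⟩ := h z hz hzε
  obtain ⟨k, hk, hk0⟩ := htors γ hγ
  rw [hγz, smul_smul] at hk0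
  exact hzt _ (Nat.mul_pos hk hm) hk0

theorem assertions (hab : 4 * a ^ 3 + 27 * b ^ 2 ≠ 0) {O : Subring (AddMonoid.End (EPt a b))}
    (hO : EndProps O) (hn : 1 ≤ n) {Γ : AddSubgroup (Fin n → EPt a b)} (hfin : FinRk Γ)
    {K : IntermediateField ℚ Qb} (ha : a ∈ K) (hb : b ∈ K) : Main.Assertions O Γ K := by
  refine ⟨fun h => small hab hO hn hfin ha hb (lehmer_iff.1 h),
    fun hng hrk h => rank hab hO hn hfin ha hb hng hrk (lehmer_iff.1 h),
    fun hng ht h => torsion hab hO hn hfin ha hb hng ht (lehmer_iff.1 h),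
    fun hsat h0 hrk h => rank hab hO hn hfin ha hb
      (not_fg_of_saturated hab hsat (exists_nontorsion_of_rk h0)) hrk (lehmer_iff.1 h),
    fun hs h => lehmer_iff.2 (lehmer_of_literal (kernels_iff.1 hs) h)⟩

theorem exists_one (hab : 4 * a ^ 3 + 27 * b ^ 2 ≠ 0) {O : Subring (AddMonoid.End (EPt a b))}
    (hO : EndProps O) (hn : 1 ≤ n) (hn2 : 2 ≤ n * rk O) : Main.ExistsRankOne O n := by
  obtain ⟨Γ, hsat, hrk⟩ := exists_rank_one (n := n) hab hn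
  have hfin : FinRk Γ := Module.finite_of_finrank_pos (by
    have : Module.finrank ℚ (TensorProduct ℤ ℚ Γ) = 1 := hrk
    omega)
  exact ⟨Γ, hsat, hrk, fun K ha hb h => rank hab hO hn hfin ha hb
    (not_fg_of_saturated hab hsat (exists_nontorsion_of_rk (by omega))) (by omega)
    (lehmer_iff.1 h)⟩

theorem gauss (hab : 4 * a ^ 3 + 27 * b ^ 2 ≠ 0) (hb : b = 0) :
    ∃ i : Qb, i ^ 2 = -1 ∧ Main.HasScaling a b (-1) i := by
  subst hb
  obtain ⟨ρ, ⟨i, hi, h⟩, h1, h2⟩ := endProps_gauss a (by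
    rintro rfl
    simp at hab)
  refine ⟨i, hi, ρ, fun x y hxy => ?_, h1, h2⟩
  obtain ⟨h', e⟩ := h x y hxy
  have e1 : -x = -1 * x := by ring
  rw [← e1]
  exact ⟨h', e⟩

theorem eisenstein (hab : 4 * a ^ 3 + 27 * b ^ 2 ≠ 0) (ha : a = 0) :
    ∃ ω : Qb, ω ^ 2 + ω + 1 = 0 ∧ Main.HasScaling a b ω 1 := by
  subst ha
  obtain ⟨ρ, ⟨ω, hω, h⟩, h1, h2⟩ := endProps_eisenstein b (by
    rintro rfl
    simp at hab)
  refine ⟨ω, hω, ρ, fun x y hxy => ?_, h1, h2⟩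
  rw [one_mul]
  exact h x y hxy

theorem exists_curve (hab : 4 * a ^ 3 + 27 * b ^ 2 ≠ 0) (h0 : a = 0 ∨ b = 0) :
    Main.ExistsInCurve a b := by
  have h7 : ∃ O : Subring (AddMonoid.End (EPt a b)), EndProps O ∧ rk O = 2 := by
    rcases h0 with h0 | h0
    · obtain ⟨ω, -, ρ, -, h8, h9⟩ := eisenstein hab h0
      exact ⟨_, h8, h9⟩
    · obtain ⟨i, -, ρ, -, h8, h9⟩ := gauss hab h0
      exact ⟨_, h8, h9⟩
  obtain ⟨O, hO, hrk⟩ := h7
  obtain ⟨Γ, hsat, hΓ, hL⟩ := exists_one (n := 1) hab hO le_rfl (by omega)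
  exact ⟨Γ, hsat, hΓ, fun K ha hb hlit => hL K ha hb
    (lehmer_iff.2 (lehmer_of_literal (subgroups_one FIN.main hab O) hlit))⟩

end Pool.Agent.Helper62.RE.Bridge
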