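import Pool.Agent.Helper62.RE.EDefs

set_option autoImplicit false

/-!
# Finite subsets of `E^n`
-/

namespace Pool.Agent.Helper62.RE

open scoped TensorProduct Classical

variable {a b : Qb} {n : ℕ}

lemma homog_ne_zero (P : EPt a b) : ∃ j, homog P j ≠ 0 := by
  rcases P with _ | ⟨x, y, h⟩
  · exact ⟨1, by simp [homog]⟩
  · exact ⟨2, by simp [homog]⟩

/-- points with proportional homogeneous coordinates are equal -/
lemma eq_of_minors {P Q : EPt a b} (h : ∀ j k, homog P j * homog Q k = homog P k * homog Q j) :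
    P = Q := by
  rcases P with _ | ⟨x, y, hP⟩ <;> rcases Q with _ | ⟨x', y', hQ⟩
  · rfl
  · exfalso
    have := h 1 2
    simp [homog] at this
  · exfalso
    have := h 1 2
    simp [homog] at this
  · have h1 := h 0 2
    have h2 := h 1 2
    simp [homog] at h1 h2
    subst h1
    subst h2
    rfl

lemma MultiHomog.mul {f g : MvPolynomial (Fin n × Fin 3) Qb} {d e : Fin n → ℕ}
    (hf : MultiHomog f d) (hg : MultiHomog g e) : MultiHomog (f * g) (d + e) :=
  fun i => (hf i).mul (hg i)

lemma value_mul (f g : MvPolynomial (Fin n × Fin 3) Qb) (P : Fin n → EPt a b) :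
    value (f * g) P = value f P * value g P := by
  unfold value
  rw [map_mul]

lemma IsZClosed.union {A B : Set (Fin n → EPt a b)} (hA : IsZClosed A) (hB : IsZClosed B) :
    IsZClosed (A ∪ B) := by
  obtain ⟨S, hS, rfl⟩ := hA
  obtain ⟨T, hT, rfl⟩ := hB
  refine ⟨{h | ∃ f ∈ S, ∃ g ∈ T, h = f * g}, ?_, ?_⟩
  · rintro _ ⟨f, hf, g, hg, rfl⟩
    obtain ⟨d, hd⟩ := hS f hf
    obtain ⟨e, he⟩ := hT g hg
    exact ⟨d + e, hd.mul he⟩
  ext x
  simp only [Set.mem_union, Set.mem_ofPred_eq]
  constructor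
  · rintro (h | h) _ ⟨f, hf, g, hg, rfl⟩
    · rw [value_mul, h f hf, zero_mul]
    · rw [value_mul, h g hg, mul_zero]
  · intro h
    by_contra hcon
    push Not at hcon
    obtain ⟨⟨f, hf, hf0⟩, g, hg, hg0⟩ := hcon
    have := h (f * g) ⟨f, hf, g, hg, rfl⟩
    rw [value_mul] at this
    exact (mul_ne_zero hf0 hg0) this

lemma isZClosed_singleton (P : Fin n → EPt a b) : IsZClosed ({P} : Set (Fin n → EPt a b)) := by
  refine ⟨{f | ∃ i j k, f = MvPolynomial.C (homog (P i) k) * MvPolynomial.X (i, j) -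
    MvPolynomial.C (homog (P i) j) * MvPolynomial.X (i, k)}, ?_, ?_⟩
  · rintro _ ⟨i, j, k, rfl⟩
    refine ⟨fun i' => if i = i' then 1 else 0, fun i' => ?_⟩
    have h1 : ∀ l : Fin 3, MvPolynomial.IsWeightedHomogeneous
        (fun p : Fin n × Fin 3 => if p.1 = i' then 1 else 0)
        (MvPolynomial.X (i, l) : MvPolynomial (Fin n × Fin 3) Qb) (if i = i' then 1 else 0) :=
      fun l => MvPolynomial.isWeightedHomogeneous_X Qb _ (i, l)
    have h2 : ∀ (c : Qb) (l : Fin 3), MvPolynomial.IsWeightedHomogeneous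
        (fun p : Fin n × Fin 3 => if p.1 = i' then 1 else 0)
        (MvPolynomial.C c * MvPolynomial.X (i, l) : MvPolynomial (Fin n × Fin 3) Qb)
        (if i = i' then 1 else 0) := by
      intro c l
      have := (MvPolynomial.isWeightedHomogeneous_C
        (fun p : Fin n × Fin 3 => if p.1 = i' then 1 else 0) c).mul (h1 l)
      rwa [zero_add] at this
    rw [sub_eq_add_neg, ← neg_mul, ← map_neg]
    exact (h2 _ j).add (h2 _ k)
  · ext x
    simp only [Set.mem_singleton_iff, Set.mem_ofPred_eq]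
    constructor
    · rintro rfl _ ⟨i, j, k, rfl⟩
      unfold value
      simp only [map_sub, map_mul, MvPolynomial.eval_C, MvPolynomial.eval_X]
      ring
    · intro h
      funext i
      apply eq_of_minors
      intro j k
      have := h _ ⟨i, j, k, rfl⟩
      unfold value at this
      simp only [map_sub, map_mul, MvPolynomial.eval_C, MvPolynomial.eval_X] at this
      linear_combination this

lemma isZClosed_empty : IsZClosed (∅ : Set (Fin n → EPt a b)) :=
  ⟨{1}, by
    rintro f rfl
    exact ⟨0, fun i => MvPolynomial.isWeightedHomogeneous_one _ _⟩, by ext x; simp [value]⟩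

lemma isZClosed_of_finite {Z : Set (Fin n → EPt a b)} (hZ : Z.Finite) : IsZClosed Z := by
  induction Z, hZ using Set.Finite.induction_on with
  | empty => exact isZClosed_empty
  | insert _ _ ih =>
    rw [Set.insert_eq]
    exact (isZClosed_singleton _).union ih

lemma isSubvariety_singleton (P : Fin n → EPt a b) : IsSubvariety ({P} : Set (Fin n → EPt a b)) :=
  ⟨isZClosed_singleton P, Set.singleton_nonempty P, fun A B _ _ h => by simpa using h⟩

lemma subvariety_of_finite {W : Set (Fin n → EPt a b)} (hW : IsSubvariety W) (hfin : W.Finite) :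
    ∃ P, W = {P} := by
  obtain ⟨P, hP⟩ := hW.2.1
  refine ⟨P, ?_⟩
  have h := hW.2.2 {P} (W \ {P}) (isZClosed_singleton P)
    (isZClosed_of_finite (hfin.subset Set.sdiff_subset)) (by
      intro x hx
      by_cases h : x = P
      · left; exact h
      · right; exact ⟨hx, h⟩)
  rcases h with h | h
  · exact Set.Subset.antisymm h (by rintro x rfl; exact hP)
  · exact absurd (h hP).2 (by simp)

lemma hasDim_singleton (P : Fin n → EPt a b) : HasDim ({P} : Set (Fin n → EPt a b)) 0 := by
  unfold HasDim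
  let U : Unique {W : Set (Fin n → EPt a b) // IsSubvariety W ∧ W ⊆ {P}} :=
    { default := ⟨{P}, isSubvariety_singleton P, le_rfl⟩
      uniq := by
        rintro ⟨W, hW, hWP⟩
        apply Subtype.ext
        show W = {P}
        rcases Set.subset_singleton_iff_eq.1 hWP with h | h
        · exact absurd h hW.2.1.ne_empty
        · exact h }
  rw [Order.krullDim_eq_zero_of_unique]
  rfl

lemma isEquidim_of_finite {Z : Set (Fin n → EPt a b)} (hZ : Z.Finite) : IsEquidim Z 0 := by
  intro W hW hWZ _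
  obtain ⟨P, rfl⟩ := subvariety_of_finite hW (hZ.subset hWZ)
  exact hasDim_singleton P

lemma hilb_le_of_finite {Z : Set (Fin n → EPt a b)} (hZ : Z.Finite) (N : ℕ) :
    hilb Z N ≤ Z.ncard := by
  unfold hilb
  have : Fintype Z := hZ.fintype
  unfold Set.finrank
  refine (Submodule.finrank_le _).trans ?_
  rw [Module.finrank_fintype_fun_eq_card, Set.ncard_eq_toFinset_card' Z, Set.toFinset_card]

lemma degree_nonneg (Z : Set (Fin n → EPt a b)) (d : ℕ) : 0 ≤ degree Z d := by
  unfold degree
  rw [Filter.limsup_eq]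
  apply Real.sInf_nonneg
  rintro a ha
  obtain ⟨N, hN⟩ := (Filter.eventually_atTop.1 ha)
  exact le_trans (by positivity) (hN N le_rfl)

lemma degree_le_of_finite {Z : Set (Fin n → EPt a b)} (hZ : Z.Finite) :
    degree Z 0 ≤ Z.ncard := by
  unfold degree
  rw [Filter.limsup_eq]
  apply csInf_le
  · refine ⟨0, ?_⟩
    rintro a ha
    obtain ⟨N, hN⟩ := (Filter.eventually_atTop.1 ha)
    exact le_trans (by positivity) (hN N le_rfl)
  · show ∀ᶠ N in Filter.atTop, _
    refine Filter.Eventually.of_forall fun N => ?_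
    simp only [Nat.factorial_zero, Nat.cast_one, one_mul, pow_zero, div_one]
    exact_mod_cast hilb_le_of_finite hZ N

/-- a finite set of points defined over `L` bounds the obstruction index -/
lemma obstruction_le {L : IntermediateField ℚ Qb} {V Z : Set (Fin n → EPt a b)}
    (huniv : (Set.univ : Set (Fin n → EPt a b)).Infinite) (hZ : Z.Finite)
    (hL : IsClosedOver L Z) (hV : V ⊆ Z) :
    obstruction L V ≤ (Z.ncard : ℝ) ^ (1 / (n : ℝ)) := by
  unfold obstruction
  have h1 : sInf {w : ℝ | ∃ (Z : Set (Fin n → EPt a b)) (d : ℕ), Z ≠ Set.univ ∧ IsClosedOver L Z ∧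
      IsEquidim Z d ∧ V ⊆ Z ∧ w = degree Z d ^ (1 / ((n : ℝ) - (d : ℝ)))} ≤
      degree Z 0 ^ (1 / ((n : ℝ) - ((0 : ℕ) : ℝ))) := by
    apply csInf_le
    · refine ⟨0, ?_⟩
      rintro w ⟨Z, d, _, _, _, _, rfl⟩
      exact Real.rpow_nonneg (degree_nonneg Z d) _
    · refine ⟨Z, 0, ?_, hL, isEquidim_of_finite hZ, hV, rfl⟩
      intro h
      exact huniv (h ▸ hZ)
  refine h1.trans ?_
  rw [Nat.cast_zero, sub_zero]
  exact Real.rpow_le_rpow (degree_nonneg Z 0) (degree_le_of_finite hZ) (by positivity)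

/-- the essential minimum of a point is its height -/
lemma essMin_singleton (P : Fin n → EPt a b) : essMin ({P} : Set (Fin n → EPt a b)) = hG P := by
  have h : {θ : ℝ | ∀ W : Set (Fin n → EPt a b), IsZClosed W →
      {x | x ∈ ({P} : Set (Fin n → EPt a b)) ∧ hG x ≤ θ} ⊆ W →
        ({P} : Set (Fin n → EPt a b)) ⊆ W} = Set.Ici (hG P) := by
    ext θ
    simp only [Set.mem_ofPred_eq, Set.mem_Ici]
    constructor
    · intro h
      by_contra hcon
      have h1 := h ∅ isZClosed_empty (by
        rintro x ⟨hx, hx2⟩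
        rw [Set.mem_singleton_iff] at hx
        subst hx
        exact hcon hx2)
      exact h1 rfl
    · intro h W _ hW x hx
      rw [Set.mem_singleton_iff] at hx
      subst hx
      exact hW ⟨rfl, h⟩
  unfold essMin
  rw [h, csInf_Ici]

/-- Galois descent: a closed set which is stable under the automorphisms over `L` is defined
over `L` -/
lemma closedOver_of_stable (hD : S_DSC) {L : IntermediateField ℚ Qb} {Z : Set (Fin n → EPt a b)}
    (hZ : IsZClosed Z)
    (hst : ∀ σ : Qb ≃ₐ[L] Qb, ∀ Q ∈ Z, ∃ Q' ∈ Z, ∀ i j, homog (Q' i) j = σ (homog (Q i) j)) :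
    IsClosedOver L Z := by
  obtain ⟨S, hS, hZS⟩ := hZ
  refine ⟨{f | (∃ d, MultiHomog f d) ∧ (∀ u, f.coeff u ∈ L) ∧ ∀ P ∈ Z, value f P = 0},
    fun f hf => hf.1, fun f hf => hf.2.1, ?_⟩
  ext Q
  simp only [Set.mem_ofPred_eq]
  constructor
  · intro hQ f hf
    exact hf.2.2 Q hQ
  · intro h
    by_contra hQ
    have hQ' : ∃ g ∈ S, value g Q ≠ 0 := by
      by_contra hcon
      push Not at hcon
      exact hQ (by rw [hZS]; exact hcon)
    obtain ⟨g, hg, hgQ⟩ := hQ'
    obtain ⟨d, hd⟩ := hS g hg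
    obtain ⟨f, s, c, hfL, hfQ, hf⟩ := hD (Fin n × Fin 3) L g _ hgQ
    refine hfQ (h f ⟨⟨d, ?_⟩, hfL, ?_⟩)
    · intro i
      rw [hf]
      refine MvPolynomial.IsWeightedHomogeneous.sum _ _ _ fun σ _ => ?_
      have h1 : MvPolynomial.IsWeightedHomogeneous
          (fun p : Fin n × Fin 3 => if p.1 = i then 1 else 0)
          (MvPolynomial.map ((σ : Qb ≃+* Qb) : Qb →+* Qb) g) (d i) := by
        intro u hu
        apply hd i
        intro h0
        apply hu
        rw [MvPolynomial.coeff_map, h0, map_zero]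
      have h2 := (MvPolynomial.isWeightedHomogeneous_C
        (fun p : Fin n × Fin 3 => if p.1 = i then 1 else 0) (c σ)).mul h1
      rwa [zero_add] at h2
    · intro P hP
      unfold value
      rw [hf, map_sum]
      refine Finset.sum_eq_zero fun σ _ => ?_
      rw [map_mul]
      obtain ⟨P', hP', hPP⟩ := hst σ.symm P hP
      have h0 : value g P' = 0 := by
        have : P' ∈ Z := hP'
        rw [hZS] at this
        exact this g hg
      have h1 : (fun p : Fin n × Fin 3 => homog (P p.1) p.2) =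
          ((σ : Qb ≃+* Qb) : Qb →+* Qb) ∘ (fun p : Fin n × Fin 3 => homog (P' p.1) p.2) := by
        funext p
        show homog (P p.1) p.2 = σ (homog (P' p.1) p.2)
        rw [hPP, AlgEquiv.apply_symm_apply]
      rw [h1, MvPolynomial.eval_map]
      have h2 := MvPolynomial.eval₂_comp_left ((σ : Qb ≃+* Qb) : Qb →+* Qb) (RingHom.id Qb)
        (fun p : Fin n × Fin 3 => homog (P' p.1) p.2) g
      rw [RingHom.comp_id] at h2
      rw [← h2]
      have h3 : MvPolynomial.eval₂ (RingHom.id Qb) (fun p : Fin n × Fin 3 => homog (P' p.1) p.2) g =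
          0 := h0
      rw [h3, map_zero, mul_zero]

/-- if there are `Γ`-transverse points for which the product of their height and of the `n`-th root of
their degree over `K(Γ)` is arbitrarily small, then `Γ` is not a Lehmer group -/
theorem not_isLehmerGroup (hD : S_DSC) (hO : S_ORB)
    (huniv : (Set.univ : Set (Fin n → EPt a b)).Infinite) (hnn : ∀ P : EPt a b, 0 ≤ ht P)
    {O : Subring (AddMonoid.End (EPt a b))} {K : IntermediateField ℚ Qb} (ha : a ∈ K) (hb : b ∈ K)
    {Γ : AddSubgroup (Fin n → EPt a b)}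
    (h : ∀ c : ℝ, 0 < c → ∃ P : Fin n → EPt a b, IsTransverse O Γ {P} ∧
      ((Module.finrank (coordField K Γ) (IntermediateField.adjoin (coordField K Γ)
        (⋃ i, coords (P i))) : ℕ) : ℝ) ^ (1 / (n : ℝ)) * ∑ i, ht (P i) < c) :
    ¬ IsLehmerGroup O K Γ := by
  rintro ⟨c, hc, hL⟩
  obtain ⟨P, hP, hlt⟩ := h (c / 3) (by positivity)
  have hKL : K ≤ coordField K Γ := le_sup_left
  obtain ⟨Z, hZ, hPZ, hcard, hst⟩ := hO a b n (coordField K Γ) (hKL ha) (hKL hb) P
  have h1 := hL {P} (isSubvariety_singleton P) (by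
    intro h
    exact huniv (h ▸ Set.finite_singleton P)) hP
  rw [essMin_singleton] at h1
  have h2 := obstruction_le huniv hZ
    (closedOver_of_stable hD (isZClosed_of_finite hZ) hst) (Set.singleton_subset_iff.2 hPZ)
  have hs : 0 ≤ ∑ i, ht (P i) := Finset.sum_nonneg fun i _ => hnn _
  have h4 : (Z.ncard : ℝ) ^ (1 / (n : ℝ)) ≤
      ((Module.finrank (coordField K Γ) (IntermediateField.adjoin (coordField K Γ)
        (⋃ i, coords (P i))) : ℕ) : ℝ) ^ (1 / (n : ℝ)) :=
    Real.rpow_le_rpow (by positivity) (by exact_mod_cast hcard) (by positivity)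
  have h3 := mul_le_mul_of_nonneg_right (h2.trans h4) hs
  unfold hG at h1
  have h5 : obstruction (coordField K Γ) {P} * (3 * ∑ i, ht (P i)) =
      3 * (obstruction (coordField K Γ) {P} * ∑ i, ht (P i)) := by ring
  rw [h5] at h1
  linarith

end Pool.Agent.Helper62.RE
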