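import Pool.Agent.Helper62.RE.Base

set_option autoImplicit false

/-!
# Functions with the parallelogram law
-/

namespace Pool.Agent.Helper62.RE.Hts

variable {M : Type} [AddCommGroup M] {f : M → ℝ}

lemma f_zero (hp : ∀ P Q : M, f (P + Q) + f (P - Q) = 2 * (f P + f Q)) : f 0 = 0 := by
  have := hp 0 0
  rw [add_zero, sub_zero] at this
  linarith

lemma f_neg (hp : ∀ P Q : M, f (P + Q) + f (P - Q) = 2 * (f P + f Q)) (P : M) : f (-P) = f P := by
  have := hp 0 P
  rw [zero_add, zero_sub, f_zero hp] at this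
  linarith

lemma f_add_le (hp : ∀ P Q : M, f (P + Q) + f (P - Q) = 2 * (f P + f Q)) (h0 : ∀ P, 0 ≤ f P)
    (P Q : M) : f (P + Q) ≤ 2 * (f P + f Q) := by
  have := hp P Q
  have := h0 (P - Q)
  linarith

lemma f_sub_le (hp : ∀ P Q : M, f (P + Q) + f (P - Q) = 2 * (f P + f Q)) (h0 : ∀ P, 0 ≤ f P)
    (P Q : M) : f (P - Q) ≤ 2 * (f P + f Q) := by
  have := hp P Q
  have := h0 (P + Q)
  linarith

lemma f_nsmul_aux (hp : ∀ P Q : M, f (P + Q) + f (P - Q) = 2 * (f P + f Q)) (P : M) (m : ℕ) :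
    f (m • P) = (m : ℝ) ^ 2 * f P ∧ f ((m + 1) • P) = ((m : ℝ) + 1) ^ 2 * f P := by
  induction m with
  | zero =>
    refine ⟨?_, ?_⟩
    · rw [zero_smul, f_zero hp]
      simp
    · rw [zero_add, one_smul]
      simp
  | succ m ih =>
    refine ⟨?_, ?_⟩
    · rw [ih.2]
      push_cast
      ring
    · have h := hp ((m + 1) • P) P
      have e1 : (m + 1) • P + P = (m + 1 + 1) • P := (succ_nsmul _ _).symm
      have e2 : (m + 1) • P - P = m • P := by rw [succ_nsmul, add_sub_cancel_right]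
      rw [e1, e2, ih.1, ih.2] at h
      push_cast
      linear_combination h

lemma f_nsmul (hp : ∀ P Q : M, f (P + Q) + f (P - Q) = 2 * (f P + f Q)) (P : M) (m : ℕ) :
    f (m • P) = (m : ℝ) ^ 2 * f P := (f_nsmul_aux hp P m).1

lemma f_zsmul (hp : ∀ P Q : M, f (P + Q) + f (P - Q) = 2 * (f P + f Q)) (P : M) (m : ℤ) :
    f (m • P) = |(m : ℝ)| ^ 2 * f P := by
  rw [sq_abs]
  rcases Int.eq_nat_or_neg m with ⟨k, rfl | rfl⟩
  · rw [natCast_zsmul, f_nsmul hp]
    push_cast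
    rfl
  · rw [neg_smul, f_neg hp, natCast_zsmul, f_nsmul hp]
    push_cast
    ring

lemma f_sum_le (hp : ∀ P Q : M, f (P + Q) + f (P - Q) = 2 * (f P + f Q)) (h0 : ∀ P, 0 ≤ f P)
    {ι : Type} (s : Finset ι) (x : ι → M) :
    f (∑ i ∈ s, x i) ≤ 2 ^ s.card * ∑ i ∈ s, f (x i) := by
  classical
  induction s using Finset.induction_on with
  | empty => rw [Finset.sum_empty, f_zero hp]; simp
  | insert i s hi ih =>
    rw [Finset.sum_insert hi, Finset.sum_insert hi, Finset.card_insert_of_notMem hi, pow_succ]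
    have h1 := f_add_le hp h0 (x i) (∑ j ∈ s, x j)
    have h2 : (1 : ℝ) ≤ 2 ^ s.card := one_le_pow₀ (by norm_num)
    have h3 := h0 (x i)
    nlinarith

end Pool.Agent.Helper62.RE.Hts
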