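import Pool.Agent.Helper62.RE.Rat
import Pool.Agent.Helper62.RE.Hts
import Pool.Agent.Helper62.RE.Geo

set_option autoImplicit false

/-!
# The construction for powers of elliptic curves
-/

namespace Pool.Agent.Helper62.RE

open scoped TensorProduct Classical
open Pool.Agent.Helper62.RE.Hts

variable {a b : Qb}

/-- the properties of the endomorphism ring of an elliptic curve which are used: it is commutative and
finitely generated as a group, and every `x ≠ 0` has a multiple `y x` which is the multiplication by a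
positive integer (`y` the dual isogeny) -/
def IsEndRing (O : Subring (AddMonoid.End (EPt a b))) : Prop :=
  (∀ x ∈ O, ∀ y ∈ O, x * y = y * x) ∧
  (∀ x ∈ O, x ≠ 0 → ∃ y ∈ O, ∃ N : ℕ, 0 < N ∧ y * x = (N : AddMonoid.End (EPt a b))) ∧
  ∃ B : Set (AddMonoid.End (EPt a b)), B.Finite ∧ ∀ x ∈ O, x ∈ AddSubgroup.closure B

section Trans

variable {M : Type} [AddCommGroup M] {r : ℕ}

/-- the elements with a positive multiple in `D` -/
def satu (D : AddSubgroup M) : AddSubgroup M where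
  carrier := {x | ∃ m : ℕ, 0 < m ∧ m • x ∈ D}
  zero_mem' := ⟨1, one_pos, by rw [smul_zero]; exact zero_mem _⟩
  add_mem' := by
    rintro x y ⟨m, hm, hx⟩ ⟨k, hk, hy⟩
    refine ⟨m * k, Nat.mul_pos hm hk, ?_⟩
    rw [smul_add]
    refine add_mem ?_ ?_
    · rw [mul_comm, mul_smul]
      exact nsmul_mem hx k
    · rw [mul_smul]
      exact nsmul_mem hy m
  neg_mem' := by
    rintro x ⟨m, hm, hx⟩
    exact ⟨m, hm, by rw [smul_neg]; exact neg_mem hx⟩

lemma mem_satu {D : AddSubgroup M} {x : M} : x ∈ satu D ↔ ∃ m : ℕ, 0 < m ∧ m • x ∈ D := Iff.rfl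

lemma satu_of_nsmul {D : AddSubgroup M} {x : M} {m : ℕ} (hm : 0 < m) (h : m • x ∈ satu D) :
    x ∈ satu D := by
  obtain ⟨k, hk, h⟩ := h
  refine ⟨k * m, Nat.mul_pos hk hm, ?_⟩
  rwa [mul_smul]

/-- the coordinates of the points -/
noncomputable def mkPt (i₀ : Fin (r + 1)) (v : Fin (r + 1) → ℤ) (R : Fin r → M) (z : M) :
    Fin (r + 1) → M :=
  i₀.insertNth (z - ∑ j, v (i₀.succAbove j) • R j) (fun j => v i₀ • R j)

lemma mkPt_same (i₀ : Fin (r + 1)) (v : Fin (r + 1) → ℤ) (R : Fin r → M) (z : M) :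
    mkPt i₀ v R z i₀ = z - ∑ j, v (i₀.succAbove j) • R j := by
  unfold mkPt
  rw [Fin.insertNth_apply_same]

lemma mkPt_succAbove (i₀ : Fin (r + 1)) (v : Fin (r + 1) → ℤ) (R : Fin r → M) (z : M)
    (j : Fin r) : mkPt i₀ v R z (i₀.succAbove j) = v i₀ • R j := by
  unfold mkPt
  rw [Fin.insertNth_apply_succAbove]

lemma sum_mkPt (i₀ : Fin (r + 1)) (v : Fin (r + 1) → ℤ) (R : Fin r → M) (z : M)
    (w : Fin (r + 1) → AddMonoid.End M) :
    ∑ i, w i (mkPt i₀ v R z i) = w i₀ z +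
      ∑ j, (v i₀ • w (i₀.succAbove j) - v (i₀.succAbove j) • w i₀) (R j) := by
  rw [Fin.sum_univ_succAbove _ i₀, mkPt_same, map_sub, map_sum]
  have h1 : ∀ j, (v i₀ • w (i₀.succAbove j) - v (i₀.succAbove j) • w i₀) (R j) =
      w (i₀.succAbove j) (v i₀ • R j) - w i₀ (v (i₀.succAbove j) • R j) := by
    intro j
    rw [map_zsmul, map_zsmul]
    rfl
  have h2 : ∀ j, w (i₀.succAbove j) (mkPt i₀ v R z (i₀.succAbove j)) =
      w (i₀.succAbove j) (v i₀ • R j) := fun j => by rw [mkPt_succAbove]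
  rw [Finset.sum_congr rfl fun j _ => h1 j, Finset.sum_sub_distrib,
    Finset.sum_congr rfl fun j _ => h2 j]
  abel

/-- transversality -/
theorem trans_aux (O : Subring (AddMonoid.End M))
    (hdual : ∀ x ∈ O, x ≠ 0 → ∃ y ∈ O, ∃ N : ℕ, 0 < N ∧ y * x = (N : AddMonoid.End M))
    (hnt : ∃ R : M, ∀ m : ℕ, 0 < m → m • R ≠ 0)
    (Γ : AddSubgroup (Fin (r + 1) → M)) (i₀ : Fin (r + 1)) (v : Fin (r + 1) → ℤ)
    (hv : v i₀ ≠ 0) (F : Set M)
    (hF : ∀ y ∈ coordGroup Γ, ∃ m : ℕ, 0 < m ∧ m • y ∈ AddSubgroup.closure F)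
    (S : Fin r → M)
    (hS : ∀ w : Fin r → AddMonoid.End M, (∀ j, w j ∈ O) → ∀ y : M, (∃ m : ℕ, 0 < m ∧ m • y ∈
      AddSubgroup.closure {z | ∃ x ∈ O, ∃ f ∈ F, z = x f}) → ∑ j, w j (S j) = y → w = 0)
    (D : ℕ) (hD : 0 < D) (R : Fin r → M) (hR : ∀ j, D • R j = S j) (z : M)
    (hz : z ∈ coordGroup Γ) (hzv : ∀ m : ℕ, 0 < m → ∀ γ ∈ Γ, m • z ≠ ∑ i, v i • γ i)
    (w : Fin (r + 1) → AddMonoid.End M) (hwO : ∀ i, w i ∈ O) (hw : w ≠ 0)
    (γ : Fin (r + 1) → M) (hγ : ∃ m : ℕ, 0 < m ∧ m • γ ∈ Γ) :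
    ∑ i, w i (mkPt i₀ v R z i) ≠ ∑ i, w i (γ i) := by
  intro heq
  rw [sum_mkPt] at heq
  obtain ⟨m₀, hm₀, hγ⟩ := hγ
  -- multiplication by nonzero integers is not zero
  have hint : ∀ k : ℤ, k ≠ 0 → ∀ x ∈ O, k • x = 0 → x = 0 := by
    intro k hk x hx hkx
    by_contra hx0
    obtain ⟨y, -, N, hN, hyN⟩ := hdual x hx hx0
    obtain ⟨R₀, hR₀⟩ := hnt
    have h1 : k • ((N : AddMonoid.End M) R₀) = 0 := by
      rw [← hyN]
      show k • (y (x R₀)) = 0
      rw [← map_zsmul]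
      have : k • (x R₀) = (k • x) R₀ := rfl
      rw [this, hkx]
      exact map_zero y
    have h2 : (N : AddMonoid.End M) R₀ = N • R₀ := rfl
    rw [h2, ← natCast_zsmul, smul_smul] at h1
    have h3 : (k * N).natAbs • R₀ = 0 := by
      rcases Int.natAbs_eq (k * N) with h | h
      · rw [h, natCast_zsmul] at h1
        exact h1
      · rw [h, neg_smul, natCast_zsmul, neg_eq_zero] at h1
        exact h1
    exact hR₀ _ (Int.natAbs_pos.2 (mul_ne_zero hk (by exact_mod_cast hN.ne'))) h3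
  set Dg : AddSubgroup M := AddSubgroup.closure {z | ∃ x ∈ O, ∃ f ∈ F, z = x f} with hDg
  -- images of elements of the coordinate group
  have hcl : ∀ x ∈ O, ∀ y ∈ AddSubgroup.closure F, x y ∈ Dg := by
    intro x hx y hy
    induction hy using AddSubgroup.closure_induction with
    | mem f hf => exact AddSubgroup.subset_closure ⟨x, hx, f, hf, rfl⟩
    | zero => rw [map_zero]; exact zero_mem _
    | add y y' _ _ h h' => rw [map_add]; exact add_mem h h'
    | neg y _ h => rw [map_neg]; exact neg_mem h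
  have him : ∀ x ∈ O, ∀ y ∈ coordGroup Γ, x y ∈ satu Dg := by
    intro x hx y hy
    obtain ⟨m, hm, hmy⟩ := hF y hy
    refine ⟨m, hm, ?_⟩
    rw [← map_nsmul]
    exact hcl x hx _ hmy
  have hγi : ∀ x ∈ O, ∀ i, x (γ i) ∈ satu Dg := by
    intro x hx i
    apply satu_of_nsmul hm₀
    rw [← map_nsmul]
    exact him x hx _ (AddSubgroup.subset_closure ⟨_, hγ, i, rfl⟩)
  set u : Fin r → AddMonoid.End M :=
    fun j => v i₀ • w (i₀.succAbove j) - v (i₀.succAbove j) • w i₀ with hu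
  have huO : ∀ j, u j ∈ O := fun j =>
    sub_mem (zsmul_mem (hwO _) _) (zsmul_mem (hwO _) _)
  have h1 : ∑ j, u j (R j) ∈ satu Dg := by
    have : ∑ j, u j (R j) = ∑ i, w i (γ i) - w i₀ z := by
      rw [← heq]
      abel
    rw [this]
    exact sub_mem (sum_mem fun i _ => hγi _ (hwO i) i) (him _ (hwO i₀) z hz)
  have h2 : ∑ j, u j (S j) ∈ satu Dg := by
    have : ∑ j, u j (S j) = D • ∑ j, u j (R j) := by
      rw [Finset.smul_sum]
      refine Finset.sum_congr rfl fun j _ => ?_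
      rw [← hR j, map_nsmul]
    rw [this]
    exact nsmul_mem h1 D
  have h3 : u = 0 := hS u huO _ h2 rfl
  have h4 : ∀ j, v i₀ • w (i₀.succAbove j) = v (i₀.succAbove j) • w i₀ := fun j =>
    sub_eq_zero.1 (congrFun h3 j)
  have h5 : ∀ i, v i₀ • w i = v i • w i₀ := by
    intro i
    rcases Fin.eq_self_or_eq_succAbove i₀ i with h | ⟨j, h⟩
    · rw [h]
    · rw [h]
      exact h4 j
  have hw0 : w i₀ ≠ 0 := by
    intro h
    apply hw
    funext i
    apply hint (v i₀) hv (w i) (hwO i)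
    rw [h5 i, h]
    exact zsmul_zero _
  have h6 : w i₀ z = ∑ i, w i (γ i) := by
    rw [← heq]
    have : ∑ j, (v i₀ • w (i₀.succAbove j) - v (i₀.succAbove j) • w i₀) (R j) = 0 := by
      refine Finset.sum_eq_zero fun j _ => ?_
      have : (v i₀ • w (i₀.succAbove j) - v (i₀.succAbove j) • w i₀) = 0 := congrFun h3 j
      rw [this]
      rfl
    rw [this, add_zero]
  have h7 : w i₀ (v i₀ • z - ∑ i, v i • γ i) = 0 := by
    rw [map_sub, map_zsmul, h6, Finset.smul_sum, map_sum, ← Finset.sum_sub_distrib]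
    refine Finset.sum_eq_zero fun i _ => ?_
    have h8 : v i₀ • (w i (γ i)) = (v i₀ • w i) (γ i) := rfl
    rw [h8, h5 i, map_zsmul]
    exact sub_self _
  obtain ⟨y, -, N, hN, hyN⟩ := hdual _ (hwO i₀) hw0
  have h9 : N • (v i₀ • z - ∑ i, v i • γ i) = 0 := by
    have : (y * w i₀) (v i₀ • z - ∑ i, v i • γ i) = 0 := by
      show y (w i₀ _) = 0
      rw [h7, map_zero]
    rw [hyN] at this
    exact this
  -- a positive multiple of `z` in the image
  have h10 : (N : ℤ) • (m₀ : ℤ) • v i₀ • z = ∑ i, v i • (((N : ℤ) • (m₀ : ℤ) • γ) i) := by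
    have h11 : N • (v i₀ • z) = N • ∑ i, v i • γ i := by
      rwa [smul_sub, sub_eq_zero] at h9
    have h12 : (N : ℤ) • (m₀ : ℤ) • v i₀ • z = (m₀ : ℤ) • (N : ℤ) • v i₀ • z := smul_comm _ _ _
    rw [h12, natCast_zsmul (v i₀ • z) N, h11, ← natCast_zsmul _ N, smul_comm (m₀ : ℤ) (N : ℤ),
      Finset.smul_sum, Finset.smul_sum]
    refine Finset.sum_congr rfl fun i _ => ?_
    rw [Pi.smul_apply, Pi.smul_apply, smul_comm (v i), smul_comm (v i)]
  have hmem : ((N : ℤ) • (m₀ : ℤ) • γ) ∈ Γ := by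
    rw [natCast_zsmul γ m₀]
    exact zsmul_mem hγ _
  rcases lt_or_gt_of_ne hv with hneg | hpos
  · refine hzv (N * m₀ * (v i₀).natAbs)
      (Nat.mul_pos (Nat.mul_pos hN hm₀) (Int.natAbs_pos.2 hv)) _ (neg_mem hmem) ?_
    have e : ((v i₀).natAbs : ℤ) = - v i₀ := by omega
    rw [← natCast_zsmul]
    push_cast
    have e2 : ((N : ℤ) * (m₀ : ℤ) * |v i₀|) = - ((N : ℤ) * ((m₀ : ℤ) * v i₀)) := by
      rw [abs_of_neg hneg]
      ring
    rw [e2, neg_smul, mul_smul, mul_smul, h10, ← Finset.sum_neg_distrib]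
    refine Finset.sum_congr rfl fun i _ => ?_
    rw [Pi.neg_apply, smul_neg]
  · refine hzv (N * m₀ * (v i₀).natAbs)
      (Nat.mul_pos (Nat.mul_pos hN hm₀) (Int.natAbs_pos.2 hv)) _ hmem ?_
    rw [← natCast_zsmul]
    push_cast
    rw [abs_of_pos hpos, mul_assoc, mul_smul, mul_smul, h10]

end Trans

end Pool.Agent.Helper62.RE
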