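import Pool.Agent.Helper62.RE.Core

set_option autoImplicit false

/-!
# Powers of elliptic curves: groups which are not Lehmer groups
-/

namespace Pool.Agent.Helper62.RE

open scoped TensorProduct Classical
open Pool.Agent.Helper62.RE.Hts

variable {a b : Qb}

lemma exists_half (hDBL : S_DBL) (hab : 4 * a ^ 3 + 27 * b ^ 2 ≠ 0) (k : ℕ) :
    ∀ S : EPt a b, ∃ R : EPt a b, (2 ^ k : ℕ) • R = S := by
  induction k with
  | zero => exact fun S => ⟨S, by rw [pow_zero, one_smul]⟩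
  | succ k ih =>
    intro S
    obtain ⟨T, hT⟩ := (hDBL a b hab).1 S
    obtain ⟨R, hR⟩ := ih T
    exact ⟨R, by rw [pow_succ', mul_smul, hR, hT]⟩

lemma exists_nontorsion (hINF : S_INF) (hab : 4 * a ^ 3 + 27 * b ^ 2 ≠ 0) :
    ∃ R : EPt a b, ∀ m : ℕ, 0 < m → m • R ≠ 0 := by
  obtain ⟨R, hR⟩ := hINF a b hab ∅ Set.finite_empty
  refine ⟨R, fun m hm h => hR m hm ?_⟩
  rw [h]
  exact zero_mem _

lemma univ_infinite (hINF : S_INF) (hab : 4 * a ^ 3 + 27 * b ^ 2 ≠ 0) {n : ℕ} (hn : 1 ≤ n) :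
    (Set.univ : Set (Fin n → EPt a b)).Infinite := by
  rw [Set.infinite_univ_iff]
  obtain ⟨R, hR⟩ := exists_nontorsion hINF hab
  have : Infinite (EPt a b) := by
    refine Infinite.of_injective (fun k : ℕ => k • R) fun k l hkl => ?_
    have hkl' : k • R = l • R := hkl
    by_contra hne
    rcases lt_or_gt_of_ne hne with h | h
    · refine hR (l - k) (by omega) ?_
      rw [sub_nsmul R h.le, hkl']
      abel
    · refine hR (k - l) (by omega) ?_
      rw [sub_nsmul R h.le, hkl']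
      abel
  have : Nonempty (Fin n) := ⟨⟨0, hn⟩⟩
  exact Function.infinite_of_right

lemma degree_le {r : ℕ} {K : IntermediateField ℚ Qb} (ha : a ∈ K) (hb : b ∈ K)
    {Γ : AddSubgroup (Fin (r + 1) → EPt a b)} (i₀ : Fin (r + 1)) (v : Fin (r + 1) → ℤ)
    (R : Fin r → EPt a b) (z : EPt a b) (hz : z ∈ coordGroup Γ)
    (hfd : FiniteDimensional (coordField K Γ)
      (IntermediateField.adjoin (coordField K Γ) (⋃ j, coords (R j)))) :
    Module.finrank (coordField K Γ) (IntermediateField.adjoin (coordField K Γ)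
      (⋃ i, coords (mkPt i₀ v R z i))) ≤
    Module.finrank (coordField K Γ) (IntermediateField.adjoin (coordField K Γ)
      (⋃ j, coords (R j))) := by
  set L := coordField K Γ with hL
  have hKL : K ≤ L := le_sup_left
  set F' := IntermediateField.adjoin L (⋃ j, coords (R j)) with hF'
  have hLF : ∀ x ∈ L, x ∈ F' := fun x hx => F'.algebraMap_mem (⟨x, hx⟩ : L)
  obtain ⟨G, hG⟩ := Rat.exists_group (a := a) (b := b) (F'.restrictScalars ℚ)
    (hLF _ (hKL ha)) (hLF _ (hKL hb))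
  have hcG : coordGroup Γ ≤ G := by
    unfold coordGroup
    rw [AddSubgroup.closure_le]
    rintro y ⟨g, hg, i, rfl⟩
    show g i ∈ G
    rw [hG]
    intro c hc
    apply hLF
    exact (le_sup_right : _ ≤ L) (IntermediateField.subset_adjoin ℚ _ ⟨g, hg, i, hc⟩)
  have hRG : ∀ j, R j ∈ G := by
    intro j
    rw [hG]
    intro c hc
    exact IntermediateField.subset_adjoin L _ (Set.mem_iUnion.2 ⟨j, hc⟩)
  have hPG : ∀ i, mkPt i₀ v R z i ∈ G := by
    intro i
    rcases Fin.eq_self_or_eq_succAbove i₀ i with h | ⟨j, h⟩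
    · rw [h, mkPt_same]
      exact sub_mem (hcG hz) (sum_mem fun j _ => zsmul_mem (hRG j) _)
    · rw [h, mkPt_succAbove]
      exact zsmul_mem (hRG j) _
  have hle : IntermediateField.adjoin L (⋃ i, coords (mkPt i₀ v R z i)) ≤ F' := by
    rw [IntermediateField.adjoin_le_iff]
    intro c hc
    obtain ⟨i, hi⟩ := Set.mem_iUnion.1 hc
    exact (hG _).1 (hPG i) hi
  exact LinearMap.finrank_le_finrank_of_injective
    (f := (IntermediateField.inclusion hle).toLinearMap)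
    (IntermediateField.inclusion_injective hle)

/-- **The main construction.** -/
theorem not_lehmer_of_small (hHT : S_HT) (hDBL : S_DBL) (hINF : S_INF) (hDEG : S_DEG) (hFG : S_FG)
    (hIND : S_IND) (hDSC : S_DSC) (hORB : S_ORB)
    (hab : 4 * a ^ 3 + 27 * b ^ 2 ≠ 0) {n : ℕ} (hn : 1 ≤ n)
    {O : Subring (AddMonoid.End (EPt a b))} (hO : IsEndRing O) {K : IntermediateField ℚ Qb}
    (ha : a ∈ K) (hb : b ∈ K) {Γ : AddSubgroup (Fin n → EPt a b)} (hfin : FinRk Γ)
    (v : Fin n → ℤ) (hv : v ≠ 0)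
    (hsm : ∀ ε : ℝ, 0 < ε → ∃ z ∈ coordGroup Γ, ht z < ε ∧
      ∀ m : ℕ, 0 < m → ∀ γ ∈ Γ, m • z ≠ ∑ i, v i • γ i) : ¬ IsLehmerGroup O K Γ := by
  obtain ⟨i₀, hi₀⟩ : ∃ i, v i ≠ 0 := by
    by_contra hcon
    push Not at hcon
    exact hv (funext hcon)
  obtain ⟨r, rfl⟩ : ∃ r, n = r + 1 := ⟨n - 1, by omega⟩
  obtain ⟨-, hpos, hpar⟩ := hHT a b hab
  obtain ⟨F, hFfin, -, hF⟩ := (hFG (EPt a b) (r + 1) Γ).2 hfin
  obtain ⟨S, hS⟩ := hIND (EPt a b) O hO.1 hO.2.1 hO.2.2 (hINF a b hab) F hFfin r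
  obtain ⟨C, hC⟩ := hDEG a b hab r S
  apply not_isLehmerGroup hDSC hORB (univ_infinite hINF hab hn) hpos ha hb
  intro c hc
  set A : ℝ := ∑ j, (2 ^ (r + 1) * |((v (i₀.succAbove j) : ℤ) : ℝ)| ^ 2 +
    |((v i₀ : ℤ) : ℝ)| ^ 2) * ht (S j) with hA
  have hA0 : 0 ≤ A := Finset.sum_nonneg fun j _ => mul_nonneg (by positivity) (hpos _)
  obtain ⟨l, hl⟩ := pow_unbounded_of_one_lt (2 * ((C : ℝ) + 1) * A / c) (by norm_num : (1 : ℝ) < 4)
  set k := (r + 1) * l with hk
  choose R hR using fun j => exists_half hDBL hab k (S j)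
  have hC1 : (0 : ℝ) < (C : ℝ) + 1 := by positivity
  have h4 : (0 : ℝ) < (4 : ℝ) ^ (l * r) := by positivity
  have h4l : (0 : ℝ) < (4 : ℝ) ^ l := by positivity
  obtain ⟨z, hz, hzε, hzv⟩ := hsm (c / (4 * (((C : ℝ) + 1) * 4 ^ (l * r)))) (by positivity)
  refine ⟨mkPt i₀ v R z, ?_, ?_⟩
  · intro w hwO hw γ hγ hsub
    exact trans_aux O hO.2.1 (exists_nontorsion hINF hab) Γ i₀ v hi₀ F hF S hS (2 ^ k)
      (by positivity) R hR z hz hzv w hwO hw γ hγ (hsub rfl)
  · obtain ⟨hfd, hdeg⟩ := hC (coordField K Γ) ((le_sup_left : K ≤ _) ha)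
      ((le_sup_left : K ≤ _) hb) k R hR
    have hd := (degree_le ha hb i₀ v R z hz hfd).trans hdeg
    set Dg := Module.finrank (coordField K Γ) (IntermediateField.adjoin (coordField K Γ)
      (⋃ i, coords (mkPt i₀ v R z i))) with hDg
    -- the height
    have hRS : ∀ j, ht (R j) = ht (S j) / (4 ^ (l * r) * 4 ^ l) := by
      intro j
      have h1 := f_nsmul hpar (R j) (2 ^ k)
      rw [hR j] at h1
      have h2 : (((2 ^ k : ℕ) : ℝ)) ^ 2 = 4 ^ (l * r) * 4 ^ l := by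
        rw [hk, ← pow_add]
        push_cast
        rw [← pow_mul, mul_comm ((r + 1) * l) 2, pow_mul]
        norm_num
        ring
      rw [h1, h2]
      field_simp
    have hht : ∑ i, ht (mkPt i₀ v R z i) ≤ 2 * ht z + A / (4 ^ (l * r) * 4 ^ l) := by
      rw [Fin.sum_univ_succAbove _ i₀, mkPt_same]
      have h1 := f_sub_le hpar hpos z (∑ j, v (i₀.succAbove j) • R j)
      have h2 := f_sum_le hpar hpos Finset.univ fun j => v (i₀.succAbove j) • R j
      rw [Finset.card_univ, Fintype.card_fin] at h2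
      have h3 : ∀ j, ht (v (i₀.succAbove j) • R j) =
          |((v (i₀.succAbove j) : ℤ) : ℝ)| ^ 2 * ht (S j) / (4 ^ (l * r) * 4 ^ l) := by
        intro j
        rw [f_zsmul hpar, hRS j, mul_div_assoc]
      have h5 : ∀ j, ht (mkPt i₀ v R z (i₀.succAbove j)) =
          |((v i₀ : ℤ) : ℝ)| ^ 2 * ht (S j) / (4 ^ (l * r) * 4 ^ l) := by
        intro j
        rw [mkPt_succAbove, f_zsmul hpar, hRS j, mul_div_assoc]
      rw [Finset.sum_congr rfl fun j _ => h3 j] at h2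
      rw [Finset.sum_congr rfl fun j _ => h5 j]
      have h6 : A / (4 ^ (l * r) * 4 ^ l) = 2 * (2 ^ r *
          ∑ j, |((v (i₀.succAbove j) : ℤ) : ℝ)| ^ 2 * ht (S j) / (4 ^ (l * r) * 4 ^ l)) +
          ∑ j, |((v i₀ : ℤ) : ℝ)| ^ 2 * ht (S j) / (4 ^ (l * r) * 4 ^ l) := by
        rw [hA, Finset.sum_div, Finset.mul_sum, Finset.mul_sum, ← Finset.sum_add_distrib]
        refine Finset.sum_congr rfl fun j _ => ?_
        rw [pow_succ]
        ring
      rw [h6]
      linarith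
    -- the degree
    have hroot : (Dg : ℝ) ^ (1 / (((r + 1 : ℕ) : ℝ))) ≤ ((C : ℝ) + 1) * 4 ^ (l * r) := by
      have h1 : (Dg : ℝ) ≤ (((C : ℝ) + 1) * 4 ^ (l * r)) ^ (r + 1) := by
        have h2 : (Dg : ℝ) ≤ (C : ℝ) * 4 ^ (k * r) := by exact_mod_cast hd
        refine h2.trans ?_
        rw [mul_pow, ← pow_mul]
        have h3 : k * r = l * r * (r + 1) := by rw [hk]; ring
        rw [h3]
        refine mul_le_mul_of_nonneg_right ?_ (by positivity)
        have h5 : (C : ℝ) + 1 ≤ ((C : ℝ) + 1) ^ (r + 1) :=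
          le_self_pow₀ (by linarith [(Nat.cast_nonneg C : (0 : ℝ) ≤ C)]) (by omega)
        linarith
      calc _ ≤ ((((C : ℝ) + 1) * 4 ^ (l * r)) ^ (r + 1)) ^ (1 / (((r + 1 : ℕ) : ℝ))) :=
            Real.rpow_le_rpow (by positivity) h1 (by positivity)
        _ = ((C : ℝ) + 1) * 4 ^ (l * r) := by
            rw [one_div]
            exact Real.pow_rpow_inv_natCast (by positivity) (by omega)
    have hsum0 : 0 ≤ ∑ i, ht (mkPt i₀ v R z i) := Finset.sum_nonneg fun i _ => hpos _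
    refine lt_of_le_of_lt (mul_le_mul hroot hht hsum0 (by positivity)) ?_
    have e1 : ((C : ℝ) + 1) * 4 ^ (l * r) * (2 * ht z + A / (4 ^ (l * r) * 4 ^ l)) =
        2 * (((C : ℝ) + 1) * 4 ^ (l * r) * ht z) + ((C : ℝ) + 1) * A / 4 ^ l := by
      field_simp
    rw [e1]
    have h6 : ((C : ℝ) + 1) * 4 ^ (l * r) * ht z < c / 4 := by
      rw [lt_div_iff₀ (by positivity)] at hzε
      linarith
    have h7 : ((C : ℝ) + 1) * A / 4 ^ l < c / 2 := by
      rw [div_lt_iff₀ h4l]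
      rw [div_lt_iff₀ hc] at hl
      linarith
    linarith

end Pool.Agent.Helper62.RE
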