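import Pool.Agent.Helper62.RE.Core2
import Pool.Agent.Helper62.RE.Mods4

set_option autoImplicit false

/-!
# The construction with coefficients in the endomorphism ring
-/

namespace Pool.Agent.Helper62.RE

open scoped TensorProduct Classical
open Pool.Agent.Helper62.RE.Hts

variable {a b : Qb}

section Trans

variable {M : Type} [AddCommGroup M] {r : ℕ}

/-- the coordinates of the points -/
noncomputable def mkP (i₀ : Fin (r + 1)) (v : Fin (r + 1) → AddMonoid.End M) (R : Fin r → M)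
    (z : M) : Fin (r + 1) → M :=
  i₀.insertNth (z - ∑ j, v (i₀.succAbove j) (R j)) (fun j => v i₀ (R j))

lemma mkP_same (i₀ : Fin (r + 1)) (v : Fin (r + 1) → AddMonoid.End M) (R : Fin r → M) (z : M) :
    mkP i₀ v R z i₀ = z - ∑ j, v (i₀.succAbove j) (R j) := by
  unfold mkP
  rw [Fin.insertNth_apply_same]

lemma mkP_succAbove (i₀ : Fin (r + 1)) (v : Fin (r + 1) → AddMonoid.End M) (R : Fin r → M)
    (z : M) (j : Fin r) : mkP i₀ v R z (i₀.succAbove j) = v i₀ (R j) := by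
  unfold mkP
  rw [Fin.insertNth_apply_succAbove]

lemma sum_mkP (i₀ : Fin (r + 1)) (v : Fin (r + 1) → AddMonoid.End M) (R : Fin r → M) (z : M)
    (w : Fin (r + 1) → AddMonoid.End M) :
    ∑ i, w i (mkP i₀ v R z i) = w i₀ z +
      ∑ j, (w (i₀.succAbove j) * v i₀ - w i₀ * v (i₀.succAbove j)) (R j) := by
  rw [Fin.sum_univ_succAbove _ i₀, mkP_same, map_sub, map_sum]
  have h1 : ∀ j, (w (i₀.succAbove j) * v i₀ - w i₀ * v (i₀.succAbove j)) (R j) =
      w (i₀.succAbove j) (v i₀ (R j)) - w i₀ (v (i₀.succAbove j) (R j)) := fun j => rfl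
  have h2 : ∀ j, w (i₀.succAbove j) (mkP i₀ v R z (i₀.succAbove j)) =
      w (i₀.succAbove j) (v i₀ (R j)) := fun j => by rw [mkP_succAbove]
  rw [Finset.sum_congr rfl fun j _ => h1 j, Finset.sum_sub_distrib,
    Finset.sum_congr rfl fun j _ => h2 j]
  abel

/-- transversality -/
theorem trans_aux2 (O : Subring (AddMonoid.End M)) (hcomm : ∀ x ∈ O, ∀ y ∈ O, x * y = y * x)
    (hdual : ∀ x ∈ O, x ≠ 0 → ∃ y ∈ O, ∃ N : ℕ, 0 < N ∧ y * x = (N : AddMonoid.End M))
    (hnt : ∃ R : M, ∀ m : ℕ, 0 < m → m • R ≠ 0)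
    (Γ : AddSubgroup (Fin (r + 1) → M)) (i₀ : Fin (r + 1)) (v : Fin (r + 1) → AddMonoid.End M)
    (hvO : ∀ i, v i ∈ O) (hv : v i₀ ≠ 0) (F : Set M)
    (hF : ∀ y ∈ oSpan O Γ, ∃ m : ℕ, 0 < m ∧ m • y ∈ AddSubgroup.closure F)
    (S : Fin r → M)
    (hS : ∀ w : Fin r → AddMonoid.End M, (∀ j, w j ∈ O) → ∀ y : M, (∃ m : ℕ, 0 < m ∧ m • y ∈
      AddSubgroup.closure {z | ∃ x ∈ O, ∃ f ∈ F, z = x f}) → ∑ j, w j (S j) = y → w = 0)
    (D : ℕ) (R : Fin r → M) (hR : ∀ j, D • R j = S j) (z : M)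
    (hz : z ∈ oSpan O Γ) (hzv : ∀ m : ℕ, 0 < m → ∀ γ ∈ Γ, m • (v i₀ z) ≠ ∑ i, v i (γ i))
    (w : Fin (r + 1) → AddMonoid.End M) (hwO : ∀ i, w i ∈ O) (hw : w ≠ 0)
    (γ : Fin (r + 1) → M) (hγ : ∃ m : ℕ, 0 < m ∧ m • γ ∈ Γ) :
    ∑ i, w i (mkP i₀ v R z i) ≠ ∑ i, w i (γ i) := by
  intro heq
  rw [sum_mkP] at heq
  obtain ⟨m₀, hm₀, hγ⟩ := hγ
  -- multiplication by positive integers is injective on `O`
  have hint : ∀ k : ℕ, 0 < k → ∀ x ∈ O, k • x = 0 → x = 0 := by
    intro k hk x hx hkx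
    by_contra hx0
    obtain ⟨y, -, N, hN, hyN⟩ := hdual x hx hx0
    obtain ⟨R₀, hR₀⟩ := hnt
    have h1 : k • ((N : AddMonoid.End M) R₀) = 0 := by
      rw [← hyN]
      show k • (y (x R₀)) = 0
      rw [← map_nsmul]
      have : k • (x R₀) = (k • x) R₀ := rfl
      rw [this, hkx]
      exact map_zero y
    have h2 : (N : AddMonoid.End M) R₀ = N • R₀ := rfl
    rw [h2, smul_smul] at h1
    exact hR₀ _ (Nat.mul_pos hk hN) h1
  set Dg : AddSubgroup M := AddSubgroup.closure {z | ∃ x ∈ O, ∃ f ∈ F, z = x f} with hDg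
  -- images of elements of the module
  have hcl : ∀ x ∈ O, ∀ y ∈ AddSubgroup.closure F, x y ∈ Dg := by
    intro x hx y hy
    induction hy using AddSubgroup.closure_induction with
    | mem f hf => exact AddSubgroup.subset_closure ⟨x, hx, f, hf, rfl⟩
    | zero => rw [map_zero]; exact zero_mem _
    | add y y' _ _ h h' => rw [map_add]; exact add_mem h h'
    | neg y _ h => rw [map_neg]; exact neg_mem h
  have him : ∀ x ∈ O, ∀ y ∈ oSpan O Γ, x y ∈ satu Dg := by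
    intro x hx y hy
    obtain ⟨m, hm, hmy⟩ := hF y hy
    refine ⟨m, hm, ?_⟩
    rw [← map_nsmul]
    exact hcl x hx _ hmy
  have hγi : ∀ x ∈ O, ∀ i, x (γ i) ∈ satu Dg := by
    intro x hx i
    apply satu_of_nsmul hm₀
    rw [← map_nsmul]
    exact him x hx _ (AddSubgroup.subset_closure ⟨1, one_mem _, _, hγ, i, rfl⟩)
  set u : Fin r → AddMonoid.End M :=
    fun j => w (i₀.succAbove j) * v i₀ - w i₀ * v (i₀.succAbove j) with hu
  have huO : ∀ j, u j ∈ O := fun j =>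
    sub_mem (mul_mem (hwO _) (hvO _)) (mul_mem (hwO _) (hvO _))
  have h1 : ∑ j, u j (R j) ∈ satu Dg := by
    have : ∑ j, u j (R j) = ∑ i, w i (γ i) - w i₀ z := by
      rw [← heq]
      abel
    rw [this]
    exact sub_mem (sum_mem fun i _ => hγi _ (hwO i) i) (him _ (hwO i₀) z hz)
  have h2 : ∑ j, u j (S j) ∈ satu Dg := by
    have : ∑ j, u j (S j) = D • ∑ j, u j (R j) := by
      rw [Finset.smul_sum]
      refine Finset.sum_congr rfl fun j _ => ?_
      rw [← hR j, map_nsmul]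
    rw [this]
    exact nsmul_mem h1 D
  have h3 : u = 0 := hS u huO _ h2 rfl
  have h4 : ∀ j, w (i₀.succAbove j) * v i₀ = w i₀ * v (i₀.succAbove j) := fun j =>
    sub_eq_zero.1 (congrFun h3 j)
  have h5 : ∀ i, w i * v i₀ = w i₀ * v i := by
    intro i
    rcases Fin.eq_self_or_eq_succAbove i₀ i with h | ⟨j, h⟩
    · rw [h]
    · rw [h]
      exact h4 j
  have hw0 : w i₀ ≠ 0 := by
    intro h
    apply hw
    funext i
    obtain ⟨y, hy, N, hN, hyN⟩ := hdual _ (hvO i₀) hv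
    apply hint N hN (w i) (hwO i)
    have h6 : w i * v i₀ = 0 := by rw [h5 i, h, zero_mul]
    have h7 : w i * (N : AddMonoid.End M) = 0 := by
      rw [← hyN, hcomm y hy _ (hvO i₀), ← mul_assoc, h6, zero_mul]
    rw [← h7]
    ext x
    show N • (w i x) = w i (N • x)
    rw [map_nsmul]
  have h6 : w i₀ z = ∑ i, w i (γ i) := by
    rw [← heq]
    have : ∑ j, (w (i₀.succAbove j) * v i₀ - w i₀ * v (i₀.succAbove j)) (R j) = 0 := by
      refine Finset.sum_eq_zero fun j _ => ?_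
      have : (w (i₀.succAbove j) * v i₀ - w i₀ * v (i₀.succAbove j)) = 0 := congrFun h3 j
      rw [this]
      rfl
    rw [this, add_zero]
  have h7 : w i₀ (v i₀ z - ∑ i, v i (γ i)) = 0 := by
    have h8 : w i₀ (v i₀ z) = v i₀ (w i₀ z) := by
      have := congrArg (fun f : AddMonoid.End M => f z) (hcomm _ (hwO i₀) _ (hvO i₀))
      exact this
    rw [map_sub, h8, h6, map_sum, map_sum, ← Finset.sum_sub_distrib]
    refine Finset.sum_eq_zero fun i _ => ?_
    have h9 : v i₀ (w i (γ i)) = w i₀ (v i (γ i)) := by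
      have e1 := congrArg (fun f : AddMonoid.End M => f (γ i)) (hcomm _ (hwO i) _ (hvO i₀))
      have e2 := congrArg (fun f : AddMonoid.End M => f (γ i)) (h5 i)
      exact e1.symm.trans e2
    rw [h9, sub_self]
  obtain ⟨y, -, N, hN, hyN⟩ := hdual _ (hwO i₀) hw0
  have h9 : N • (v i₀ z - ∑ i, v i (γ i)) = 0 := by
    have : (y * w i₀) (v i₀ z - ∑ i, v i (γ i)) = 0 := by
      show y (w i₀ _) = 0
      rw [h7, map_zero]
    rw [hyN] at this
    exact this
  rw [smul_sub, sub_eq_zero] at h9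
  refine hzv (m₀ * N) (Nat.mul_pos hm₀ hN) (N • m₀ • γ) (nsmul_mem hγ _) ?_
  rw [mul_smul, h9, smul_comm, Finset.smul_sum, Finset.smul_sum]
  refine Finset.sum_congr rfl fun i _ => ?_
  rw [← map_nsmul, ← map_nsmul]
  rfl

end Trans

/-- heights of images -/
lemma exists_bound {M : Type} [AddCommGroup M] {f : M → ℝ}
    (hp : ∀ P Q : M, f (P + Q) + f (P - Q) = 2 * (f P + f Q)) (h0 : ∀ P, 0 ≤ f P)
    (B : Finset (AddMonoid.End M)) (y : AddMonoid.End M)
    (hy : y ∈ AddSubgroup.closure (B : Set (AddMonoid.End M))) :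
    ∃ C : ℝ, 0 < C ∧ ∀ z, f (y z) ≤ C * ∑ x ∈ B, f (x z) := by
  have hs : ∀ z, 0 ≤ ∑ x ∈ B, f (x z) := fun z => Finset.sum_nonneg fun x _ => h0 _
  induction hy using AddSubgroup.closure_induction with
  | mem x hx =>
    refine ⟨1, one_pos, fun z => ?_⟩
    rw [one_mul]
    exact Finset.single_le_sum (f := fun x : AddMonoid.End M => f (x z)) (fun i _ => h0 _) hx
  | zero =>
    refine ⟨1, one_pos, fun z => ?_⟩
    have : f ((0 : AddMonoid.End M) z) = 0 := f_zero hp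
    rw [this, one_mul]
    exact hs z
  | add x y _ _ hx hy =>
    obtain ⟨C, hC, hx⟩ := hx
    obtain ⟨D, hD, hy⟩ := hy
    refine ⟨2 * (C + D), by positivity, fun z => ?_⟩
    have h1 := f_add_le hp h0 (x z) (y z)
    have h2 : (x + y) z = x z + y z := rfl
    rw [h2]
    have := hx z
    have := hy z
    nlinarith
  | neg x _ hx =>
    obtain ⟨C, hC, hx⟩ := hx
    refine ⟨C, hC, fun z => ?_⟩
    have h2 : (-x) z = -(x z) := rfl
    rw [h2, f_neg hp]
    exact hx z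

lemma degree_le2 {r : ℕ} {O : Subring (AddMonoid.End (EPt a b))} {K₁ : IntermediateField ℚ Qb}
    (hK₁ : DefinedOver O K₁) {K : IntermediateField ℚ Qb} (ha : a ∈ K) (hb : b ∈ K)
    {Γ : AddSubgroup (Fin (r + 1) → EPt a b)} (i₀ : Fin (r + 1))
    (v : Fin (r + 1) → AddMonoid.End (EPt a b)) (hvO : ∀ i, v i ∈ O)
    (R : Fin r → EPt a b) (z : EPt a b) (hz : z ∈ oSpan O Γ)
    (hfd : FiniteDimensional (coordField K Γ)
      (IntermediateField.adjoin (coordField K Γ) ((K₁ : Set Qb) ∪ ⋃ j, coords (R j)))) :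
    Module.finrank (coordField K Γ) (IntermediateField.adjoin (coordField K Γ)
      (⋃ i, coords (mkP i₀ v R z i))) ≤
    Module.finrank (coordField K Γ) (IntermediateField.adjoin (coordField K Γ)
      ((K₁ : Set Qb) ∪ ⋃ j, coords (R j))) := by
  set L := coordField K Γ with hL
  have hKL : K ≤ L := le_sup_left
  set F' := IntermediateField.adjoin L ((K₁ : Set Qb) ∪ ⋃ j, coords (R j)) with hF'
  have hLF : ∀ x ∈ L, x ∈ F' := fun x hx => F'.algebraMap_mem (⟨x, hx⟩ : L)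
  have hK₁F : K₁ ≤ F'.restrictScalars ℚ := fun x hx =>
    IntermediateField.subset_adjoin L _ (Or.inl hx)
  obtain ⟨G, hG⟩ := Rat.exists_group (a := a) (b := b) (F'.restrictScalars ℚ)
    (hLF _ (hKL ha)) (hLF _ (hKL hb))
  have hOG : ∀ x ∈ O, ∀ P ∈ G, x P ∈ G := by
    intro x hx P hP
    rw [hG] at hP ⊢
    exact hK₁ _ hK₁F (hLF _ (hKL ha)) (hLF _ (hKL hb)) x hx P hP
  have hcG : oSpan O Γ ≤ G := by
    unfold oSpan
    rw [AddSubgroup.closure_le]
    rintro y ⟨x, hx, g, hg, i, rfl⟩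
    refine hOG x hx _ ?_
    rw [hG]
    intro c hc
    apply hLF
    exact (le_sup_right : _ ≤ L) (IntermediateField.subset_adjoin ℚ _ ⟨g, hg, i, hc⟩)
  have hRG : ∀ j, R j ∈ G := by
    intro j
    rw [hG]
    intro c hc
    exact IntermediateField.subset_adjoin L _ (Or.inr (Set.mem_iUnion.2 ⟨j, hc⟩))
  have hPG : ∀ i, mkP i₀ v R z i ∈ G := by
    intro i
    rcases Fin.eq_self_or_eq_succAbove i₀ i with h | ⟨j, h⟩
    · rw [h, mkP_same]
      exact sub_mem (hcG hz) (sum_mem fun j _ => hOG _ (hvO _) _ (hRG j))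
    · rw [h, mkP_succAbove]
      exact hOG _ (hvO _) _ (hRG j)
  have hle : IntermediateField.adjoin L (⋃ i, coords (mkP i₀ v R z i)) ≤ F' := by
    rw [IntermediateField.adjoin_le_iff]
    intro c hc
    obtain ⟨i, hi⟩ := Set.mem_iUnion.1 hc
    exact (hG _).1 (hPG i) hi
  exact LinearMap.finrank_le_finrank_of_injective
    (f := (IntermediateField.inclusion hle).toLinearMap)
    (IntermediateField.inclusion_injective hle)

/-- **The main construction, with coefficients in the endomorphism ring.** -/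
theorem not_lehmer_of_small2 (hHT : S_HT) (hDBL : S_DBL) (hINF : S_INF) (hDEG : S_DEG2)
    (hFG : S_FG2) (hIND : S_IND) (hDSC : S_DSC) (hORB : S_ORB)
    (hab : 4 * a ^ 3 + 27 * b ^ 2 ≠ 0) {n : ℕ} (hn : 1 ≤ n)
    {O : Subring (AddMonoid.End (EPt a b))} (hO : IsEndRing O) {K₁ : IntermediateField ℚ Qb}
    (hK₁f : FiniteDimensional ℚ K₁) (hK₁ : DefinedOver O K₁) {K : IntermediateField ℚ Qb}
    (ha : a ∈ K) (hb : b ∈ K) {Γ : AddSubgroup (Fin n → EPt a b)} (hfin : FinRk Γ)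
    (v : Fin n → AddMonoid.End (EPt a b)) (hvO : ∀ i, v i ∈ O) (hv : v ≠ 0)
    (B : Finset (AddMonoid.End (EPt a b)))
    (hB : ∀ x ∈ O, x ∈ AddSubgroup.closure (B : Set (AddMonoid.End (EPt a b))))
    (hsm : ∀ ε : ℝ, 0 < ε → ∃ z ∈ oSpan O Γ, ∑ x ∈ B, ht (x z) < ε ∧
      ∀ m : ℕ, 0 < m → ∀ γ ∈ Γ, m • z ≠ ∑ i, v i (γ i)) : ¬ IsLehmerGroup O K Γ := by
  obtain ⟨i₀, hi₀⟩ : ∃ i, v i ≠ 0 := by
    by_contra hcon
    push Not at hcon
    exact hv (funext hcon)
  obtain ⟨r, rfl⟩ : ∃ r, n = r + 1 := ⟨n - 1, by omega⟩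
  obtain ⟨-, hpos, hpar⟩ := hHT a b hab
  obtain ⟨F, hFfin, -, hF⟩ := (hFG (EPt a b) O (r + 1) Γ hO.2.2).2 hfin
  obtain ⟨S, hS⟩ := hIND (EPt a b) O hO.1 hO.2.1 hO.2.2 (hINF a b hab) F hFfin r
  obtain ⟨C, hC⟩ := hDEG a b hab K₁ hK₁f r S
  obtain ⟨y, hyO, N, hN, hyN⟩ := hO.2.1 _ (hvO i₀) hi₀
  obtain ⟨C', hC'0, hC'⟩ := exists_bound hpar hpos B y (hB y hyO)
  apply not_isLehmerGroup hDSC hORB (univ_infinite hINF hab hn) hpos ha hb
  intro c hc
  set A : ℝ := ∑ j, (2 ^ (r + 1) * ht (v (i₀.succAbove j) (S j)) + ht (v i₀ (S j))) with hA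
  have hA0 : 0 ≤ A := Finset.sum_nonneg fun j _ =>
    add_nonneg (mul_nonneg (by positivity) (hpos _)) (hpos _)
  obtain ⟨l, hl⟩ := pow_unbounded_of_one_lt (2 * ((C : ℝ) + 1) * A / c) (by norm_num : (1 : ℝ) < 4)
  set k := (r + 1) * l with hk
  choose R hR using fun j => exists_half hDBL hab k (S j)
  have hC1 : (0 : ℝ) < (C : ℝ) + 1 := by positivity
  have h4 : (0 : ℝ) < (4 : ℝ) ^ (l * r) := by positivity
  have h4l : (0 : ℝ) < (4 : ℝ) ^ l := by positivity
  obtain ⟨z', hz', hzε, hzv⟩ := hsm (c / (4 * (((C : ℝ) + 1) * 4 ^ (l * r) * C'))) (by positivity)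
  -- the element `z`
  set z := y z' with hzdef
  have hz : z ∈ oSpan O Γ := by
    have : ∀ x ∈ oSpan O Γ, y x ∈ oSpan O Γ := by
      intro x hx
      unfold oSpan at hx
      induction hx using AddSubgroup.closure_induction with
      | mem x hx =>
        obtain ⟨x', hx', g, hg, i, rfl⟩ := hx
        exact AddSubgroup.subset_closure ⟨y * x', mul_mem hyO hx', g, hg, i, rfl⟩
      | zero => rw [map_zero]; exact zero_mem _
      | add _ _ _ _ h h' => rw [map_add]; exact add_mem h h'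
      | neg _ _ h => rw [map_neg]; exact neg_mem h
    exact this z' hz'
  have hvz : v i₀ z = N • z' := by
    have h1 := congrArg (fun f : AddMonoid.End (EPt a b) => f z') hyN
    have h2 := congrArg (fun f : AddMonoid.End (EPt a b) => f z') (hO.1 _ (hvO i₀) _ hyO)
    exact h2.trans h1
  have hzv' : ∀ m : ℕ, 0 < m → ∀ γ ∈ Γ, m • (v i₀ z) ≠ ∑ i, v i (γ i) := by
    intro m hm γ hγ
    rw [hvz, smul_smul]
    exact hzv _ (Nat.mul_pos hm hN) γ hγ
  have hzht : ht z < c / (4 * (((C : ℝ) + 1) * 4 ^ (l * r))) := by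
    refine lt_of_le_of_lt (hC' z') ?_
    rw [lt_div_iff₀ (by positivity)] at hzε ⊢
    linarith
  refine ⟨mkP i₀ v R z, ?_, ?_⟩
  · intro w hwO hw γ hγ hsub
    exact trans_aux2 O hO.1 hO.2.1 (exists_nontorsion hINF hab) Γ i₀ v hvO hi₀ F hF S hS (2 ^ k)
      R hR z hz hzv' w hwO hw γ hγ (hsub rfl)
  · obtain ⟨hfd, hdeg⟩ := hC (coordField K Γ) ((le_sup_left : K ≤ _) ha)
      ((le_sup_left : K ≤ _) hb) k R hR
    have hd := (degree_le2 hK₁ ha hb i₀ v hvO R z hz hfd).trans hdeg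
    set Dg := Module.finrank (coordField K Γ) (IntermediateField.adjoin (coordField K Γ)
      (⋃ i, coords (mkP i₀ v R z i))) with hDg
    -- the height
    have hRS : ∀ (x : AddMonoid.End (EPt a b)) (j : Fin r),
        ht (x (R j)) = ht (x (S j)) / (4 ^ (l * r) * 4 ^ l) := by
      intro x j
      have h1 := f_nsmul hpar (x (R j)) (2 ^ k)
      rw [← map_nsmul, hR j] at h1
      have h2 : (((2 ^ k : ℕ) : ℝ)) ^ 2 = 4 ^ (l * r) * 4 ^ l := by
        rw [hk, ← pow_add]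
        push_cast
        rw [← pow_mul, mul_comm ((r + 1) * l) 2, pow_mul]
        norm_num
        ring
      rw [h1, h2]
      field_simp
    have hht : ∑ i, ht (mkP i₀ v R z i) ≤ 2 * ht z + A / (4 ^ (l * r) * 4 ^ l) := by
      rw [Fin.sum_univ_succAbove _ i₀, mkP_same]
      have h1 := f_sub_le hpar hpos z (∑ j, v (i₀.succAbove j) (R j))
      have h2 := f_sum_le hpar hpos Finset.univ fun j => v (i₀.succAbove j) (R j)
      rw [Finset.card_univ, Fintype.card_fin] at h2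
      have h5 : ∀ j, ht (mkP i₀ v R z (i₀.succAbove j)) =
          ht (v i₀ (S j)) / (4 ^ (l * r) * 4 ^ l) := by
        intro j
        rw [mkP_succAbove, hRS]
      rw [Finset.sum_congr rfl fun j _ => hRS (v (i₀.succAbove j)) j] at h2
      rw [Finset.sum_congr rfl fun j _ => h5 j]
      have h6 : A / (4 ^ (l * r) * 4 ^ l) = 2 * (2 ^ r *
          ∑ j, ht (v (i₀.succAbove j) (S j)) / (4 ^ (l * r) * 4 ^ l)) +
          ∑ j, ht (v i₀ (S j)) / (4 ^ (l * r) * 4 ^ l) := by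
        rw [hA, Finset.sum_div, Finset.mul_sum, Finset.mul_sum, ← Finset.sum_add_distrib]
        refine Finset.sum_congr rfl fun j _ => ?_
        rw [pow_succ]
        ring
      rw [h6]
      linarith
    -- the degree
    have hroot : (Dg : ℝ) ^ (1 / (((r + 1 : ℕ) : ℝ))) ≤ ((C : ℝ) + 1) * 4 ^ (l * r) := by
      have h1 : (Dg : ℝ) ≤ (((C : ℝ) + 1) * 4 ^ (l * r)) ^ (r + 1) := by
        have h2 : (Dg : ℝ) ≤ (C : ℝ) * 4 ^ (k * r) := by exact_mod_cast hd
        refine h2.trans ?_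
        rw [mul_pow, ← pow_mul]
        have h3 : k * r = l * r * (r + 1) := by rw [hk]; ring
        rw [h3]
        refine mul_le_mul_of_nonneg_right ?_ (by positivity)
        have h5 : (C : ℝ) + 1 ≤ ((C : ℝ) + 1) ^ (r + 1) :=
          le_self_pow₀ (by linarith [(Nat.cast_nonneg C : (0 : ℝ) ≤ C)]) (by omega)
        linarith
      calc _ ≤ ((((C : ℝ) + 1) * 4 ^ (l * r)) ^ (r + 1)) ^ (1 / (((r + 1 : ℕ) : ℝ))) :=
            Real.rpow_le_rpow (by positivity) h1 (by positivity)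
        _ = ((C : ℝ) + 1) * 4 ^ (l * r) := by
            rw [one_div]
            exact Real.pow_rpow_inv_natCast (by positivity) (by omega)
    have hsum0 : 0 ≤ ∑ i, ht (mkP i₀ v R z i) := Finset.sum_nonneg fun i _ => hpos _
    refine lt_of_le_of_lt (mul_le_mul hroot hht hsum0 (by positivity)) ?_
    have e1 : ((C : ℝ) + 1) * 4 ^ (l * r) * (2 * ht z + A / (4 ^ (l * r) * 4 ^ l)) =
        2 * (((C : ℝ) + 1) * 4 ^ (l * r) * ht z) + ((C : ℝ) + 1) * A / 4 ^ l := by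
      field_simp
    rw [e1]
    have h6 : ((C : ℝ) + 1) * 4 ^ (l * r) * ht z < c / 4 := by
      rw [lt_div_iff₀ (by positivity)] at hzht
      linarith
    have h7 : ((C : ℝ) + 1) * A / 4 ^ l < c / 2 := by
      rw [div_lt_iff₀ h4l]
      rw [div_lt_iff₀ hc] at hl
      linarith
    linarith

end Pool.Agent.Helper62.RE
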