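import Pool.Agent.Helper62.RE.Base

/-!
# Module DBL: halves of points
-/

set_option autoImplicit false

namespace Pool.Agent.Helper62.RE.DBL

open Pool.Agent.Helper62.RE
open scoped Classical
open WeierstrassCurve.Affine

variable {a b : Qb}

theorem nonsing_iff (x y : Qb) : (curve a b).toAffine.Nonsingular x y ↔
    y ^ 2 = x ^ 3 + a * x + b ∧ (3 * x ^ 2 + a ≠ 0 ∨ y ≠ 0) := by
  rw [nonsingular_iff', equation_iff]
  simp only [curve]
  constructor
  · rintro ⟨h1, h2⟩
    refine ⟨by linear_combination h1, ?_⟩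
    rcases h2 with h2 | h2
    · left
      intro h3
      apply h2
      linear_combination -h3
    · right
      intro h3
      apply h2
      rw [h3]; ring
  · rintro ⟨h1, h2⟩
    refine ⟨by linear_combination h1, ?_⟩
    rcases h2 with h2 | h2
    · left
      intro h3
      apply h2
      linear_combination -h3
    · right
      intro h3
      apply h2
      have h4 : (2 : Qb) * y = 0 := by linear_combination h3
      rcases mul_eq_zero.mp h4 with h5 | h5
      · exact absurd h5 two_ne_zero
      · exact h5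

/-- the roots of the cubic -/
theorem roots (hab : 4 * a ^ 3 + 27 * b ^ 2 ≠ 0) : ∃ e1 e2 e3 : Qb, e1 ≠ e2 ∧ e1 ≠ e3 ∧ e2 ≠ e3 ∧
    e1 + e2 + e3 = 0 ∧ e1 * e2 + e1 * e3 + e2 * e3 = a ∧ e1 * e2 * e3 = -b := by
  obtain ⟨e1, he1⟩ : ∃ e : Qb, e ^ 3 + a * e + b = 0 := by
    have h1 : ((Polynomial.X : Polynomial Qb) ^ 3 + Polynomial.C a * Polynomial.X +
        Polynomial.C b).degree = 3 := by
      compute_degree!
    obtain ⟨e, he⟩ := IsAlgClosed.exists_root _ (by rw [h1]; norm_num)
    refine ⟨e, ?_⟩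
    simpa [Polynomial.IsRoot] using he
  obtain ⟨d, hd⟩ := IsAlgClosed.exists_pow_nat_eq (-3 * e1 ^ 2 - 4 * a) (n := 2) (by norm_num)
  have h2 : (2 : Qb) ≠ 0 := two_ne_zero
  have hdisc : -(4 * a ^ 3 + 27 * b ^ 2) = (3 * e1 ^ 2 + a) ^ 2 * d ^ 2 := by
    rw [hd]
    have hb : b = -(e1 ^ 3 + a * e1) := by linear_combination he1
    rw [hb]; ring
  have hd0 : d ≠ 0 := by
    rintro rfl
    apply hab
    linear_combination -hdisc
  have he0 : 3 * e1 ^ 2 + a ≠ 0 := by
    intro h
    apply hab
    rw [h] at hdisc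
    linear_combination -hdisc
  have key : (3 * e1 - d) * (3 * e1 + d) = 4 * (3 * e1 ^ 2 + a) := by
    linear_combination -hd
  have k1 : 3 * e1 - d ≠ 0 := by
    intro h
    rw [h, zero_mul] at key
    rcases mul_eq_zero.mp key.symm with h5 | h5
    · exact absurd h5 (by norm_num)
    · exact he0 h5
  have k2 : 3 * e1 + d ≠ 0 := by
    intro h
    rw [h, mul_zero] at key
    rcases mul_eq_zero.mp key.symm with h5 | h5
    · exact absurd h5 (by norm_num)
    · exact he0 h5
  refine ⟨e1, (-e1 + d) / 2, (-e1 - d) / 2, ?_, ?_, ?_, ?_, ?_, ?_⟩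
  · intro h
    apply k1
    field_simp at h
    linear_combination h
  · intro h
    apply k2
    field_simp at h
    linear_combination h
  · intro h
    apply hd0
    have h3 : (-e1 + d) - (-e1 - d) = 0 := by
      field_simp at h
      linear_combination h
    have h4 : (2 : Qb) * d = 0 := by linear_combination h3
    rcases mul_eq_zero.mp h4 with h5 | h5
    · exact absurd h5 h2
    · exact h5
  · field_simp; ring
  · field_simp
    linear_combination -hd
  · field_simp
    linear_combination (-e1) * hd + 4 * he1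

theorem exists_half (hab : 4 * a ^ 3 + 27 * b ^ 2 ≠ 0) (S : EPt a b) : ∃ R : EPt a b, 2 • R = S := by
  rcases S with _ | ⟨x0, y0, h0⟩
  · exact ⟨0, nsmul_zero 2⟩
  obtain ⟨e1, e2, e3, h12, h13, h23, hs, ht, hu⟩ := roots hab
  have heq := ((nonsing_iff x0 y0).mp h0).1
  have hprod : (x0 - e1) * (x0 - e2) * (x0 - e3) = y0 ^ 2 := by
    rw [heq]
    linear_combination (-x0 ^ 2) * hs + x0 * ht - hu
  obtain ⟨r1, r2, r3, hr1, hr2, hr3, hr⟩ : ∃ r1 r2 r3 : Qb, r1 ^ 2 = x0 - e1 ∧ r2 ^ 2 = x0 - e2 ∧
      r3 ^ 2 = x0 - e3 ∧ r1 * r2 * r3 = y0 := by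
    obtain ⟨r1, hr1⟩ := IsAlgClosed.exists_pow_nat_eq (x0 - e1) (n := 2) (by norm_num)
    obtain ⟨r2, hr2⟩ := IsAlgClosed.exists_pow_nat_eq (x0 - e2) (n := 2) (by norm_num)
    obtain ⟨r3, hr3⟩ := IsAlgClosed.exists_pow_nat_eq (x0 - e3) (n := 2) (by norm_num)
    have h1 : (r1 * r2 * r3) ^ 2 = y0 ^ 2 := by
      rw [← hprod, ← hr1, ← hr2, ← hr3]; ring
    rcases sq_eq_sq_iff_eq_or_eq_neg.mp h1 with h | h
    · exact ⟨r1, r2, r3, hr1, hr2, hr3, h⟩
    · exact ⟨-r1, r2, r3, by rw [neg_sq]; exact hr1, hr2, hr3, by linear_combination -h⟩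
  have n12 : r1 + r2 ≠ 0 := by
    intro h
    apply h12
    have h3 : r1 ^ 2 = r2 ^ 2 := by linear_combination (r1 - r2) * h
    rw [hr1, hr2] at h3
    linear_combination -h3
  have n13 : r1 + r3 ≠ 0 := by
    intro h
    apply h13
    have h3 : r1 ^ 2 = r3 ^ 2 := by linear_combination (r1 - r3) * h
    rw [hr1, hr3] at h3
    linear_combination -h3
  have n23 : r2 + r3 ≠ 0 := by
    intro h
    apply h23
    have h3 : r2 ^ 2 = r3 ^ 2 := by linear_combination (r2 - r3) * h
    rw [hr2, hr3] at h3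
    linear_combination -h3
  set x : Qb := x0 + (r1 * r2 + r1 * r3 + r2 * r3) with hx
  set y : Qb := (r1 + r2) * (r1 + r3) * (r2 + r3) with hy
  have hy0 : y ≠ 0 := mul_ne_zero (mul_ne_zero n12 n13) n23
  have f1 : x - e1 = (r1 + r2) * (r1 + r3) := by rw [hx]; linear_combination -hr1
  have f2 : x - e2 = (r1 + r2) * (r2 + r3) := by rw [hx]; linear_combination -hr2
  have f3 : x - e3 = (r1 + r3) * (r2 + r3) := by rw [hx]; linear_combination -hr3
  have hxy : y ^ 2 = x ^ 3 + a * x + b := by
    have h1 : x ^ 3 + a * x + b = (x - e1) * (x - e2) * (x - e3) := by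
      linear_combination (x ^ 2) * hs - x * ht + hu
    rw [h1, f1, f2, f3, hy]; ring
  have hns : (curve a b).toAffine.Nonsingular x y := (nonsing_iff x y).mpr ⟨hxy, Or.inr hy0⟩
  have hne : y ≠ (curve a b).toAffine.negY x y := by
    rw [negY]
    simp only [curve]
    intro h
    apply hy0
    have h4 : (2 : Qb) * y = 0 := by linear_combination h
    rcases mul_eq_zero.mp h4 with h5 | h5
    · exact absurd h5 two_ne_zero
    · exact h5
  refine ⟨.some x y hns, ?_⟩
  rw [two_nsmul, Point.add_self_of_Y_ne hne]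
  have hder : 3 * x ^ 2 + a = 2 * y * (r1 + r2 + r3) := by
    have h1 : 3 * x ^ 2 + a = (x - e1) * (x - e2) + (x - e1) * (x - e3) + (x - e2) * (x - e3) := by
      linear_combination (2 * x) * hs - ht
    rw [h1, f1, f2, f3, hy]; ring
  have hsl : (curve a b).toAffine.slope x x y y = r1 + r2 + r3 := by
    rw [slope_of_Y_ne rfl hne, negY]
    simp only [curve]
    have h6 : (3 * x ^ 2 + 2 * 0 * x + a - 0 * y) = (y - (-y - 0 * x - 0)) * (r1 + r2 + r3) := by
      linear_combination hder
    rw [h6]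
    have h7 : y - (-y - 0 * x - 0) ≠ 0 := by
      intro h
      have h4 : (2 : Qb) * y = 0 := by linear_combination h
      rcases mul_eq_zero.mp h4 with h5 | h5
      · exact absurd h5 two_ne_zero
      · exact hy0 h5
    exact mul_div_cancel_left₀ _ h7
  have hX : (curve a b).toAffine.addX x x ((curve a b).toAffine.slope x x y y) = x0 := by
    rw [hsl, addX]
    simp only [curve]
    -- (r1+r2+r3)^2 - 2 x = x0
    have h8 : r1 ^ 2 + r2 ^ 2 + r3 ^ 2 = 3 * x0 := by linear_combination hr1 + hr2 + hr3 - hs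
    rw [hx]
    linear_combination h8
  have hY : (curve a b).toAffine.addY x x y ((curve a b).toAffine.slope x x y y) = y0 := by
    rw [addY, negAddY, hX, hsl, negY]
    simp only [curve]
    rw [← hr, hx, hy]
    ring
  congr 1

theorem two_tors (T : EPt a b) (h : 2 • T = 0) : T = 0 ∨
    ∃ x : Qb, ∃ h' : (curve a b).toAffine.Nonsingular x 0, T = .some x 0 h' := by
  rcases T with _ | ⟨x, y, hT⟩
  · left; rfl
  · right
    rw [two_nsmul] at h
    have h1 := eq_neg_of_add_eq_zero_left h
    rw [Point.neg_some] at h1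
    have h2 : y = (curve a b).toAffine.negY x y := by
      injection h1
    rw [negY] at h2
    simp only [curve] at h2
    have h4 : (2 : Qb) * y = 0 := by linear_combination h2
    rcases mul_eq_zero.mp h4 with h5 | h5
    · exact absurd h5 two_ne_zero
    · subst h5
      exact ⟨x, hT, rfl⟩

/-- the first coordinate, or nothing -/
def fx : EPt a b → Option Qb
  | .zero => none
  | .some x _ _ => some x

theorem inj_fx : Set.InjOn (fx : EPt a b → Option Qb) {T | 2 • T = 0} := by
  intro T hT T' hT' h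
  rcases two_tors T hT with rfl | ⟨x, hx, rfl⟩
  · rcases two_tors T' hT' with rfl | ⟨x', hx', rfl⟩
    · rfl
    · exact absurd h (by simp [fx])
  · rcases two_tors T' hT' with rfl | ⟨x', hx', rfl⟩
    · exact absurd h (by simp [fx])
    · have h1 : x = x' := by simpa [fx] using h
      subst h1
      rfl

theorem main : S_DBL := by
  intro a b hab
  refine ⟨exists_half hab, ?_⟩
  obtain ⟨e1, e2, e3, h12, h13, h23, hs, ht, hu⟩ := roots hab
  let t : Finset (Option Qb) := {none, some e1, some e2, some e3}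
  have hmap : ∀ T : EPt a b, 2 • T = 0 → fx T ∈ (t : Set (Option Qb)) := by
    intro T hT
    rcases two_tors T hT with rfl | ⟨x, hx, rfl⟩
    · simp [fx, t]
    · have h1 := ((nonsing_iff x 0).mp hx).1
      have h2 : (x - e1) * (x - e2) * (x - e3) = 0 := by
        have h3 : x ^ 3 + a * x + b = 0 := by rw [← h1]; ring
        linear_combination (-x ^ 2) * hs + x * ht - hu + h3
      have h4 : x = e1 ∨ x = e2 ∨ x = e3 := by
        rcases mul_eq_zero.mp h2 with h | h
        · rcases mul_eq_zero.mp h with h | h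
          · left; linear_combination h
          · right; left; linear_combination h
        · right; right; linear_combination h
      rcases h4 with rfl | rfl | rfl <;> simp [fx, t]
  have hcard : (t : Set (Option Qb)).ncard ≤ 4 := by
    rw [Set.ncard_coe_finset]
    exact Finset.card_le_four
  intro S
  rcases Set.eq_empty_or_nonempty {R : EPt a b | 2 • R = S} with he | ⟨R0, hR0⟩
  · rw [he]
    exact ⟨Set.finite_empty, by simp⟩
  · have hmt : ∀ R ∈ {R : EPt a b | 2 • R = S}, (2 • (R - R0) : EPt a b) = 0 := by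
      intro R hR
      have h1 : 2 • R = S := hR
      have h2 : 2 • R0 = S := hR0
      rw [nsmul_sub, h1, h2, sub_self]
    have hm : ∀ R ∈ {R : EPt a b | 2 • R = S}, fx (R - R0) ∈ (t : Set (Option Qb)) :=
      fun R hR => hmap _ (hmt R hR)
    have hinj : Set.InjOn (fun R : EPt a b => fx (R - R0)) {R : EPt a b | 2 • R = S} := by
      intro R hR R' hR' h
      have h1 := inj_fx (hmt R hR) (hmt R' hR') h
      exact sub_left_injective h1
    exact ⟨Set.Finite.of_injOn (f := fun R : EPt a b => fx (R - R0)) hm hinj t.finite_toSet,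
      (Set.ncard_le_ncard_of_injOn (fun R : EPt a b => fx (R - R0)) hm hinj t.finite_toSet).trans hcard⟩

end Pool.Agent.Helper62.RE.DBL
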