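import Pool.Agent.Helper62.RE.Base

/-!
# DEG: degrees of division points (helper17 for helper62)
-/

set_option autoImplicit false

namespace Pool.Agent.Helper62.RE.DEG

open Pool.Agent.Helper62.RE IntermediateField
open scoped Classical

local instance : Algebra.IsAlgebraic ℚ Qb := AlgebraicClosure.isAlgebraic ℚ

local instance : IsAlgClosure ℚ Qb := ⟨inferInstance, inferInstance⟩

local instance : Normal ℚ Qb := IsAlgClosure.normal ℚ Qb

/-- the action of field homomorphisms on the points -/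
theorem act {L : IntermediateField ℚ Qb} {a b : Qb} (ha : a ∈ L) (hb : b ∈ L) (σ : Qb →ₐ[L] Qb) :
    ∃ φ : EPt a b →+ EPt a b, ∀ x y h, ∃ h', φ (.some x y h) = .some (σ x) (σ y) h' := by
  obtain ⟨W, hW⟩ : ∃ W : WeierstrassCurve L, W = curve (⟨a, ha⟩ : L) ⟨b, hb⟩ := ⟨_, rfl⟩
  have e : W.baseChange Qb = curve a b := by
    rw [hW]
    ext <;> simp [curve, WeierstrassCurve.baseChange, WeierstrassCurve.map]
  have key : ∀ V : WeierstrassCurve Qb, W.baseChange Qb = V → ∃ φ : V.toAffine.Point →+ V.toAffine.Point,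
      ∀ x y h, ∃ h', φ (.some x y h) = .some (σ x) (σ y) h' := by
    rintro V rfl
    exact ⟨WeierstrassCurve.Affine.Point.map (W' := W) σ, fun x y h => ⟨_, rfl⟩⟩
  exact key _ e

theorem act_coords {a b : Qb} {σ : Qb → Qb} {φ : EPt a b →+ EPt a b}
    (h : ∀ x y h, ∃ h', φ (.some x y h) = .some (σ x) (σ y) h') (P : EPt a b) : coords (φ P) = σ '' coords P := by
  rcases P with _ | ⟨x, y, hxy⟩
  · have : φ (WeierstrassCurve.Affine.Point.zero) = WeierstrassCurve.Affine.Point.zero := map_zero φ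
    rw [this]
    simp [coords]
  · obtain ⟨h', e⟩ := h x y hxy
    rw [e]
    simp [coords, Set.image_pair]

theorem act_eq {a b : Qb} {σ σ' : Qb → Qb} {φ φ' : EPt a b →+ EPt a b}
    (h : ∀ x y h, ∃ h', φ (.some x y h) = .some (σ x) (σ y) h')
    (h' : ∀ x y h, ∃ h', φ' (.some x y h) = .some (σ' x) (σ' y) h') {P : EPt a b} (e : φ P = φ' P) :
    ∀ c ∈ coords P, σ c = σ' c := by
  rcases P with _ | ⟨x, y, hxy⟩
  · intro c hc
    simp [coords] at hc
  · obtain ⟨h1, e1⟩ := h x y hxy
    obtain ⟨h2, e2⟩ := h' x y hxy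
    rw [e1, e2, WeierstrassCurve.Affine.Point.some.injEq] at e
    intro c hc
    rcases hc with rfl | hc
    · exact e.1
    · rw [Set.mem_singleton_iff] at hc
      rw [hc]
      exact e.2

theorem coords_finite {a b : Qb} (P : EPt a b) : (coords P).Finite := by
  rcases P with _ | ⟨x, y, hxy⟩
  · exact Set.finite_empty
  · exact (Set.finite_singleton y).insert x

/-- the conjugates -/
def Cj {a b : Qb} (S : EPt a b) : Set (EPt a b) :=
  {S' | ∀ c' ∈ coords S', ∃ c ∈ coords S, c' ∈ (minpoly ℚ c).rootSet Qb}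

theorem Cj_finite {a b : Qb} (S : EPt a b) : (Cj S).Finite := by
  obtain ⟨T, hT⟩ : ∃ T : Set Qb, T = ⋃ c ∈ coords S, (minpoly ℚ c).rootSet Qb := ⟨_, rfl⟩
  have hTf : T.Finite := by
    rw [hT]
    exact (coords_finite S).biUnion fun c _ => Polynomial.rootSet_finite _ _
  let f : EPt a b → Option (Qb × Qb) := fun P => match P with
    | .zero => none
    | .some x y _ => some (x, y)
  have hf : Function.Injective f := by
    rintro (_ | ⟨x, y, h⟩) (_ | ⟨x', y', h'⟩) e
    · rfl
    · simp [f] at e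
    · simp [f] at e
    · simp only [f, Option.some.injEq, Prod.mk.injEq] at e
      obtain ⟨rfl, rfl⟩ := e
      rfl
  refine Set.Finite.subset (Set.Finite.preimage hf.injOn
    (((hTf.prod hTf).image some).insert none)) ?_
  intro S' hS'
  have hmem : ∀ c' ∈ coords S', c' ∈ T := by
    intro c' hc'
    obtain ⟨c, hc, h⟩ := hS' c' hc'
    rw [hT]
    exact Set.mem_biUnion hc h
  rcases S' with _ | ⟨x, y, h⟩
  · exact Or.inl rfl
  · refine Or.inr ⟨(x, y), ⟨hmem x (by simp [coords]), hmem y (by simp [coords])⟩, rfl⟩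

theorem act_Cj {L : IntermediateField ℚ Qb} {a b : Qb} {σ : Qb →ₐ[L] Qb} {φ : EPt a b →+ EPt a b}
    (h : ∀ x y h, ∃ h', φ (.some x y h) = .some (σ x) (σ y) h') (S : EPt a b) : φ S ∈ Cj S := by
  intro c' hc'
  rw [act_coords (σ := σ) h] at hc'
  obtain ⟨c, hc, rfl⟩ := hc'
  refine ⟨c, hc, ?_⟩
  have hint : IsIntegral ℚ c := Algebra.IsIntegral.isIntegral c
  rw [Polynomial.mem_rootSet]
  refine ⟨minpoly.ne_zero hint, ?_⟩
  have h1 := Polynomial.aeval_algHom_apply (σ.restrictScalars ℚ) c (minpoly ℚ c)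
  rw [minpoly.aeval, map_zero] at h1
  exact h1

/-- the points with a given multiple -/
theorem fib {a b : Qb} (h : ∀ S : EPt a b, {R : EPt a b | 2 • R = S}.Finite ∧ {R : EPt a b | 2 • R = S}.ncard ≤ 4)
    (k : ℕ) : ∀ S : EPt a b, {R : EPt a b | (2 ^ k : ℕ) • R = S}.Finite ∧
      {R : EPt a b | (2 ^ k : ℕ) • R = S}.ncard ≤ 4 ^ k := by
  induction k with
  | zero =>
    intro S
    have e : {R : EPt a b | (2 ^ 0 : ℕ) • R = S} = {S} := by
      ext R
      simp
    rw [e]
    simp
  | succ k ih =>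
    intro S
    obtain ⟨hf, hc⟩ := ih S
    have e : {R : EPt a b | (2 ^ (k + 1) : ℕ) • R = S} =
        ⋃ T ∈ hf.toFinset, {R : EPt a b | 2 • R = T} := by
      ext R
      simp only [Set.mem_setOf_eq, Set.mem_iUnion, Set.Finite.mem_toFinset, exists_prop, exists_eq_right']
      rw [pow_succ, mul_smul]
    refine ⟨?_, ?_⟩
    · rw [e]
      exact Set.Finite.biUnion (Finset.finite_toSet _) fun T _ => (h T).1
    · rw [e]
      have h1 : (⋃ T ∈ hf.toFinset, {R : EPt a b | 2 • R = T}).ncard ≤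
          ∑ T ∈ hf.toFinset, {R : EPt a b | 2 • R = T}.ncard := by
        have : ∀ s : Finset (EPt a b), (⋃ T ∈ s, {R : EPt a b | 2 • R = T}).ncard ≤
            ∑ T ∈ s, {R : EPt a b | 2 • R = T}.ncard := by
          intro s
          induction s using Finset.induction_on with
          | empty => simp
          | insert c s hc ih =>
            rw [Finset.set_biUnion_insert, Finset.sum_insert hc]
            exact (Set.ncard_union_le _ _).trans (Nat.add_le_add_left ih _)
        exact this _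
      refine h1.trans ((Finset.sum_le_card_nsmul _ _ 4 fun T _ => (h T).2).trans ?_)
      rw [smul_eq_mul, ← Set.ncard_eq_toFinset_card _ hf, pow_succ]
      exact Nat.mul_le_mul_right _ hc

theorem main : S_DBL → S_DEG := by
  intro hD a b hab r S
  obtain ⟨-, hD2⟩ := hD a b hab
  refine ⟨∏ j, (Cj (S j)).ncard, fun L ha hb k R hR => ?_⟩
  obtain ⟨G, hG⟩ : ∃ G : Set Qb, G = ⋃ j, coords (R j) := ⟨_, rfl⟩
  rw [← hG]
  have hGf : G.Finite := by
    rw [hG]
    exact Set.finite_iUnion fun j => coords_finite _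
  haveI : Finite G := hGf
  have hint : ∀ x ∈ G, IsIntegral L x := fun x _ => (Algebra.IsIntegral.isIntegral (R := ℚ) x).tower_top
  haveI hfd : FiniteDimensional L (adjoin L G) := finiteDimensional_adjoin hint
  refine ⟨hfd, ?_⟩
  haveI : Normal L Qb := Normal.tower_top_of_normal ℚ L Qb
  -- extensions of the embeddings
  have hext : ∀ τ : adjoin L G →ₐ[L] Qb, ∃ σ : Qb →ₐ[L] Qb, ∀ x : adjoin L G, σ x = τ x := by
    intro τ
    refine ⟨τ.liftNormal Qb, fun x => ?_⟩
    exact τ.liftNormal_commutes Qb x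
  choose σ hσ using hext
  choose φ hφ using fun τ : adjoin L G →ₐ[L] Qb => act (a := a) (b := b) ha hb (σ τ)
  -- the finite sets
  have hAf : ∀ j, (⋃ T ∈ (Cj_finite (S j)).toFinset, {P : EPt a b | (2 ^ k : ℕ) • P = T}).Finite := fun j =>
    Set.Finite.biUnion (Finset.finite_toSet _) fun T _ => (fib hD2 k T).1
  have hcard : ∀ j, (hAf j).toFinset.card ≤ (Cj (S j)).ncard * 4 ^ k := by
    intro j
    rw [← Set.ncard_eq_toFinset_card _ (hAf j)]
    have : ∀ s : Finset (EPt a b), (⋃ T ∈ s, {P : EPt a b | (2 ^ k : ℕ) • P = T}).ncard ≤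
        ∑ T ∈ s, {P : EPt a b | (2 ^ k : ℕ) • P = T}.ncard := by
      intro s
      induction s using Finset.induction_on with
      | empty => simp
      | insert c s hc ih =>
        rw [Finset.set_biUnion_insert, Finset.sum_insert hc]
        exact (Set.ncard_union_le _ _).trans (Nat.add_le_add_left ih _)
    refine (this _).trans ((Finset.sum_le_card_nsmul _ _ (4 ^ k) fun T _ => (fib hD2 k T).2).trans ?_)
    rw [smul_eq_mul, ← Set.ncard_eq_toFinset_card _ (Cj_finite (S j))]
  have hmaps : ∀ τ : adjoin L G →ₐ[L] Qb, (fun j => φ τ (R j)) ∈ Fintype.piFinset fun j => (hAf j).toFinset := by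
    intro τ
    rw [Fintype.mem_piFinset]
    intro j
    rw [Set.Finite.mem_toFinset]
    refine Set.mem_biUnion (x := φ τ (S j)) ?_ ?_
    · rw [Finset.mem_coe, Set.Finite.mem_toFinset]
      exact act_Cj (hφ τ) (S j)
    · rw [Set.mem_setOf_eq, ← hR j, map_nsmul]
  have hinj : Function.Injective fun τ : adjoin L G →ₐ[L] Qb => fun j => φ τ (R j) := by
    intro τ τ' e
    refine adjoin_algHom_ext L fun x hx => ?_
    have hx' := hx
    rw [hG, Set.mem_iUnion] at hx'
    obtain ⟨j, hj⟩ := hx'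
    have h1 := act_eq (hφ τ) (hφ τ') (congrFun e j) x hj
    rw [← hσ τ, ← hσ τ']
    exact h1
  have h1 : Fintype.card (adjoin L G →ₐ[L] Qb) ≤ (Fintype.piFinset fun j => (hAf j).toFinset).card := by
    rw [← Finset.card_univ]
    exact Finset.card_le_card_of_injOn _ (fun τ _ => hmaps τ) hinj.injOn
  rw [AlgHom.card] at h1
  refine h1.trans ?_
  rw [Fintype.card_piFinset]
  refine (Finset.prod_le_prod' fun j _ => hcard j).trans (le_of_eq ?_)
  rw [Finset.prod_mul_distrib, Finset.prod_const, Finset.card_univ, Fintype.card_fin, pow_mul]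

end Pool.Agent.Helper62.RE.DEG
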