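import Pool.Agent.Helper62.RE.EDefs

/-!
# Module DSC: Galois descent for the nonvanishing of a polynomial
-/

set_option autoImplicit false

namespace Pool.Agent.Helper62.RE.DSC

open Pool.Agent.Helper62.RE

theorem algQ : Algebra.IsAlgebraic ℚ Qb := by
  have h : @Algebra.IsAlgebraic ℚ Qb _ _ (AlgebraicClosure.instAlgebra ℚ) :=
    AlgebraicClosure.isAlgebraic ℚ
  have e : (DivisionRing.toRatAlgebra : Algebra ℚ Qb) = AlgebraicClosure.instAlgebra ℚ :=
    Subsingleton.elim _ _
  rw [e]
  exact h

theorem main : S_DSC := by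
  classical
  intro ι _ L g q hg
  set S : Set Qb := (fun u => g.coeff u) '' (g.support : Set (ι →₀ ℕ)) with hS
  have hSfin : S.Finite := Set.Finite.image _ g.support.finite_toSet
  have : Finite S := hSfin
  have := algQ
  have halg : Algebra.IsAlgebraic L Qb := Algebra.IsAlgebraic.tower_top (K := ℚ) L
  have hcl : IsAlgClosure L Qb := ⟨inferInstance, halg⟩
  have hnormal : Normal L Qb := IsAlgClosure.normal L Qb
  set K₀ : IntermediateField L Qb := IntermediateField.adjoin L S with hK₀
  have hK₀f : FiniteDimensional L K₀ :=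
    IntermediateField.finiteDimensional_adjoin fun x _ => (halg.isAlgebraic x).isIntegral
  set M : IntermediateField L Qb := IntermediateField.normalClosure L K₀ Qb with hM
  have hMf : FiniteDimensional L M := inferInstance
  have hMn : Normal L M := inferInstance
  have hMg : IsGalois L M := { }
  have hSM : ∀ u, g.coeff u ∈ M := by
    intro u
    apply K₀.le_normalClosure
    by_cases hu : g.coeff u = 0
    · rw [hu]
      exact zero_mem _
    · exact IntermediateField.subset_adjoin L S ⟨u, MvPolynomial.mem_support_iff.2 hu, rfl⟩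
  -- extension of the automorphisms of `M`
  have hsurj := AlgEquiv.restrictNormalHom_surjective (F := L) (K₁ := M) Qb
  choose ext hext using hsurj
  have hext' : ∀ (τ : M ≃ₐ[L] M) (x : M), ext τ (x : Qb) = (τ x : Qb) := by
    intro τ x
    have h1 := AlgEquiv.restrictNormalHom_apply M (ext τ) x
    rw [hext] at h1
    exact h1.symm
  have hinj : Function.Injective ext := by
    intro τ τ' h
    rw [← hext τ, ← hext τ', h]
  -- independence of the characters
  let ch : (M ≃ₐ[L] M) → (M →* Qb) := fun τ =>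
    (M.val : M →* Qb).comp ((τ : M →ₐ[L] M) : M →* M)
  have hch : Function.Injective ch := by
    intro τ τ' h
    ext x
    exact DFunLike.congr_fun h x
  set X : (M ≃ₐ[L] M) → Qb := fun τ =>
    MvPolynomial.eval q (MvPolynomial.map ((ext τ : Qb ≃+* Qb) : Qb →+* Qb) g) with hX
  have hX1 : X 1 = MvPolynomial.eval q g := by
    rw [hX]
    dsimp only
    congr 1
    ext u
    rw [MvPolynomial.coeff_map]
    have h1 := hext' 1 ⟨g.coeff u, hSM u⟩
    exact h1
  have hex : ∃ α : M, ∑ τ, X τ * (τ α : Qb) ≠ 0 := by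
    by_contra hcon
    push Not at hcon
    have hli := (linearIndependent_monoidHom M Qb).comp ch hch
    rw [Fintype.linearIndependent_iff] at hli
    have h1 := hli X (by
      funext α
      rw [Finset.sum_apply]
      exact hcon α) 1
    rw [hX1] at h1
    exact hg h1
  obtain ⟨α, hα⟩ := hex
  refine ⟨∑ σ ∈ Finset.univ.image ext, MvPolynomial.C (σ (α : Qb)) *
    MvPolynomial.map ((σ : Qb ≃+* Qb) : Qb →+* Qb) g, Finset.univ.image ext,
    fun σ => σ (α : Qb), ?_, ?_, rfl⟩
  · intro u
    rw [Finset.sum_image (fun _ _ _ _ h => hinj h), MvPolynomial.coeff_sum]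
    have h1 : (∑ τ : M ≃ₐ[L] M, MvPolynomial.coeff u (MvPolynomial.C (ext τ (α : Qb)) *
        MvPolynomial.map ((ext τ : Qb ≃+* Qb) : Qb →+* Qb) g)) =
        ((∑ τ : M ≃ₐ[L] M, τ (α * ⟨g.coeff u, hSM u⟩) : M) : Qb) := by
      rw [AddSubmonoidClass.coe_finsetSum]
      refine Finset.sum_congr rfl fun τ _ => ?_
      rw [MvPolynomial.coeff_C_mul, MvPolynomial.coeff_map, map_mul]
      have h2 := hext' τ α
      have h3 := hext' τ ⟨g.coeff u, hSM u⟩
      rw [MulMemClass.coe_mul, ← h2, ← h3]
      rfl
    rw [h1, ← trace_eq_sum_automorphisms]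
    exact (Algebra.trace L M _).2
  · rw [map_sum, Finset.sum_image (fun _ _ _ _ h => hinj h)]
    have h1 : (∑ τ : M ≃ₐ[L] M, MvPolynomial.eval q (MvPolynomial.C (ext τ (α : Qb)) *
        MvPolynomial.map ((ext τ : Qb ≃+* Qb) : Qb →+* Qb) g)) = ∑ τ, X τ * (τ α : Qb) := by
      refine Finset.sum_congr rfl fun τ _ => ?_
      rw [map_mul, MvPolynomial.eval_C, hext' τ α, mul_comm]
    rw [h1]
    exact hα

end Pool.Agent.Helper62.RE.DSC
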