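import Mathlib
import Pool.Agent.Helper62.RE.Base

set_option autoImplicit false

/-!
# Rémond's generalised Lehmer problem: module IND

Independent points modulo a group of finite rank, over a ring `O` of endomorphisms: the points are chosen
one after the other, each of them without positive multiples in the finitely generated group generated by
the images of the given points and of the previous ones.
-/

namespace Pool.Agent.Helper62.RE.IND

open Pool.Agent.Helper62.RE

/-- the images of the elements of `G` under the elements of `B` -/
def img {M : Type} [AddCommGroup M] (B : Set (AddMonoid.End M)) (G : Set M) : Set M :=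
  {z : M | ∃ b ∈ B, ∃ g ∈ G, z = b g}

theorem img_finite {M : Type} [AddCommGroup M] {B : Set (AddMonoid.End M)} {G : Set M}
    (hB : B.Finite) (hG : G.Finite) : (img B G).Finite := by
  refine (Set.Finite.image2 (fun (b : AddMonoid.End M) (g : M) => b g) hB hG).subset ?_
  rintro z ⟨b, hb, g, hg, rfl⟩
  exact ⟨b, hb, g, hg, rfl⟩

theorem apply_mem {M : Type} [AddCommGroup M] (B : Set (AddMonoid.End M)) (G : Set M)
    (x : AddMonoid.End M) (hx : x ∈ AddSubgroup.closure B) (f : M) (hf : f ∈ G) :
    x f ∈ AddSubgroup.closure (img B G) := by
  induction hx using AddSubgroup.closure_induction with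
  | mem b hb => exact AddSubgroup.subset_closure ⟨b, hb, f, hf, rfl⟩
  | zero => exact AddSubgroup.zero_mem _
  | add a b _ _ ha hb => exact AddSubgroup.add_mem _ ha hb
  | neg a _ ha => exact AddSubgroup.neg_mem _ ha

/-- IND -/
theorem main : S_IND := by
  intro M _ O _hcomm hdiv hfg hinf F hF r
  obtain ⟨B, hB, hOB⟩ := hfg
  induction r with
  | zero =>
      exact ⟨fun j => j.elim0, fun w _ y _ _ => funext fun j => j.elim0⟩
  | succ r ih =>
      obtain ⟨S, hS⟩ := ih
      obtain ⟨R, hR⟩ := hinf (img B (F ∪ Set.range S))
        (img_finite hB (hF.union (Set.finite_range S)))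
      refine ⟨Fin.snoc S R, fun w hw y hy hsum => ?_⟩
      have hlast : w (Fin.last r) = 0 := by
        by_contra hne
        obtain ⟨v, hv, N, hN, hvN⟩ := hdiv _ (hw (Fin.last r)) hne
        obtain ⟨m, hm, hmy⟩ := hy
        have h1 : v (m • y) ∈ AddSubgroup.closure (img B (F ∪ Set.range S)) := by
          clear hsum
          have : ∀ z ∈ AddSubgroup.closure {z : M | ∃ x ∈ O, ∃ f ∈ F, z = x f},
              v z ∈ AddSubgroup.closure (img B (F ∪ Set.range S)) := by
            intro z hz
            induction hz using AddSubgroup.closure_induction with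
            | mem z hz =>
                obtain ⟨x, hx, f, hf, rfl⟩ := hz
                exact apply_mem B _ (v * x) (hOB _ (O.mul_mem hv hx)) f (Or.inl hf)
            | zero => rw [map_zero]; exact AddSubgroup.zero_mem _
            | add a b _ _ ha hb => rw [map_add]; exact AddSubgroup.add_mem _ ha hb
            | neg a _ ha => rw [map_neg]; exact AddSubgroup.neg_mem _ ha
          exact this _ hmy
        have h2 : ∀ j : Fin r, v (w j.castSucc (S j)) ∈
            AddSubgroup.closure (img B (F ∪ Set.range S)) := fun j =>
          apply_mem B _ (v * w j.castSucc) (hOB _ (O.mul_mem hv (hw _))) (S j)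
            (Or.inr ⟨j, rfl⟩)
        have h3 : v (w (Fin.last r) R) = N • R := by
          have := congrArg (fun e : AddMonoid.End M => e R) hvN
          simpa using this
        have h4 : v y = ∑ j : Fin r, v (w j.castSucc (S j)) + N • R := by
          rw [← hsum, Fin.sum_univ_castSucc, map_add, map_sum]
          simp only [Fin.snoc_castSucc, Fin.snoc_last]
          rw [h3]
        have h5 : (m * N) • R = v (m • y) - m • ∑ j : Fin r, v (w j.castSucc (S j)) := by
          rw [map_nsmul, h4, smul_add, mul_smul]
          abel
        apply hR (m * N) (Nat.mul_pos hm hN)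
        rw [h5]
        exact AddSubgroup.sub_mem _ h1
          (AddSubgroup.nsmul_mem _ (AddSubgroup.sum_mem _ fun j _ => h2 j) m)
      have hsum' : ∑ j : Fin r, w j.castSucc (S j) = y := by
        rw [← hsum, Fin.sum_univ_castSucc]
        simp [hlast]
      have h6 := hS (fun j => w j.castSucc) (fun j => hw _) y hy hsum'
      funext j
      refine Fin.lastCases ?_ (fun i => ?_) j
      · simpa using hlast
      · exact congrFun h6 i

end Pool.Agent.Helper62.RE.IND
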