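import Pool.Agent.Helper62.RE.EDefs
import Pool.Agent.Helper62.RE.DEG

/-!
# ORB: the Galois orbit of a point of a power of an elliptic curve (helper23 for helper62)
-/

set_option autoImplicit false

namespace Pool.Agent.Helper62.RE.ORB

open Pool.Agent.Helper62.RE IntermediateField
open scoped Classical

local instance : Algebra.IsAlgebraic ℚ Qb := AlgebraicClosure.isAlgebraic ℚ

/-- the action on the homogeneous coordinates -/
theorem homog_act {a b : Qb} {σ : Qb → Qb} {φ : EPt a b →+ EPt a b} (h0 : σ 0 = 0) (h1 : σ 1 = 1)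
    (h : ∀ x y h, ∃ h', φ (.some x y h) = .some (σ x) (σ y) h') (P : EPt a b) (j : Fin 3) :
    homog (φ P) j = σ (homog P j) := by
  rcases P with _ | ⟨x, y, hxy⟩
  · have : φ (WeierstrassCurve.Affine.Point.zero) = WeierstrassCurve.Affine.Point.zero := map_zero φ
    rw [this]
    fin_cases j <;> simp [homog, h0, h1]
  · obtain ⟨h', e⟩ := h x y hxy
    rw [e]
    fin_cases j <;> simp [homog, h1]

/-- the homogeneous coordinates determine the point -/
theorem homog_inj {a b : Qb} {P Q : EPt a b} (h : ∀ j, homog P j = homog Q j) : P = Q := by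
  rcases P with _ | ⟨x, y, hxy⟩ <;> rcases Q with _ | ⟨x', y', hxy'⟩
  · rfl
  · have := h 2
    simp [homog] at this
  · have := h 2
    simp [homog] at this
  · have h0 := h 0
    have h1 := h 1
    simp only [homog, Matrix.cons_val_zero, Matrix.cons_val_one] at h0 h1
    subst h0
    subst h1
    rfl

theorem homog_mem {a b : Qb} {F : Set Qb} (h0 : (0 : Qb) ∈ F) (h1 : (1 : Qb) ∈ F) {P : EPt a b}
    (h : coords P ⊆ F) (j : Fin 3) : homog P j ∈ F := by
  rcases P with _ | ⟨x, y, hxy⟩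
  · fin_cases j <;> simp [homog, h0, h1]
  · have hx : x ∈ F := h (by simp [coords])
    have hy : y ∈ F := h (by simp [coords])
    fin_cases j <;> simp [homog, h1, hx, hy]

theorem main : S_ORB := by
  intro a b n L ha hb P
  obtain ⟨G, hG⟩ : ∃ G : Set Qb, G = ⋃ i, coords (P i) := ⟨_, rfl⟩
  rw [← hG]
  have hGf : G.Finite := by
    rw [hG]
    exact Set.finite_iUnion fun j => DEG.coords_finite _
  haveI : Finite G := hGf
  have hint : ∀ x ∈ G, IsIntegral L x := fun x _ => (Algebra.IsIntegral.isIntegral (R := ℚ) x).tower_top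
  haveI hfd : FiniteDimensional L (adjoin L G) := finiteDimensional_adjoin hint
  choose φ hφ using fun σ : Qb ≃ₐ[L] Qb => DEG.act (a := a) (b := b) ha hb (σ : Qb →ₐ[L] Qb)
  have hom : ∀ (σ : Qb ≃ₐ[L] Qb) (R : EPt a b) (j : Fin 3), homog (φ σ R) j = σ (homog R j) :=
    fun σ R j => homog_act (σ := fun x => (σ : Qb →ₐ[L] Qb) x) (by simp) (by simp) (hφ σ) R j
  have hmem : ∀ i j, homog (P i) j ∈ (adjoin L G : Set Qb) := by
    intro i j
    refine homog_mem (zero_mem _) (one_mem _) ?_ j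
    refine subset_trans ?_ (subset_adjoin L G)
    rw [hG]
    exact Set.subset_iUnion (fun i => coords (P i)) i
  obtain ⟨Z, hZ⟩ : ∃ Z : Set (Fin n → EPt a b), Z = {Q | ∃ σ : Qb ≃ₐ[L] Qb, ∀ i j,
    homog (Q i) j = σ (homog (P i) j)} := ⟨_, rfl⟩
  have hex : ∀ Q : Z, ∃ σ : Qb ≃ₐ[L] Qb, ∀ i j, homog (Q.1 i) j = σ (homog (P i) j) := by
    rintro ⟨Q, hQ⟩
    rw [hZ] at hQ
    exact hQ
  choose s hs using hex
  -- the restriction to the field of the coordinates
  have hinj : Function.Injective (fun Q : Z => ((s Q : Qb →ₐ[L] Qb).comp (adjoin L G).val)) := by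
    intro Q Q' e
    apply Subtype.ext
    funext i
    refine homog_inj fun j => ?_
    rw [hs, hs]
    have := DFunLike.congr_fun e ⟨homog (P i) j, hmem i j⟩
    simpa using this
  haveI : Finite Z := Finite.of_injective _ hinj
  refine ⟨Z, Set.toFinite Z, ?_, ?_, ?_⟩
  · rw [hZ]
    exact ⟨AlgEquiv.refl, fun i j => by simp⟩
  · have h1 := Nat.card_le_card_of_injective _ hinj
    rw [Nat.card_coe_set_eq] at h1
    refine h1.trans (le_of_eq ?_)
    rw [Nat.card_eq_fintype_card, AlgHom.card]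
  · intro τ Q hQ
    refine ⟨fun i => φ τ (Q i), ?_, fun i j => hom τ (Q i) j⟩
    rw [hZ] at hQ ⊢
    obtain ⟨σ, hσ⟩ := hQ
    refine ⟨σ.trans τ, fun i j => ?_⟩
    rw [hom, hσ]
    rfl

end Pool.Agent.Helper62.RE.ORB
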