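import Mathlib
import Pool.Agent.Helper62.RE.Base
import Pool.Agent.Helper62.RE.FG

set_option autoImplicit false

/-!
# Groups of small rank
-/

namespace Pool.Agent.Helper62.RE.RK

open Pool.Agent.Helper62.RE
open scoped TensorProduct

/-- a common denominator -/
lemma exists_integral {n : ℕ} (q : Fin n → ℚ) (hq : q ≠ 0) :
    ∃ v : Fin n → ℤ, v ≠ 0 ∧ ∃ N : ℚ, ∀ i, (v i : ℚ) = N * q i := by
  classical
  have h1 : ∀ i, ∃ a : ℤ, (a : ℚ) = (∏ j, ((q j).den : ℚ)) * q i := by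
    intro i
    refine ⟨(∏ j ∈ Finset.univ.erase i, ((q j).den : ℤ)) * (q i).num, ?_⟩
    rw [← Finset.mul_prod_erase Finset.univ _ (Finset.mem_univ i)]
    push_cast
    have := Rat.den_mul_eq_num (q i)
    linear_combination -(∏ j ∈ Finset.univ.erase i, ((q j).den : ℚ)) * this
  choose v hv using h1
  refine ⟨v, ?_, _, hv⟩
  rintro rfl
  apply hq
  funext i
  have h2 := hv i
  simp only [Pi.zero_apply, Int.cast_zero] at h2
  have h3 : (∏ j, ((q j).den : ℚ)) ≠ 0 :=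
    Finset.prod_ne_zero_iff.2 fun j _ => Nat.cast_ne_zero.2 (q j).den_ne_zero
  rcases mul_eq_zero.1 h2.symm with h | h
  · exact absurd h h3
  · exact h

lemma nsmul_tmul_eq {M : Type} [AddCommGroup M] (m : ℕ) (x : M) :
    (1 : ℚ) ⊗ₜ[ℤ] (m • x) = (m : ℚ) • ((1 : ℚ) ⊗ₜ[ℤ] x) := by
  rw [TensorProduct.tmul_smul, Nat.cast_smul_eq_nsmul]

theorem main : S_RK := by
  classical
  intro M _ n Γ h hfr hrk hsmall
  have hfd : FiniteDimensional ℚ (ℚ ⊗[ℤ] Γ) := hfr
  replace hrk : Module.finrank ℚ (ℚ ⊗[ℤ] Γ) < n := hrk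
  set H := coordGroup Γ with hH
  -- finitely many elements generate `H` up to multiples
  obtain ⟨F, hF, hFH, hFm⟩ := (FG.main M n Γ).2 hfr
  let V := ℚ ⊗[ℤ] M
  let φ : M → V := fun z => (1 : ℚ) ⊗ₜ[ℤ] z
  have hφm : ∀ (m : ℕ) (z : M), φ (m • z) = (m : ℚ) • φ z := fun m z => nsmul_tmul_eq m z
  let V₀ : Submodule ℚ V := Submodule.span ℚ (φ '' F)
  have hV₀fin : FiniteDimensional ℚ V₀ := FiniteDimensional.span_of_finite ℚ (hF.image φ)
  have hHV : ∀ z ∈ H, φ z ∈ V₀ := by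
    intro z hz
    obtain ⟨m, hm, hmz⟩ := hFm z hz
    have h1 : ∀ w ∈ AddSubgroup.closure F, φ w ∈ V₀ := by
      intro w hw
      induction hw using AddSubgroup.closure_induction with
      | mem w hw => exact Submodule.subset_span ⟨w, hw, rfl⟩
      | zero =>
        show (1 : ℚ) ⊗ₜ[ℤ] (0 : M) ∈ V₀
        rw [TensorProduct.tmul_zero]
        exact V₀.zero_mem
      | add a b _ _ ha hb =>
        show (1 : ℚ) ⊗ₜ[ℤ] (a + b) ∈ V₀
        rw [TensorProduct.tmul_add]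
        exact V₀.add_mem ha hb
      | neg a _ ha =>
        show (1 : ℚ) ⊗ₜ[ℤ] (-a) ∈ V₀
        rw [TensorProduct.tmul_neg]
        exact V₀.neg_mem ha
    have h2 := h1 _ hmz
    rw [hφm] at h2
    have h3 := V₀.smul_mem ((m : ℚ)⁻¹) h2
    rwa [smul_smul, inv_mul_cancel₀ (by exact_mod_cast hm.ne'), one_smul] at h3
  -- the spans of the small elements
  let W : ℝ → Submodule ℚ V := fun ε => Submodule.span ℚ (φ '' {z | z ∈ H ∧ h z < ε})
  have hWV : ∀ ε, W ε ≤ V₀ := by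
    intro ε
    apply Submodule.span_le.2
    rintro _ ⟨z, ⟨hz, _⟩, rfl⟩
    exact hHV z hz
  have hWmono : ∀ ε ε' : ℝ, ε ≤ ε' → W ε ≤ W ε' := by
    intro ε ε' hle
    apply Submodule.span_mono
    rintro _ ⟨z, ⟨hz, hz'⟩, rfl⟩
    exact ⟨z, ⟨hz, hz'.trans_le hle⟩, rfl⟩
  have hWfin : ∀ ε, FiniteDimensional ℚ (W ε) := fun ε =>
    Submodule.finiteDimensional_of_le (hWV ε)
  -- the least dimension
  have hex : ∃ d : ℕ, ∃ ε : ℝ, 0 < ε ∧ Module.finrank ℚ (W ε) = d := ⟨_, 1, one_pos, rfl⟩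
  obtain ⟨ε₀, hε₀, hd⟩ := Nat.find_spec hex
  have hstable : ∀ ε : ℝ, 0 < ε → W ε₀ ≤ W ε := by
    intro ε hε
    have hmin : 0 < min ε ε₀ := lt_min hε hε₀
    have h1 : W (min ε ε₀) ≤ W ε₀ := hWmono _ _ (min_le_right _ _)
    have h2 : Module.finrank ℚ (W ε₀) ≤ Module.finrank ℚ (W (min ε ε₀)) := by
      rw [hd]
      exact Nat.find_min' hex ⟨_, hmin, rfl⟩
    have h3 : W (min ε ε₀) = W ε₀ := Submodule.eq_of_le_of_finrank_le h1 h2
    rw [← h3]
    exact hWmono _ _ (min_le_left _ _)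
  -- a linear form
  obtain ⟨z₀, hz₀H, hz₀t, hz₀s⟩ := hsmall ε₀ hε₀
  have hz₀ : φ z₀ ≠ 0 := by
    intro h0
    obtain ⟨m, hm, hm0⟩ := FG.tmul_eq_zero h0
    exact hz₀t m hm hm0
  obtain ⟨f, hf⟩ : ∃ f : Module.Dual ℚ V, f (φ z₀) ≠ 0 := by
    by_contra hcon
    push Not at hcon
    exact hz₀ ((Module.forall_dual_apply_eq_zero_iff ℚ _).1 hcon)
  let ψ : M →+ ℚ :=
    { toFun := fun z => f ((1 : ℚ) ⊗ₜ[ℤ] z)
      map_zero' := by rw [TensorProduct.tmul_zero, map_zero]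
      map_add' := fun a b => by rw [TensorProduct.tmul_add, map_add] }
  have hψ : ∀ z, ψ z = f (φ z) := fun z => rfl
  let Fm : Γ →+ (Fin n → ℚ) :=
    { toFun := fun x i => ψ ((x : Fin n → M) i)
      map_zero' := by
        funext i
        exact ψ.map_zero
      map_add' := fun a b => by
        funext i
        exact ψ.map_add _ _ }
  let L : ℚ ⊗[ℤ] Γ →ₗ[ℚ] (Fin n → ℚ) := LinearMap.liftBaseChange ℚ Fm.toIntLinearMap
  have hrange : LinearMap.range L < ⊤ := by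
    rw [lt_top_iff_ne_top]
    intro htop
    have h1 := LinearMap.finrank_range_le L
    rw [htop, finrank_top, Module.finrank_fin_fun] at h1
    omega
  obtain ⟨e, he, hker⟩ := Submodule.exists_le_ker_of_lt_top _ hrange
  let q : Fin n → ℚ := fun i => e (Pi.single i 1)
  have hq : q ≠ 0 := by
    intro h
    apply he
    apply LinearMap.pi_ext'
    intro i
    apply LinearMap.ext_ring
    exact congrFun h i
  have h3 : ∀ x : Fin n → ℚ, e x = ∑ i, x i * q i := by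
    intro x
    conv_lhs => rw [pi_eq_sum_univ' x]
    rw [map_sum]
    refine Finset.sum_congr rfl fun i _ => ?_
    rw [map_smul, smul_eq_mul]
  obtain ⟨v, hv, N, hN⟩ := exists_integral q hq
  have hvanish : ∀ γ ∈ Γ, ψ (∑ i, v i • γ i) = 0 := by
    intro γ hγ
    have h1 : e (L ((1 : ℚ) ⊗ₜ[ℤ] (⟨γ, hγ⟩ : Γ))) = 0 := hker ⟨_, rfl⟩
    have h2 : L ((1 : ℚ) ⊗ₜ[ℤ] (⟨γ, hγ⟩ : Γ)) = fun i => ψ (γ i) := by
      rw [LinearMap.liftBaseChange_tmul, one_smul]
      rfl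
    rw [h2, h3] at h1
    rw [map_sum]
    have h5 : ∑ i, ψ (v i • γ i) = N * ∑ i, ψ (γ i) * q i := by
      rw [Finset.mul_sum]
      refine Finset.sum_congr rfl fun i _ => ?_
      rw [map_zsmul, zsmul_eq_mul, hN i]
      ring
    rw [h5, h1, mul_zero]
  refine ⟨v, hv, fun ε hε => ?_⟩
  by_contra hcon
  push Not at hcon
  -- the form vanishes on the span
  have hzero : ∀ w ∈ W ε, f w = 0 := by
    intro w hw
    induction hw using Submodule.span_induction with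
    | mem t ht =>
      obtain ⟨z, ⟨hz, hz'⟩, rfl⟩ := ht
      obtain ⟨m, hm, γ, hγ, hmγ⟩ := hcon z hz hz'
      have h1 : ψ (m • z) = 0 := by rw [hmγ, hvanish γ hγ]
      rw [hψ, hφm, map_smul, smul_eq_mul] at h1
      rcases mul_eq_zero.1 h1 with h | h
      · exact absurd h (by exact_mod_cast hm.ne')
      · exact h
    | zero => exact map_zero f
    | add a b _ _ ha hb => rw [map_add, ha, hb, add_zero]
    | smul c a _ ha => rw [map_smul, ha, smul_zero]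
  apply hf
  exact hzero _ (hstable ε hε (Submodule.subset_span ⟨z₀, ⟨hz₀H, hz₀s⟩, rfl⟩))

end Pool.Agent.Helper62.RE.RK
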