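import Mathlib
import Pool.Agent.Helper62.RE.Base

set_option autoImplicit false

/-!
# Groups with halves are not finitely generated modulo torsion
-/

namespace Pool.Agent.Helper62.RE.SAT

open Pool.Agent.Helper62.RE

theorem main : S_SAT := by
  intro M _ A hdiv hx hFG
  obtain ⟨F, hfin, hFA, hF⟩ := hFG
  obtain ⟨x₀, hx₀, hx₀t⟩ := hx
  -- the quotient by the torsion
  let N := M ⧸ Submodule.torsion ℤ M
  let π : M →ₗ[ℤ] N := (Submodule.torsion ℤ M).mkQ
  have hπ : ∀ x : M, π x = 0 ↔ ∃ m : ℕ, 0 < m ∧ m • x = 0 := by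
    intro x
    have h1 : π x = 0 ↔ x ∈ Submodule.torsion ℤ M := Submodule.Quotient.mk_eq_zero _
    rw [h1, Submodule.mem_torsion_iff]
    constructor
    · rintro ⟨a, ha⟩
      have ha0 : (a : ℤ) ≠ 0 := nonZeroDivisors.coe_ne_zero a
      refine ⟨(a : ℤ).natAbs, Int.natAbs_pos.2 ha0, ?_⟩
      have ha' : (a : ℤ) • x = 0 := ha
      rcases Int.natAbs_eq (a : ℤ) with h | h
      · rw [h] at ha'
        simpa using ha'
      · rw [h] at ha'
        simpa using ha'
    · rintro ⟨m, hm, hmx⟩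
      refine ⟨⟨(m : ℤ), mem_nonZeroDivisors_of_ne_zero (by exact_mod_cast hm.ne')⟩, ?_⟩
      show (m : ℤ) • x = 0
      simpa using hmx
  let B : Submodule ℤ N := Submodule.span ℤ (π '' F)
  have hBA : ∀ x ∈ A, π x ∈ B := by
    intro x hx
    obtain ⟨y, hy, m, hm, hmy⟩ := hF x hx
    have h1 : π x = π y := by
      have := (hπ (x - y)).2 ⟨m, hm, hmy⟩
      rw [map_sub, sub_eq_zero] at this
      exact this
    rw [h1]
    have h2 : y ∈ Submodule.span ℤ F := by
      rw [← Submodule.mem_toAddSubgroup, Submodule.span_int_eq_addSubgroupClosure]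
      exact hy
    have h3 : π y ∈ Submodule.map π (Submodule.span ℤ F) := Submodule.mem_map_of_mem h2
    rwa [Submodule.map_span] at h3
  have hBA' : ∀ z ∈ B, ∃ x ∈ A, π x = z := by
    intro z hz
    have h3 : z ∈ Submodule.map π (Submodule.span ℤ F) := by
      rw [Submodule.map_span]
      exact hz
    obtain ⟨y, hy, hyz⟩ := h3
    refine ⟨y, ?_, hyz⟩
    have h2 : y ∈ AddSubgroup.closure F := by
      rw [← Submodule.span_int_eq_addSubgroupClosure, Submodule.mem_toAddSubgroup]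
      exact hy
    exact (AddSubgroup.closure_le A).2 hFA h2
  haveI : Module.Finite ℤ B := Module.Finite.span_of_finite ℤ (hfin.image π)
  haveI : Module.Free ℤ B := inferInstance
  let b := Module.Free.chooseBasis ℤ B
  let z₀ : B := ⟨π x₀, hBA x₀ hx₀⟩
  have hz₀ : z₀ ≠ 0 := by
    intro h
    have h1 : π x₀ = 0 := congrArg Subtype.val h
    obtain ⟨m, hm, hmx⟩ := (hπ x₀).1 h1
    exact hx₀t m hm hmx
  obtain ⟨i, hi⟩ : ∃ i, b.repr z₀ i ≠ 0 := by
    by_contra hcon
    push Not at hcon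
    apply hz₀
    apply b.repr.injective
    ext i
    rw [hcon i, map_zero, Finsupp.zero_apply]
  have hhalf : ∀ z : B, ∃ w : B, (2 : ℤ) • w = z := by
    rintro ⟨z, hz⟩
    obtain ⟨x, hx, hxz⟩ := hBA' z hz
    obtain ⟨y, hy, hyx⟩ := hdiv x hx
    refine ⟨⟨π y, hBA y hy⟩, ?_⟩
    apply Subtype.ext
    show (2 : ℤ) • π y = z
    rw [← hxz, ← hyx, ← map_smul]
    congr 1
    rw [← natCast_zsmul]
    rfl
  have hpow : ∀ k : ℕ, ∃ w : B, ((2 : ℤ) ^ k) • w = z₀ := by
    intro k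
    induction k with
    | zero => exact ⟨z₀, by rw [pow_zero, one_smul]⟩
    | succ k ih =>
      obtain ⟨w, hw⟩ := ih
      obtain ⟨u, hu⟩ := hhalf w
      exact ⟨u, by rw [pow_succ, mul_smul, hu, hw]⟩
  have hdvd : ∀ k : ℕ, (2 : ℤ) ^ k ∣ b.repr z₀ i := by
    intro k
    obtain ⟨w, hw⟩ := hpow k
    rw [← hw, map_smul, Finsupp.smul_apply, smul_eq_mul]
    exact dvd_mul_right _ _
  have hle := Int.natAbs_dvd_natAbs.2 (hdvd (b.repr z₀ i).natAbs)
  have h5 := Nat.le_of_dvd (Int.natAbs_pos.2 hi) hle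
  rw [Int.natAbs_pow] at h5
  have h6 : (b.repr z₀ i).natAbs < 2 ^ (b.repr z₀ i).natAbs := Nat.lt_two_pow_self
  have h7 : (2 : ℤ).natAbs = 2 := rfl
  rw [h7] at h5
  omega

end Pool.Agent.Helper62.RE.SAT
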