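import Pool.Agent.Helper62.RE.Base

/-!
# SM: elements of small height (helper17 for helper62)
-/

set_option autoImplicit false

namespace Pool.Agent.Helper62.RE.SM

open Pool.Agent.Helper62.RE

theorem h_sum {M ι : Type} [AddCommGroup M] {h : M → ℝ} {κ : ℕ} (hκ : 0 < κ)
    (h0 : ∀ x, 0 ≤ h x) (hadd : ∀ x y, h (x + y) ≤ 2 * (h x + h y))
    (hmul : ∀ (m : ℤ) (x : M), h (m • x) = |(m : ℝ)| ^ κ * h x) (s : Finset ι) (c : ι → ℤ) (y : ι → M) :
    h (∑ i ∈ s, c i • y i) ≤ 2 ^ s.card * ∑ i ∈ s, |(c i : ℝ)| ^ κ * h (y i) := by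
  classical
  induction s using Finset.induction_on with
  | empty =>
    have := hmul 0 0
    rw [smul_zero, Int.cast_zero, abs_zero, zero_pow hκ.ne', zero_mul] at this
    simp [this]
  | insert a s ha ih =>
    rw [Finset.sum_insert ha, Finset.sum_insert ha, Finset.card_insert_of_notMem ha, pow_succ]
    refine (hadd _ _).trans ?_
    rw [hmul]
    have h1 : 0 ≤ |(c a : ℝ)| ^ κ * h (y a) := mul_nonneg (by positivity) (h0 _)
    have h2 : (1 : ℝ) ≤ 2 ^ s.card := one_le_pow₀ (by norm_num)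
    nlinarith

theorem main : S_SM := by
  classical
  intro M _ H h κ hκ h0 hadd hmul hex hnot ε hε
  obtain ⟨F, hFf, hFH, hF⟩ := hex
  by_contra hcon
  push Not at hcon
  apply hnot
  haveI : Fintype F := hFf.fintype
  have hcl : ∀ x : M, x ∈ AddSubgroup.closure F ↔ ∃ a : F → ℤ, ∑ i, a i • (i : M) = x := by
    intro x
    rw [← Submodule.span_int_eq_addSubgroupClosure, Submodule.mem_toAddSubgroup]
    conv_lhs => rw [← Subtype.range_coe (s := F)]
    exact Submodule.mem_span_range_iff_exists_fun ℤ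
  have hsumH : ∀ a : F → ℤ, ∑ i, a i • (i : M) ∈ H := fun a =>
    H.sum_mem fun i _ => H.zsmul_mem (hFH i.2) _
  -- the number of boxes
  obtain ⟨C, hC⟩ : ∃ C : ℝ, C = 2 ^ (Finset.univ : Finset F).card * ∑ i : F, h (i : M) := ⟨_, rfl⟩
  have hC0 : 0 ≤ C := by
    rw [hC]
    exact mul_nonneg (by positivity) (Finset.sum_nonneg fun i _ => h0 _)
  obtain ⟨N, hN⟩ := exists_nat_gt (C / ε)
  have hNpos : 0 < N := by
    have h1 : (0 : ℝ) < N := lt_of_le_of_lt (by positivity) hN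
    exact_mod_cast h1
  have hNε : C < N * ε := by rwa [div_lt_iff₀ hε] at hN
  -- the boxes
  obtain ⟨Bx, hBx⟩ : ∃ Bx : M → (F → Fin N) → Prop, ∀ y β, Bx y β ↔ ∃ m : ℕ, 0 < m ∧ ∃ b : F → ℤ,
      m • y = ∑ i, b i • (i : M) ∧ ∀ i, ((β i : ℕ) : ℤ) * m ≤ N * b i ∧ N * b i < ((β i : ℕ) + 1) * m :=
    ⟨_, fun _ _ => Iff.rfl⟩
  -- every element is in a box
  have hred : ∀ y ∈ H, ∃ y' ∈ H, ∃ q : F → ℤ, y = y' + ∑ i, q i • (i : M) ∧ ∃ β, Bx y' β := by
    intro y hy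
    obtain ⟨m, hm, hmy⟩ := hF y hy
    obtain ⟨a, ha⟩ := (hcl _).1 hmy
    have hmZ : (0 : ℤ) < m := by exact_mod_cast hm
    refine ⟨y - ∑ i, (a i / m) • (i : M), H.sub_mem hy (hsumH _), fun i => a i / m, by abel, ?_⟩
    have hb : ∀ i, 0 ≤ a i % m ∧ a i % m < m := fun i =>
      ⟨Int.emod_nonneg _ hmZ.ne', Int.emod_lt_of_pos _ hmZ⟩
    have hβ : ∀ i, (N * (a i % m) / m).toNat < N := by
      intro i
      have h1 : (N : ℤ) * (a i % m) / m < N := by
        rw [Int.ediv_lt_iff_lt_mul hmZ]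
        exact mul_lt_mul_of_pos_left (hb i).2 (by exact_mod_cast hNpos)
      have h2 : 0 ≤ (N : ℤ) * (a i % m) / m :=
        Int.ediv_nonneg (mul_nonneg (by positivity) (hb i).1) hmZ.le
      omega
    refine ⟨fun i => ⟨(N * (a i % m) / m).toNat, hβ i⟩, (hBx _ _).2 ⟨m, hm, fun i => a i % m, ?_, fun i => ?_⟩⟩
    · rw [smul_sub, ← ha, Finset.smul_sum, ← Finset.sum_sub_distrib]
      refine Finset.sum_congr rfl fun i _ => ?_
      rw [← natCast_zsmul, ← mul_smul, ← sub_smul]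
      congr 1
      have := Int.mul_ediv_add_emod (a i) m
      show a i - m * (a i / m) = a i % m
      linarith
    · have h2 : 0 ≤ (N : ℤ) * (a i % m) / m :=
        Int.ediv_nonneg (mul_nonneg (by positivity) (hb i).1) hmZ.le
      have h3 : (((N * (a i % m) / m).toNat : ℕ) : ℤ) = N * (a i % m) / m := Int.toNat_of_nonneg h2
      show (((N * (a i % m) / m).toNat : ℕ) : ℤ) * m ≤ N * (a i % m) ∧
        N * (a i % m) < ((((N * (a i % m) / m).toNat : ℕ) : ℤ) + 1) * m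
      rw [h3]
      constructor
      · exact Int.ediv_mul_le _ hmZ.ne'
      · exact Int.lt_ediv_add_one_mul_self _ hmZ
  -- two elements of the same box
  have hsame : ∀ y ∈ H, ∀ y' ∈ H, ∀ β, Bx y β → Bx y' β → ∃ m : ℕ, 0 < m ∧ m • (y - y') = 0 := by
    intro y hy y' hy' β h1 h2
    obtain ⟨m, hm, b, hb, hbb⟩ := (hBx _ _).1 h1
    obtain ⟨m', hm', b', hb', hbb'⟩ := (hBx _ _).1 h2
    by_contra htor
    push Not at htor
    have h3 := hcon (y - y') (H.sub_mem hy hy') htor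
    have e1 : ((m * m' : ℕ) : ℤ) • (y - y') = ∑ i, ((m' : ℤ) * b i - m * b' i) • (i : M) := by
      have e2 : ((m * m' : ℕ) : ℤ) • (y - y') = (m' : ℤ) • (m • y) - (m : ℤ) • (m' • y') := by
        rw [← natCast_zsmul y m, ← natCast_zsmul y' m', ← mul_smul, ← mul_smul, smul_sub]
        push_cast
        rw [mul_comm (m : ℤ) m']
      rw [e2, hb, hb', Finset.smul_sum, Finset.smul_sum, ← Finset.sum_sub_distrib]
      refine Finset.sum_congr rfl fun i _ => ?_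
      rw [← mul_smul, ← mul_smul, ← sub_smul]
    have h4 := h_sum hκ h0 hadd hmul Finset.univ (fun i => (m' : ℤ) * b i - m * b' i) fun i : F => (i : M)
    rw [← e1, hmul] at h4
    have hmm : (0 : ℝ) < ((m * m' : ℕ) : ℝ) := by positivity
    have hcoef : ∀ i, (N : ℝ) * |(((m' : ℤ) * b i - m * b' i : ℤ) : ℝ)| ≤ ((m * m' : ℕ) : ℝ) := by
      intro i
      have g1 := (hbb i).1
      have g2 := (hbb i).2
      have g3 := (hbb' i).1
      have g4 := (hbb' i).2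
      have hmZ : (0 : ℤ) < m := by exact_mod_cast hm
      have hmZ' : (0 : ℤ) < m' := by exact_mod_cast hm'
      have k1 := mul_le_mul_of_nonneg_left g1 hmZ'.le
      have k2 := mul_lt_mul_of_pos_left g2 hmZ'
      have k3 := mul_le_mul_of_nonneg_left g3 hmZ.le
      have k4 := mul_lt_mul_of_pos_left g4 hmZ
      have k5 : (N : ℤ) * |(m' : ℤ) * b i - m * b' i| ≤ m * m' := by
        rw [← abs_of_nonneg (by positivity : (0 : ℤ) ≤ N), ← abs_mul, abs_le]
        constructor <;> nlinarith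
      have k6 : (((N : ℤ) * |(m' : ℤ) * b i - m * b' i| : ℤ) : ℝ) ≤ ((m * m' : ℤ) : ℝ) := by exact_mod_cast k5
      push_cast at k6 ⊢
      exact k6
    have h5 : (N : ℝ) ^ κ * ∑ i : F, |(((m' : ℤ) * b i - m * b' i : ℤ) : ℝ)| ^ κ * h (i : M) ≤
        ((m * m' : ℕ) : ℝ) ^ κ * ∑ i : F, h (i : M) := by
      rw [Finset.mul_sum, Finset.mul_sum]
      refine Finset.sum_le_sum fun i _ => ?_
      rw [← mul_assoc, ← mul_pow]
      exact mul_le_mul_of_nonneg_right (pow_le_pow_left₀ (by positivity) (hcoef i) κ) (h0 _)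
    have h6 : ((m * m' : ℕ) : ℝ) ^ κ * ((N : ℝ) ^ κ * h (y - y')) ≤ ((m * m' : ℕ) : ℝ) ^ κ * C := by
      have e3 : |(((m * m' : ℕ) : ℤ) : ℝ)| = ((m * m' : ℕ) : ℝ) := by
        rw [Int.cast_natCast, abs_of_pos hmm]
      rw [e3] at h4
      calc ((m * m' : ℕ) : ℝ) ^ κ * ((N : ℝ) ^ κ * h (y - y'))
          = (N : ℝ) ^ κ * (((m * m' : ℕ) : ℝ) ^ κ * h (y - y')) := by ring
        _ ≤ (N : ℝ) ^ κ * (2 ^ (Finset.univ : Finset F).card *
              ∑ i : F, |(((m' : ℤ) * b i - m * b' i : ℤ) : ℝ)| ^ κ * h (i : M)) := by gcongr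
        _ = 2 ^ (Finset.univ : Finset F).card * ((N : ℝ) ^ κ *
              ∑ i : F, |(((m' : ℤ) * b i - m * b' i : ℤ) : ℝ)| ^ κ * h (i : M)) := by ring
        _ ≤ 2 ^ (Finset.univ : Finset F).card * (((m * m' : ℕ) : ℝ) ^ κ * ∑ i : F, h (i : M)) := by gcongr
        _ = ((m * m' : ℕ) : ℝ) ^ κ * C := by rw [hC]; ring
    have h7 := le_of_mul_le_mul_left h6 (by positivity)
    have h8 : (N : ℝ) ≤ (N : ℝ) ^ κ := by
      have : (1 : ℝ) ≤ N := by exact_mod_cast hNpos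
      exact le_self_pow₀ this hκ.ne'
    have h9 : (N : ℝ) * h (y - y') ≤ C := (mul_le_mul_of_nonneg_right h8 (h0 _)).trans h7
    have h10 : (N : ℝ) * ε ≤ N * h (y - y') := by gcongr
    linarith
  -- the generators
  obtain ⟨rep, hrep⟩ : ∃ rep : (F → Fin N) → M, ∀ β, rep β ∈ H ∧ ((∃ y ∈ H, Bx y β) → Bx (rep β) β) := by
    have : ∀ β, ∃ z : M, z ∈ H ∧ ((∃ y ∈ H, Bx y β) → Bx z β) := by
      intro β
      by_cases hβ : ∃ y ∈ H, Bx y β
      · obtain ⟨y, hy, hy2⟩ := hβ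
        exact ⟨y, hy, fun _ => hy2⟩
      · exact ⟨0, H.zero_mem, fun h => absurd h hβ⟩
    choose rep hrep using this
    exact ⟨rep, hrep⟩
  refine ⟨F ∪ Set.range rep, hFf.union (Set.finite_range rep), ?_, ?_⟩
  · rintro x (hx | ⟨β, rfl⟩)
    · exact hFH hx
    · exact (hrep β).1
  · intro x hx
    obtain ⟨y', hy', q, hq, β, hβ⟩ := hred x hx
    refine ⟨rep β + ∑ i, q i • (i : M), ?_, ?_⟩
    · refine AddSubgroup.add_mem _ (AddSubgroup.subset_closure (Or.inr ⟨β, rfl⟩)) ?_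
      refine AddSubgroup.closure_mono Set.subset_union_left ((hcl _).2 ⟨q, rfl⟩)
    · obtain ⟨m, hm, hmm⟩ := hsame y' hy' (rep β) (hrep β).1 β hβ ((hrep β).2 ⟨y', hy', hβ⟩)
      refine ⟨m, hm, ?_⟩
      rw [← hmm, hq]
      congr 1
      abel

end Pool.Agent.Helper62.RE.SM
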