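import Pool.Agent.Helper62.RE.Core2
import Pool.Agent.Helper62.RE.SAT
import Pool.Agent.Helper62.RE.DBL
import Pool.Agent.Helper62.RE.INF
import Pool.Agent.Helper62.RE.FG
import Pool.Agent.Helper62.RE.RK
import Pool.Agent.Helper62.RE.SM
import Pool.Agent.Helper62.RE.IND
import Pool.Agent.Helper62.RE.DEG
import Pool.Agent.Helper62.RE.DSC
import Pool.Agent.Helper62.RE.ORB
import Pool.Graph.R_pool_sql_team_seeded_b677cdb8.E8helper9.RM.Rank

set_option autoImplicit false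

/-!
# Powers of elliptic curves: consequences
-/

namespace Pool.Agent.Helper62.RE

open scoped TensorProduct Classical
open Pool.Agent.Helper62.RE.Hts

variable {a b : Qb}

/-- `Γ` is equal to its saturation -/
def IsSaturated {M : Type} [AddCommGroup M] (Γ : AddSubgroup M) : Prop :=
  ∀ (x : M) (m : ℕ), 0 < m → m • x ∈ Γ → x ∈ Γ

/-- the modules DBL, INF, DEG, FG, IND, DSC, ORB -/
theorem not_lehmer_of_small' (hHT : S_HT)
    (hab : 4 * a ^ 3 + 27 * b ^ 2 ≠ 0) {n : ℕ} (hn : 1 ≤ n)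
    {O : Subring (AddMonoid.End (EPt a b))} (hO : IsEndRing O) {K : IntermediateField ℚ Qb}
    (ha : a ∈ K) (hb : b ∈ K) {Γ : AddSubgroup (Fin n → EPt a b)} (hfin : FinRk Γ)
    (v : Fin n → ℤ) (hv : v ≠ 0)
    (hsm : ∀ ε : ℝ, 0 < ε → ∃ z ∈ coordGroup Γ, ht z < ε ∧
      ∀ m : ℕ, 0 < m → ∀ γ ∈ Γ, m • z ≠ ∑ i, v i • γ i) : ¬ IsLehmerGroup O K Γ :=
  not_lehmer_of_small hHT DBL.main INF.main (DEG.main DBL.main) FG.main IND.main DSC.main ORB.main
    hab hn hO ha hb hfin v hv hsm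

/-- nontorsion elements of small height -/
theorem exists_small (hHT : S_HT) (hab : 4 * a ^ 3 + 27 * b ^ 2 ≠ 0) {n : ℕ}
    {Γ : AddSubgroup (Fin n → EPt a b)} (hfin : FinRk Γ) (hng : ¬ FGModTorsion Γ) :
    ∀ ε : ℝ, 0 < ε → ∃ z ∈ coordGroup Γ, (∀ m : ℕ, 0 < m → m • z ≠ 0) ∧ ht z < ε := by
  obtain ⟨-, hpos, hpar⟩ := hHT a b hab
  obtain ⟨hFG1, hFG2⟩ := FG.main (EPt a b) n Γ
  exact SM.main (EPt a b) (coordGroup Γ) ht 2 two_pos hpos (f_add_le hpar hpos)
    (fun m x => f_zsmul hpar x m) (hFG2 hfin) (fun h => hng (hFG1 h))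

theorem not_lehmer_of_rank (hHT : S_HT)
    (hab : 4 * a ^ 3 + 27 * b ^ 2 ≠ 0) {n : ℕ} (hn : 1 ≤ n)
    {O : Subring (AddMonoid.End (EPt a b))} (hO : IsEndRing O) {K : IntermediateField ℚ Qb}
    (ha : a ∈ K) (hb : b ∈ K) {Γ : AddSubgroup (Fin n → EPt a b)} (hfin : FinRk Γ)
    (hng : ¬ FGModTorsion Γ) (hrk : rk Γ < n) : ¬ IsLehmerGroup O K Γ := by
  obtain ⟨v, hv, h⟩ := RK.main (EPt a b) n Γ ht hfin hrk (exists_small hHT hab hfin hng)
  exact not_lehmer_of_small' hHT hab hn hO ha hb hfin v hv h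

/-- a saturated group with a nontorsion element is not finitely generated modulo torsion -/
theorem not_fg_of_saturated (hab : 4 * a ^ 3 + 27 * b ^ 2 ≠ 0) {n : ℕ}
    {Γ : AddSubgroup (Fin n → EPt a b)} (hΓ : IsSaturated Γ)
    (hx : ∃ x ∈ Γ, ∀ m : ℕ, 0 < m → m • x ≠ 0) : ¬ FGModTorsion Γ := by
  refine SAT.main (Fin n → EPt a b) Γ ?_ hx
  intro x hx
  choose y hy using fun i => (DBL.main a b hab).1 (x i)
  have h : 2 • y = x := funext hy
  exact ⟨y, hΓ y 2 two_pos (by rw [h]; exact hx), h⟩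

/-- a group of positive rank has a nontorsion element -/
theorem exists_nontorsion_of_rk {M : Type} [AddCommGroup M] {Γ : AddSubgroup M} (h : 0 < rk Γ) :
    ∃ x ∈ Γ, ∀ m : ℕ, 0 < m → m • x ≠ 0 := by
  by_contra hcon
  push Not at hcon
  have h0 : ∀ t : ℚ ⊗[ℤ] Γ, t = 0 := by
    intro t
    induction t using TensorProduct.induction_on with
    | zero => rfl
    | tmul q x =>
      obtain ⟨m, hm, hmx⟩ := hcon x x.2
      have hmx' : (m : ℤ) • x = 0 := by
        apply Subtype.ext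
        rw [natCast_zsmul]
        exact hmx
      have hm0 : (m : ℚ) ≠ 0 := by exact_mod_cast hm.ne'
      have e : q = (m : ℤ) • (q / m) := by
        rw [zsmul_eq_mul]
        push_cast
        field_simp
      rw [e, TensorProduct.smul_tmul, hmx', TensorProduct.tmul_zero]
    | add x y hx hy => rw [hx, hy, add_zero]
  have h1 : Subsingleton (ℚ ⊗[ℤ] Γ) := ⟨fun x y => by rw [h0 x, h0 y]⟩
  have h2 : rk Γ = 0 := Module.finrank_zero_of_subsingleton
  omega

/-- a saturated group of rank one -/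
theorem exists_rank_one (hab : 4 * a ^ 3 + 27 * b ^ 2 ≠ 0) {n : ℕ} (hn : 1 ≤ n) :
    ∃ Γ : AddSubgroup (Fin n → EPt a b), IsSaturated Γ ∧ rk Γ = 1 := by
  obtain ⟨R, hR⟩ := exists_nontorsion INF.main hab
  set i₀ : Fin n := ⟨0, hn⟩ with hi₀
  set g : Fin n → EPt a b := Pi.single i₀ R with hg
  refine ⟨satu (AddSubgroup.zmultiples g), fun x m hm hx => satu_of_nsmul hm hx, ?_⟩
  have hgmem : g ∈ satu (AddSubgroup.zmultiples g) :=
    ⟨1, one_pos, by rw [one_smul]; exact AddSubgroup.mem_zmultiples g⟩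
  refine Pool.Agent.E8helper9.RM.finrank_eq_one (⟨g, hgmem⟩ : satu (AddSubgroup.zmultiples g)) ?_ ?_
  · intro k hk h
    have h1 : k • g = 0 := congrArg Subtype.val h
    have h2 := congrFun h1 i₀
    rw [Pi.smul_apply, hg, Pi.single_eq_same, Pi.zero_apply] at h2
    exact hR k hk h2
  · intro x
    obtain ⟨m, hm, hxm⟩ := x.2
    obtain ⟨k, hk⟩ := AddSubgroup.mem_zmultiples_iff.1 hxm
    refine ⟨m, hm, k, ?_⟩
    apply Subtype.ext
    exact hk.symm

end Pool.Agent.Helper62.RE
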