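import Pool.Agent.Helper62.RE.Base
import Pool.Graph.R_seed8.TH942.Ner
import Pool.Graph.R_seed8.H58P.Ht

set_option autoImplicit false

/-!
# HT: the Néron-Tate height (second attempt)
-/

namespace Pool.Agent.Helper62.RE.HT2

open Filter Topology Pool.Agent.Helper62.RE Pool.Agent.TH942 Height
open scoped Classical

/-- the inclusion of the points -/
theorem incl {L : Type} [Field L] (φ : L →+* Qb) (a' b' : L) :
    ∃ ι : SPt a' b' →+ EPt (φ a') (φ b'),
      ∀ x y h, ∃ h', ι (.some x y h) = .some (φ x) (φ y) h' := by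
  let _ : Algebra L Qb := φ.toAlgebra
  obtain ⟨W, hW⟩ : ∃ W : WeierstrassCurve L, W = sw a' b' := ⟨_, rfl⟩
  have e1 : W.baseChange L = sw a' b' := by
    rw [hW]
    ext <;> simp [sw, WeierstrassCurve.baseChange, WeierstrassCurve.map]
  have e2 : W.baseChange Qb = curve (φ a') (φ b') := by
    rw [hW]
    ext <;> simp [sw, curve, WeierstrassCurve.baseChange, WeierstrassCurve.map, RingHom.algebraMap_toAlgebra]
  have key : ∀ (V1 : WeierstrassCurve L) (V2 : WeierstrassCurve Qb), W.baseChange L = V1 →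
      W.baseChange Qb = V2 → ∃ ι : V1.toAffine.Point →+ V2.toAffine.Point,
      ∀ x y h, ∃ h', ι (.some x y h) = .some (φ x) (φ y) h' := by
    rintro _ _ rfl rfl
    exact ⟨WeierstrassCurve.Affine.Point.map (W' := W) (Algebra.ofId L Qb),
      fun x y h => ⟨_, rfl⟩⟩
  exact key _ _ e1 e2

/-- all points with coordinates in `L` come from `L` -/
theorem lift {L : Type} [Field L] [CharZero L] (φ : L →+* Qb) {a' b' : L}
    (hD : 4 * a' ^ 3 + 27 * b' ^ 2 ≠ 0)
    {ι : SPt a' b' →+ EPt (φ a') (φ b')}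
    (hι : ∀ x y h, ∃ h', ι (.some x y h) = .some (φ x) (φ y) h')
    (P : EPt (φ a') (φ b')) (hP : coords P ⊆ Set.range φ) : ∃ P', ι P' = P := by
  rcases P with _ | ⟨x, y, h⟩
  · exact ⟨0, map_zero ι⟩
  · obtain ⟨x', hx⟩ := hP (show x ∈ coords _ by simp [coords])
    obtain ⟨y', hy⟩ := hP (show y ∈ coords _ by simp [coords])
    have he : y' ^ 2 = x' ^ 3 + a' * x' + b' := by
      apply φ.injective
      have h1 := h.1
      rw [WeierstrassCurve.Affine.equation_iff] at h1
      simp only [curve] at h1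
      rw [← hx, ← hy] at h1
      simp only [map_pow, map_add, map_mul]
      linear_combination h1
    obtain ⟨h', e⟩ := hι x' y' (sw_nonsing hD he)
    refine ⟨_, e.trans ?_⟩
    simp only [WeierstrassCurve.Affine.Point.some.injEq]
    exact ⟨hx, hy⟩

/-- the comparison of the heights -/
theorem naive_eq {L : Type} [Field L] [NumberField L] (φ : L →+* Qb) {a' b' : L}
    {ι : SPt a' b' →+ EPt (φ a') (φ b')}
    (hι : ∀ x y h, ∃ h', ι (.some x y h) = .some (φ x) (φ y) h')
    (P : SPt a' b') : naive (ι P) = sht P / (2 * Module.finrank ℚ L) := by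
  rcases P with _ | ⟨x, y, h⟩
  · have h1 : ι WeierstrassCurve.Affine.Point.zero = 0 := map_zero ι
    have h2 : sht (WeierstrassCurve.Affine.Point.zero : SPt a' b') = 0 := sht_zero
    rw [h1, h2, zero_div]
    rfl
  · obtain ⟨h', e⟩ := hι x y h
    rw [e]
    show NumberField.absLogHeight₁ (φ x) / 2 = _
    rw [Pool.Agent.H58P.absLogHeight₁_eq]
    have h1 := Pool.Agent.Helper259.AbsHt.absLogHeight_eq L φ ![1, x]
    have e1 : (fun i => φ (![1, x] i)) = ![1, φ x] := by
      funext i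
      fin_cases i
      · simp
      · simp
    rw [e1] at h1
    have h2 : Pool.Agent.H58P.ht (φ x) = Pool.Agent.Helper259.AbsHt.absLogHeight ![1, φ x] := rfl
    rw [h2, h1, sht, WeierstrassCurve.Affine.Point.xRep_some, logHeight_swap]
    field_simp

/-- finitely many algebraic numbers are in a number field -/
theorem exists_field (S : Set Qb) (hS : S.Finite) :
    ∃ (L : Type) (_ : Field L) (_ : NumberField L) (φ : L →+* Qb), S ⊆ Set.range φ := by
  have halg : Algebra.IsAlgebraic ℚ Qb := AlgebraicClosure.isAlgebraic ℚ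
  have : Finite S := hS
  have hfd : FiniteDimensional ℚ (IntermediateField.adjoin ℚ S) :=
    IntermediateField.finiteDimensional_adjoin fun x _ => Algebra.IsIntegral.isIntegral x
  have hnf : NumberField (IntermediateField.adjoin ℚ S) :=
    { to_charZero := inferInstance
      to_finiteDimensional := by convert hfd }
  exact ⟨IntermediateField.adjoin ℚ S, inferInstance, hnf, algebraMap _ Qb, fun x hx =>
    ⟨⟨x, IntermediateField.subset_adjoin ℚ S hx⟩, rfl⟩⟩

theorem main : S_HT := by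
  intro a b hab
  -- a common field
  have key : ∀ P Q : EPt a b, ∃ hP hQ hS hD : ℝ,
        Tendsto (fun k : ℕ => naive ((2 ^ k : ℕ) • P) / 4 ^ k) atTop (𝓝 hP) ∧
        Tendsto (fun k : ℕ => naive ((2 ^ k : ℕ) • Q) / 4 ^ k) atTop (𝓝 hQ) ∧
        Tendsto (fun k : ℕ => naive ((2 ^ k : ℕ) • (P + Q)) / 4 ^ k) atTop (𝓝 hS) ∧
        Tendsto (fun k : ℕ => naive ((2 ^ k : ℕ) • (P - Q)) / 4 ^ k) atTop (𝓝 hD) ∧
        0 ≤ hP ∧ hS + hD = 2 * (hP + hQ) := by
    intro P Q
    have hcf : ∀ P : EPt a b, (coords P).Finite := by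
      rintro (_ | ⟨x, y, hxy⟩)
      · exact Set.finite_empty
      · exact (Set.finite_singleton y).insert x
    obtain ⟨L, _, _, φ, hφ⟩ := exists_field ({a, b} ∪ (coords P ∪ coords Q))
      (((Set.finite_singleton b).insert a).union ((hcf P).union (hcf Q)))
    obtain ⟨a', rfl⟩ := hφ (show a ∈ _ by simp)
    obtain ⟨b', rfl⟩ := hφ (show b ∈ _ by simp)
    have hD : 4 * a' ^ 3 + 27 * b' ^ 2 ≠ 0 := by
      intro h
      apply hab
      have := congrArg φ h
      rw [map_add, map_mul, map_mul, map_pow, map_pow, map_zero, map_ofNat, map_ofNat] at this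
      exact this
    obtain ⟨ι, hι⟩ := incl φ a' b'
    obtain ⟨P', rfl⟩ := lift φ hD hι P fun c hc => hφ (Or.inr (Or.inl hc))
    obtain ⟨Q', rfl⟩ := lift φ hD hι Q fun c hc => hφ (Or.inr (Or.inr hc))
    obtain ⟨q, C, hq0, hqp, -, hql, -⟩ := neron hD
    have hn : (0 : ℝ) < 2 * Module.finrank ℚ L := by
      have := Module.finrank_pos (R := ℚ) (M := L)
      positivity
    have hl : ∀ R : SPt a' b', Tendsto (fun k : ℕ => naive ((2 ^ k : ℕ) • ι R) / 4 ^ k) atTop
        (𝓝 (q R / (2 * Module.finrank ℚ L))) := by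
      intro R
      have h1 := (hql R).div_const (2 * (Module.finrank ℚ L : ℝ))
      refine h1.congr fun k => ?_
      rw [← map_nsmul, naive_eq φ hι]
      ring
    refine ⟨_, _, q (P' + Q') / (2 * Module.finrank ℚ L), q (P' - Q') / (2 * Module.finrank ℚ L),
      hl P', hl Q', ?_, ?_, ?_, ?_⟩
    · rw [← map_add]
      exact hl (P' + Q')
    · rw [← map_sub]
      exact hl (P' - Q')
    · exact div_nonneg (hq0 P') hn.le
    · rw [← add_div, hqp P' Q']
      ring
  have hlim : ∀ P : EPt a b,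
      Tendsto (fun k : ℕ => naive ((2 ^ k : ℕ) • P) / 4 ^ k) atTop (𝓝 (ht P)) ∧ 0 ≤ ht P := by
    intro P
    obtain ⟨hP, -, -, -, h1, -, -, -, h2, -⟩ := key P P
    have h3 : ht P = hP := h1.limUnder_eq
    rw [h3]
    exact ⟨h1, h2⟩
  refine ⟨fun P => (hlim P).1, fun P => (hlim P).2, fun P Q => ?_⟩
  obtain ⟨hP, hQ, hS, hD, h1, h2, h3, h4, -, h5⟩ := key P Q
  have e1 : ht P = hP := h1.limUnder_eq
  have e2 : ht Q = hQ := h2.limUnder_eq
  have e3 : ht (P + Q) = hS := h3.limUnder_eq
  have e4 : ht (P - Q) = hD := h4.limUnder_eq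
  rw [e1, e2, e3, e4, h5]

end Pool.Agent.Helper62.RE.HT2
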