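import Pool.Agent.Helper62.RE.Core3
import Pool.Agent.Helper62.RE.Fin
import Pool.Agent.Helper62.RE.HT2

set_option autoImplicit false

/-!
# Powers of elliptic curves: consequences of the construction with coefficients in `O`
-/

namespace Pool.Agent.Helper62.RE

open scoped TensorProduct Classical
open Pool.Agent.Helper62.RE.Hts

variable {a b : Qb}

/-- The properties of the ring of endomorphisms of an elliptic curve which are used: it is commutative
and finitely generated as a group, every `x ≠ 0` divides a positive integer, and the elements of the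
ring are defined over some number field `K₁`. -/
def EndProps (O : Subring (AddMonoid.End (EPt a b))) : Prop :=
  IsEndRing O ∧ ∃ K₁ : IntermediateField ℚ Qb, FiniteDimensional ℚ K₁ ∧ DefinedOver O K₁

lemma EndProps.exists_gen {O : Subring (AddMonoid.End (EPt a b))} (hO : EndProps O) :
    ∃ B : Finset (AddMonoid.End (EPt a b)),
      ∀ x ∈ O, x ∈ AddSubgroup.closure (B : Set (AddMonoid.End (EPt a b))) := by
  obtain ⟨B, hB, h⟩ := hO.1.2.2
  exact ⟨hB.toFinset, by rwa [Set.Finite.coe_toFinset]⟩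

theorem not_lehmer_of_small3 (hDEG : S_DEG2) (hFG : S_FG2)
    (hab : 4 * a ^ 3 + 27 * b ^ 2 ≠ 0) {n : ℕ} (hn : 1 ≤ n)
    {O : Subring (AddMonoid.End (EPt a b))} (hO : EndProps O) {K : IntermediateField ℚ Qb}
    (ha : a ∈ K) (hb : b ∈ K) {Γ : AddSubgroup (Fin n → EPt a b)} (hfin : FinRk Γ)
    (v : Fin n → AddMonoid.End (EPt a b)) (hvO : ∀ i, v i ∈ O) (hv : v ≠ 0)
    (B : Finset (AddMonoid.End (EPt a b)))
    (hB : ∀ x ∈ O, x ∈ AddSubgroup.closure (B : Set (AddMonoid.End (EPt a b))))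
    (hsm : ∀ ε : ℝ, 0 < ε → ∃ z ∈ oSpan O Γ, ∑ x ∈ B, ht (x z) < ε ∧
      ∀ m : ℕ, 0 < m → ∀ γ ∈ Γ, m • z ≠ ∑ i, v i (γ i)) : ¬ IsLehmerGroup O K Γ := by
  obtain ⟨hO1, K₁, hK₁f, hK₁⟩ := hO
  exact not_lehmer_of_small2 HT2.main DBL.main INF.main hDEG hFG IND.main DSC.main ORB.main
    hab hn hO1 hK₁f hK₁ ha hb hfin v hvO hv B hB hsm

/-- nontorsion elements of small height -/
theorem exists_small3 (hFG : S_FG2) (hab : 4 * a ^ 3 + 27 * b ^ 2 ≠ 0) {n : ℕ}
    {O : Subring (AddMonoid.End (EPt a b))} (hO : EndProps O)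
    {Γ : AddSubgroup (Fin n → EPt a b)} (hfin : FinRk Γ) (hng : ¬ FGModTorsion Γ)
    (B : Finset (AddMonoid.End (EPt a b))) :
    ∀ ε : ℝ, 0 < ε → ∃ z ∈ oSpan O Γ, (∀ m : ℕ, 0 < m → m • z ≠ 0) ∧
      ∑ x ∈ B, ht (x z) < ε := by
  obtain ⟨-, hpos, hpar⟩ := HT2.main a b hab
  obtain ⟨hFG1, hFG2⟩ := hFG (EPt a b) O n Γ hO.1.2.2
  refine SM.main (EPt a b) (oSpan O Γ) (fun z => ∑ x ∈ B, ht (x z)) 2 two_pos
    (fun z => Finset.sum_nonneg fun x _ => hpos _) (fun z w => ?_) (fun m z => ?_)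
    (hFG2 hfin) (fun h => hng (hFG1 h))
  · rw [← Finset.sum_add_distrib, Finset.mul_sum]
    refine Finset.sum_le_sum fun x _ => ?_
    rw [map_add]
    exact f_add_le hpar hpos _ _
  · rw [Finset.mul_sum]
    refine Finset.sum_congr rfl fun x _ => ?_
    rw [map_zsmul]
    exact f_zsmul hpar _ m

theorem not_lehmer_of_rank3 (hRK : S_RK2) (hDEG : S_DEG2) (hFG : S_FG2)
    (hab : 4 * a ^ 3 + 27 * b ^ 2 ≠ 0) {n : ℕ} (hn : 1 ≤ n)
    {O : Subring (AddMonoid.End (EPt a b))} (hO : EndProps O) {K : IntermediateField ℚ Qb}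
    (ha : a ∈ K) (hb : b ∈ K) {Γ : AddSubgroup (Fin n → EPt a b)} (hfin : FinRk Γ)
    (hng : ¬ FGModTorsion Γ) (hrk : rk Γ < n * rk O) : ¬ IsLehmerGroup O K Γ := by
  obtain ⟨B, hB⟩ := hO.exists_gen
  obtain ⟨v, hvO, hv, h⟩ := hRK (EPt a b) O n Γ (fun z => ∑ x ∈ B, ht (x z)) hO.1.2.2 hfin hrk
    (exists_small3 hFG hab hO hfin hng B)
  exact not_lehmer_of_small3 hDEG hFG hab hn hO ha hb hfin v hvO hv B hB h

end Pool.Agent.Helper62.RE
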