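import Mathlib
import Pool.Agent.Helper62.RE.Base
import Pool.Graph.R_seed8.TH942.Ner
import Pool.Graph.R_seed8.H58P.Ht

/-!
# RE, module HT: the Néron-Tate height on `E(ℚ̄)` (helper60)

For a number field `L` which contains `a`, `b` and the coordinates of the points under consideration,
the group `E(L)` maps to `E(ℚ̄)`, and the absolute height is the height over `L` divided by the degree
of `L`. The result follows from the theorem `neron` of the library.
-/

set_option autoImplicit false

namespace Pool.Agent.Helper62.RE.HT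

open scoped Classical
open Filter Topology WeierstrassCurve WeierstrassCurve.Affine Height Module
open Pool.Agent.TH942

/-- the map from the points over `L` to the points over `ℚ̄` -/
theorem emb (L : IntermediateField ℚ Qb) (a b : L) :
    ∃ Φ : SPt a b →+ EPt (a : Qb) (b : Qb),
      (∀ (x y : L) (h : (sw a b).toAffine.Nonsingular x y),
        ∃ h' : (curve (a : Qb) (b : Qb)).toAffine.Nonsingular (x : Qb) (y : Qb),
          Φ (.some x y h) = .some (x : Qb) (y : Qb) h') ∧
      ∀ (x y : L) (h' : (curve (a : Qb) (b : Qb)).toAffine.Nonsingular (x : Qb) (y : Qb)),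
        ∃ h : (sw a b).toAffine.Nonsingular x y, Φ (.some x y h) = .some (x : Qb) (y : Qb) h' := by
  have hW0 : (sw a b).map (algebraMap L L) = sw a b := by
    ext <;> simp [sw]
  have hW : (sw a b).map (algebraMap L Qb) = curve (a : Qb) (b : Qb) := by
    ext <;> simp [curve, sw]
  have key : ∀ (W0 : WeierstrassCurve L) (W : WeierstrassCurve Qb),
      (sw a b).map (algebraMap L L) = W0 → (sw a b).map (algebraMap L Qb) = W →
      ∃ Φ : W0.toAffine.Point →+ W.toAffine.Point,
      (∀ (x y : L) (h : W0.toAffine.Nonsingular x y),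
        ∃ h' : W.toAffine.Nonsingular (x : Qb) (y : Qb),
          Φ (.some x y h) = .some (x : Qb) (y : Qb) h') ∧
      ∀ (x y : L) (h' : W.toAffine.Nonsingular (x : Qb) (y : Qb)),
        ∃ h : W0.toAffine.Nonsingular x y, Φ (.some x y h) = .some (x : Qb) (y : Qb) h' := by
    rintro _ _ rfl rfl
    have h0 := fun x y => (sw a b).toAffine.baseChange_nonsingular (S := L)
      (Algebra.ofId L Qb).injective x y
    refine ⟨Point.map (W' := (sw a b).toAffine) (S := L) (Algebra.ofId L Qb), fun x y h => ?_,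
      fun x y h' => ?_⟩
    · exact ⟨(h0 x y).mpr h, rfl⟩
    · exact ⟨(h0 x y).mp h', rfl⟩
  exact key _ _ hW0 hW

/-- the absolute height -/
theorem naive_map (L : IntermediateField ℚ Qb) [NumberField L] (a b : L)
    (Φ : SPt a b →+ EPt (a : Qb) (b : Qb))
    (hΦ : ∀ (x y : L) (h : (sw a b).toAffine.Nonsingular x y),
        ∃ h' : (curve (a : Qb) (b : Qb)).toAffine.Nonsingular (x : Qb) (y : Qb),
          Φ (.some x y h) = .some (x : Qb) (y : Qb) h') (P : SPt a b) :
    naive (Φ P) = sht P / (2 * finrank ℚ L) := by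
  cases P with
  | zero =>
    have h1 : (Affine.Point.zero : SPt a b) = 0 := rfl
    have h2 : naive (0 : EPt (a : Qb) (b : Qb)) = 0 := rfl
    rw [h1, map_zero, sht_zero, h2, zero_div]
  | some x y h =>
    obtain ⟨h', h1⟩ := hΦ x y h
    have h2 := Pool.Agent.Helper259.AbsHt.absLogHeight_eq L (algebraMap L Qb) ![1, x]
    have h3 : (fun i => (algebraMap L Qb) ((![1, x] : Fin 2 → L) i)) = ![1, (x : Qb)] := by
      funext i
      fin_cases i
      · simp
      · rfl
    rw [h3] at h2
    have h4 : naive (.some (x : Qb) (y : Qb) h' : EPt (a : Qb) (b : Qb)) =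
      NumberField.absLogHeight₁ (x : Qb) / 2 := rfl
    rw [h1, h4, Pool.Agent.H58P.absLogHeight₁_eq, Pool.Agent.H58P.ht, h2, sht,
      Affine.Point.xRep_some, logHeight_swap]
    field_simp

theorem core (L : IntermediateField ℚ Qb) [NumberField L] (a b : L)
    (hD : 4 * (a : Qb) ^ 3 + 27 * (b : Qb) ^ 2 ≠ 0) (P Q : EPt (a : Qb) (b : Qb))
    (hP : coords P ⊆ L) (hQ : coords Q ⊆ L) :
    Tendsto (fun k : ℕ => naive ((2 ^ k : ℕ) • P) / 4 ^ k) atTop (𝓝 (ht P)) ∧ 0 ≤ ht P ∧
      ht (P + Q) + ht (P - Q) = 2 * (ht P + ht Q) := by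
  have hD' : 4 * a ^ 3 + 27 * b ^ 2 ≠ 0 := by
    intro h
    apply hD
    have := congrArg (algebraMap L Qb) h
    rw [map_add, map_mul, map_mul, map_pow, map_pow, map_ofNat, map_ofNat, map_zero] at this
    exact this
  obtain ⟨Φ, hΦ, hΦ'⟩ := emb L a b
  obtain ⟨q, C, h0, hpar, -, hlim, -⟩ := neron hD'
  have hd : (0 : ℝ) < finrank ℚ L := by
    have := Module.finrank_pos (R := ℚ) (M := L)
    exact_mod_cast this
  have lim : ∀ P' : SPt a b, Tendsto (fun k : ℕ => naive ((2 ^ k : ℕ) • Φ P') / 4 ^ k) atTop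
      (𝓝 (q P' / (2 * finrank ℚ L))) := by
    intro P'
    refine ((hlim P').div_const (2 * (finrank ℚ L : ℝ))).congr fun k => ?_
    rw [← map_nsmul, naive_map L a b Φ hΦ]
    ring
  have hht : ∀ P' : SPt a b, ht (Φ P') = q P' / (2 * finrank ℚ L) := fun P' => (lim P').limUnder_eq
  have surj : ∀ R : EPt (a : Qb) (b : Qb), coords R ⊆ L → ∃ R' : SPt a b, Φ R' = R := by
    intro R hR
    cases R with
    | zero => exact ⟨0, map_zero Φ⟩
    | some x y h =>
      have hx : x ∈ L := hR (by simp [coords])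
      have hy : y ∈ L := hR (by simp [coords])
      obtain ⟨h1, h2⟩ := hΦ' ⟨x, hx⟩ ⟨y, hy⟩ h
      exact ⟨_, h2⟩
  obtain ⟨P', rfl⟩ := surj P hP
  obtain ⟨Q', rfl⟩ := surj Q hQ
  refine ⟨?_, ?_, ?_⟩
  · rw [hht]
    exact lim P'
  · rw [hht]
    exact div_nonneg (h0 P') (by positivity)
  · rw [← map_add, ← map_sub, hht, hht, hht, hht, ← add_div, hpar]
    ring

theorem coords_finite {a b : Qb} (P : EPt a b) : (coords P).Finite := by
  cases P with
  | zero => exact Set.finite_empty
  | some x y h => exact (Set.finite_singleton y).insert x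

theorem main : S_HT := by
  intro a b hD
  have key : ∀ P Q : EPt a b,
      Tendsto (fun k : ℕ => naive ((2 ^ k : ℕ) • P) / 4 ^ k) atTop (𝓝 (ht P)) ∧ 0 ≤ ht P ∧
      ht (P + Q) + ht (P - Q) = 2 * (ht P + ht Q) := by
    intro P Q
    obtain ⟨L, hL, hmem⟩ := Pool.Agent.Helper259.AbsHt.exists_nf
      (({a, b} : Set Qb) ∪ (coords P ∪ coords Q))
      (((Set.finite_singleton b).insert a).union ((coords_finite P).union (coords_finite Q)))
    have ha : a ∈ L := hmem a (by simp)
    have hb : b ∈ L := hmem b (by simp)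
    exact core L ⟨a, ha⟩ ⟨b, hb⟩ hD P Q (fun z hz => hmem z (Or.inr (Or.inl hz)))
      (fun z hz => hmem z (Or.inr (Or.inr hz)))
  exact ⟨fun P => (key P 0).1, fun P => (key P 0).2.1, fun P Q => (key P Q).2.2⟩

end Pool.Agent.Helper62.RE.HT
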