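import Pool.Agent.Helper62.RE.EDefs

set_option autoImplicit false

/-!
# Definitions for the theorem on powers of elliptic curves
-/

namespace Pool.Agent.Helper62.RE.Main

open Pool.Agent.Helper62.RE
open scoped Classical

section generic

/-! `M` is an abelian group (the points of an elliptic curve), `O` a ring of endomorphisms of `M` and `Γ`
a subgroup of `M^n`. -/

variable {M : Type} [AddCommGroup M] {n : ℕ}

/-- the homomorphism `x ↦ w_1 x_1 + … + w_n x_n` from `M^n` to `M` -/
def form (w : Fin n → AddMonoid.End M) (x : Fin n → M) : M := ∑ i, w i (x i)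

/-- `w` is in `O^n` and not zero -/
def NonzeroIn (O : Subring (AddMonoid.End M)) (w : Fin n → AddMonoid.End M) : Prop :=
  (∀ i, w i ∈ O) ∧ w ≠ 0

/-- `Γ` is equal to its saturation -/
def Saturated (Γ : AddSubgroup (Fin n → M)) : Prop :=
  ∀ (x : Fin n → M) (m : ℕ), 0 < m → m • x ∈ Γ → x ∈ Γ

/-- the rank of `O` as an abelian group -/
noncomputable def rkO (O : Subring (AddMonoid.End M)) : ℕ := rk O

/-- the ring of integers -/
def intRing (M : Type) [AddCommGroup M] : Subring (AddMonoid.End M) :=
  (Int.castRingHom (AddMonoid.End M)).range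

/-- `O` is commutative and finitely generated as a group, and for every `x ≠ 0` in `O` there is `y` in
`O` (the dual isogeny) such that `y x` is the multiplication by a positive integer -/
def EndRing (O : Subring (AddMonoid.End M)) : Prop :=
  (∀ x ∈ O, ∀ y ∈ O, x * y = y * x) ∧
  (∀ x ∈ O, x ≠ 0 → ∃ y ∈ O, ∃ N : ℕ, 0 < N ∧ y * x = (N : AddMonoid.End M)) ∧
  ∃ B : Set (AddMonoid.End M), B.Finite ∧ ∀ x ∈ O, x ∈ AddSubgroup.closure B

/-- the `O`-module generated by the coordinates of the elements of `Γ` -/
def span (O : Subring (AddMonoid.End M)) (Γ : AddSubgroup (Fin n → M)) : AddSubgroup M :=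
  AddSubgroup.closure {y | ∃ x ∈ O, ∃ g ∈ Γ, ∃ i, y = x (g i)}

/-- For every `v ≠ 0` in `O^n` all elements of sufficiently small height of the `O`-module generated by
the coordinates of the elements of `Γ` have a positive multiple of the form `∑ v_i γ_i` with `γ` in `Γ`.
Here the height of `z` is `∑ h (x z)`, the sum over a finite set `B` of generators `x` of `O`. -/
def SmallAreValues (h : M → ℝ) (O : Subring (AddMonoid.End M)) (Γ : AddSubgroup (Fin n → M)) :
    Prop :=
  ∀ v : Fin n → AddMonoid.End M, NonzeroIn O v →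
    ∀ B : Finset (AddMonoid.End M), (∀ x ∈ O, x ∈ AddSubgroup.closure (B : Set (AddMonoid.End M))) →
      ∃ ε : ℝ, 0 < ε ∧ ∀ z ∈ span O Γ, ∑ x ∈ B, h (x z) < ε →
        ∃ m : ℕ, 0 < m ∧ ∃ γ ∈ Γ, form v γ = m • z

/-- There is `v ≠ 0` in `O^n` such that all `∑ v_i γ_i` are torsion. -/
def TorsionValues (O : Subring (AddMonoid.End M)) (Γ : AddSubgroup (Fin n → M)) : Prop :=
  ∃ v : Fin n → AddMonoid.End M, NonzeroIn O v ∧ ∀ γ ∈ Γ, ∃ m : ℕ, 0 < m ∧ m • form v γ = 0

/-- `V` is `Γ`-transverse: for no `w ≠ 0` in `O^n` is `V` contained in the translate by an element `γ`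
of the saturation of `Γ` of the kernel of the homomorphism `x ↦ w_1 x_1 + … + w_n x_n` from `E^n` to
`E`. Here `O` is the endomorphism ring of `E`. (The proper abelian subvarieties of `E^n` are contained
in such kernels, and these kernels are finite unions of translates of proper abelian subvarieties by
torsion points.) -/
def Transverse (O : Subring (AddMonoid.End M)) (Γ : AddSubgroup (Fin n → M))
    (V : Set (Fin n → M)) : Prop :=
  ∀ w : Fin n → AddMonoid.End M, NonzeroIn O w →
    ∀ γ : Fin n → M, (∃ m : ℕ, 0 < m ∧ m • γ ∈ Γ) → ¬ V ⊆ {x | form w x = form w γ}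

/-- the group `B` is in the kernel of some homomorphism `x ↦ w_1 x_1 + … + w_n x_n`, `w ≠ 0` in `O^n` -/
def InKernel (O : Subring (AddMonoid.End M)) (B : AddSubgroup (Fin n → M)) : Prop :=
  ∃ w : Fin n → AddMonoid.End M, NonzeroIn O w ∧ ∀ x ∈ B, form w x = 0

end generic

variable {a b : Qb} {n : ℕ}

/-- `Γ` is a Lehmer group over the field `K`; transversality is defined with the ring `O` -/
def LehmerFor (O : Subring (AddMonoid.End (EPt a b))) (K : IntermediateField ℚ Qb)
    (Γ : AddSubgroup (Fin n → EPt a b)) : Prop :=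
  ∃ c : ℝ, 0 < c ∧ ∀ V : Set (Fin n → EPt a b), IsSubvariety V → V ≠ Set.univ →
    Transverse O Γ V → c ≤ obstruction (coordField K Γ) V * essMin V

/-- `Γ`-torsion subvarieties: the sets `γ + B` with `B` a connected (that is, irreducible) algebraic
subgroup of `E^n` and `γ` in the saturation of `Γ`, that is, with a positive multiple in `Γ` -/
def TorsionVariety (Γ : AddSubgroup (Fin n → EPt a b)) (T : Set (Fin n → EPt a b)) : Prop :=
  ∃ B : AddSubgroup (Fin n → EPt a b), IsSubvariety (B : Set (Fin n → EPt a b)) ∧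
    ∃ γ : Fin n → EPt a b, (∃ m : ℕ, 0 < m ∧ m • γ ∈ Γ) ∧ T = {x | ∃ y ∈ B, x = γ + y}

/-- `Γ` is a Lehmer group over the field `K`: the literal definition of the problem. The subvarieties
`V` considered are those contained in no proper `Γ`-torsion subvariety. -/
def LehmerGroup (K : IntermediateField ℚ Qb) (Γ : AddSubgroup (Fin n → EPt a b)) : Prop :=
  ∃ c : ℝ, 0 < c ∧ ∀ V : Set (Fin n → EPt a b), IsSubvariety V → V ≠ Set.univ →
    (∀ T : Set (Fin n → EPt a b), TorsionVariety Γ T → T ≠ Set.univ → ¬ V ⊆ T) →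
      c ≤ obstruction (coordField K Γ) V * essMin V

/-- Every proper closed subgroup of `E^n` is in the kernel of some homomorphism
`x ↦ w_1 x_1 + … + w_n x_n` from `E^n` to `E` with `w ≠ 0` in `O^n`. If `O` is the ring of all
endomorphisms of the curve `E` this is a classical fact (Poincaré). -/
def SubgroupsInKernels (O : Subring (AddMonoid.End (EPt a b))) (n : ℕ) : Prop :=
  ∀ B : AddSubgroup (Fin n → EPt a b), IsZClosed (B : Set (Fin n → EPt a b)) →
    (B : Set (Fin n → EPt a b)) ≠ Set.univ → InKernel O B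

/-- the elements of `O` are defined over a number field `K₁`: they map points with coordinates in a field
`F ⊇ K₁` to such points -/
def DefinedOver (O : Subring (AddMonoid.End (EPt a b))) (K₁ : IntermediateField ℚ Qb) : Prop :=
  ∀ F : IntermediateField ℚ Qb, K₁ ≤ F → a ∈ F → b ∈ F → ∀ x ∈ O, ∀ P : EPt a b,
    coords P ⊆ (F : Set Qb) → coords (x P) ⊆ (F : Set Qb)

/-- The properties of the ring of endomorphisms of an elliptic curve which are used: it is commutative
and finitely generated as a group, every `x ≠ 0` divides a positive integer, and the elements of the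
ring are defined over some number field `K₁`. -/
def EndProps (O : Subring (AddMonoid.End (EPt a b))) : Prop :=
  EndRing O ∧ ∃ K₁ : IntermediateField ℚ Qb, FiniteDimensional ℚ K₁ ∧ DefinedOver O K₁

/-- the map `ρ` is `(x, y) ↦ (p x, q y)` -/
def IsScaling (ρ : EPt a b → EPt a b) (p q : Qb) : Prop :=
  ∀ x y h, ∃ h', ρ (.some x y h) = .some (p * x) (q * y) h'

/-- `E` has an endomorphism `ρ = ((x, y) ↦ (p x, q y))` which generates a ring of rank two with the
properties `EndProps` -/
def HasScaling (a b p q : Qb) : Prop :=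
  ∃ ρ : AddMonoid.End (EPt a b), IsScaling ρ p q ∧ EndProps (Subring.closure {ρ}) ∧
    rkO (Subring.closure {ρ}) = 2

/-- There is a saturated subgroup of rank one of `E^n` which is not a Lehmer group for `O` over any
field `K` containing `a` and `b`. -/
def ExistsRankOne (O : Subring (AddMonoid.End (EPt a b))) (n : ℕ) : Prop :=
  ∃ Γ : AddSubgroup (Fin n → EPt a b), Saturated Γ ∧ rk Γ = 1 ∧
    ∀ K : IntermediateField ℚ Qb, a ∈ K → b ∈ K → ¬ LehmerFor O K Γ

/-- There is a saturated subgroup of rank one of `E` which is not a Lehmer group, in the literal sense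
of the problem, over any field `K` containing `a` and `b`. -/
def ExistsInCurve (a b : Qb) : Prop :=
  ∃ Γ : AddSubgroup (Fin 1 → EPt a b), Saturated Γ ∧ rk Γ = 1 ∧
    ∀ K : IntermediateField ℚ Qb, a ∈ K → b ∈ K → ¬ LehmerGroup K Γ

/-- The assertions about a subgroup `Γ` of `E^n` and a field `K` containing `a` and `b`. -/
def Assertions (O : Subring (AddMonoid.End (EPt a b))) (Γ : AddSubgroup (Fin n → EPt a b))
    (K : IntermediateField ℚ Qb) : Prop :=
  (LehmerFor O K Γ → SmallAreValues ht O Γ) ∧
  (¬ FGModTorsion Γ → rk Γ < n * rkO O → ¬ LehmerFor O K Γ) ∧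
  (¬ FGModTorsion Γ → TorsionValues O Γ → ¬ LehmerFor O K Γ) ∧
  (Saturated Γ → 0 < rk Γ → rk Γ < n * rkO O → ¬ LehmerFor O K Γ) ∧
  (SubgroupsInKernels O n → LehmerGroup K Γ → LehmerFor O K Γ)

end Pool.Agent.Helper62.RE.Main
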