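import Pool.Agent.Helper62.RE.Base

set_option autoImplicit false

/-!
# Rings of endomorphisms: statements of the modules
-/

namespace Pool.Agent.Helper62.RE

open scoped Classical

/-- AUT: the automorphisms `(x, y) ↦ (u² x, u³ y)` of `y² = x³ + a x + b` are homomorphisms. -/
def S_AUT : Prop := ∀ a b u : Qb, u ≠ 0 → u ^ 4 * a = a → u ^ 6 * b = b →
  ∃ ρ : AddMonoid.End (EPt a b), ∀ x y h, ∃ h', ρ (.some x y h) = .some (u ^ 2 * x) (u ^ 3 * y) h'

/-- OMR: on `y² = x³ + b` the automorphism `(x, y) ↦ (ω x, y)`, `ω² + ω + 1 = 0`, satisfies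
`ρ² + ρ + 1 = 0`. -/
def S_OMR : Prop := ∀ b ω : Qb, b ≠ 0 → ω ^ 2 + ω + 1 = 0 → ∀ ρ : AddMonoid.End (EPt 0 b),
  (∀ x y h, ∃ h', ρ (.some x y h) = .some (ω * x) y h') → ρ * ρ + ρ + 1 = 0

/-- RNG: the subring generated by an endomorphism `ρ` with `ρ² = t ρ - 1`, `t² < 4`, is commutative, every
nonzero element divides a positive integer, and it is finitely generated as a group; the same for the
subring of the integers if the group has an element which is not torsion. -/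
def S_RNG : Prop := ∀ (M : Type) [AddCommGroup M],
  (∀ (ρ : AddMonoid.End M) (t : ℤ), t ^ 2 < 4 → ρ * ρ = t • ρ - 1 →
    (∀ x ∈ Subring.closure {ρ}, ∀ y ∈ Subring.closure {ρ}, x * y = y * x) ∧
    (∀ x ∈ Subring.closure {ρ}, x ≠ 0 → ∃ y ∈ Subring.closure {ρ}, ∃ N : ℕ, 0 < N ∧
      y * x = (N : AddMonoid.End M)) ∧
    ∃ B : Set (AddMonoid.End M), B.Finite ∧ ∀ x ∈ Subring.closure {ρ}, x ∈ AddSubgroup.closure B) ∧
  (∀ x ∈ (Int.castRingHom (AddMonoid.End M)).range, ∀ y ∈ (Int.castRingHom (AddMonoid.End M)).range,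
    x * y = y * x) ∧
  (∀ x ∈ (Int.castRingHom (AddMonoid.End M)).range, x ≠ 0 →
    ∃ y ∈ (Int.castRingHom (AddMonoid.End M)).range, ∃ N : ℕ, 0 < N ∧
      y * x = (N : AddMonoid.End M)) ∧
  ∃ B : Set (AddMonoid.End M), B.Finite ∧ ∀ x ∈ (Int.castRingHom (AddMonoid.End M)).range,
    x ∈ AddSubgroup.closure B

end Pool.Agent.Helper62.RE
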